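import Pool.Agent.H4.HY.ColHV
import Pool.Agent.H85.Fold.Sphere

/-!
# Project HB: chains of links over fields; exactness and ranks
-/

set_option autoImplicit false
set_option linter.unusedSectionVars false

open Finset

namespace Pool.Agent.H4.HY

open Pool.Agent.H4 Pool.Agent.H4.Singer Pool.Agent.H85.Fold

open scoped Matrix

variable {V : Type} [DecidableEq V] [Fintype V]

/-- the simplices with `j` vertices of the link of `ρ` -/
def PL (G : SimpleGraph V) (ρ : Finset V) (j : ℕ) (σ : Finset V) : Prop :=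
  Disjoint σ ρ ∧ Pool.Agent.H85.Fold.Cl G (σ ∪ ρ) ∧ σ.card = j

/-- functions with support in `p` -/
def supS (K : Type) [Field K] (p : Finset V → Prop) : Submodule K (Finset V → K) where
  carrier := {z | ∀ σ, z σ ≠ 0 → p σ}
  zero_mem' := fun _ h => absurd rfl h
  add_mem' := by
    intro x y hx hy σ h
    by_cases h1 : x σ = 0
    · refine hy σ fun h2 => h ?_
      rw [Pi.add_apply, h1, h2, add_zero]
    · exact hx σ h1
  smul_mem' := by
    intro r x hx σ h
    refine hx σ fun h1 => h ?_
    rw [Pi.smul_apply, h1, smul_zero]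

theorem mem_supS {K : Type} [Field K] {p : Finset V → Prop} {z : Finset V → K} :
    z ∈ supS K p ↔ ∀ σ, z σ ≠ 0 → p σ := Iff.rfl

open Classical in
/-- functions with support in `p` -/
noncomputable def supEquiv (K : Type) [Field K] (p : Finset V → Prop) :
    supS K p ≃ₗ[K] ({σ // p σ} → K) where
  toFun z s := z.1 s.1
  map_add' _ _ := rfl
  map_smul' _ _ := rfl
  invFun f := ⟨fun σ => if h : p σ then f ⟨σ, h⟩ else 0, fun σ h => by
    by_contra h1
    exact h (dif_neg h1)⟩
  left_inv z := by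
    apply Subtype.ext
    funext σ
    by_cases h : p σ
    · exact dif_pos h
    · have h1 : z.1 σ = 0 := by
        by_contra h2
        exact h (z.2 σ h2)
      rw [h1]
      exact dif_neg h
  right_inv f := by
    funext s
    exact dif_pos s.2

theorem finrank_supS (K K' : Type) [Field K] [Field K'] (p : Finset V → Prop) :
    Module.finrank K (supS K p) = Module.finrank K' (supS K' p) := by
  classical
  rw [(supEquiv K p).finrank_eq, (supEquiv K' p).finrank_eq, Module.finrank_fintype_fun_eq_card,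
    Module.finrank_fintype_fun_eq_card]

/-- the boundary operator over a field -/
def bdK (K : Type) [Field K] (ν : V → ℕ) : (Finset V → K) →ₗ[K] (Finset V → K) where
  toFun z τ := ∑ v ∈ τᶜ, (sg ν v τ : K) * z (insert v τ)
  map_add' z z' := by
    funext τ
    simp [mul_add, sum_add_distrib]
  map_smul' r z := by
    funext τ
    simp only [Pi.smul_apply, smul_eq_mul, RingHom.id_apply, mul_sum]
    exact sum_congr rfl fun v _ => by ring

theorem bdK_apply (K : Type) [Field K] (ν : V → ℕ) (z : Finset V → K) (τ : Finset V) :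
    bdK K ν z τ = ∑ v ∈ τᶜ, (sg ν v τ : K) * z (insert v τ) := rfl

theorem bdK_bdK (K : Type) [Field K] (ν : V → ℕ) (hν : Function.Injective ν) (z : Finset V → K) :
    bdK K ν (bdK K ν z) = 0 := by
  funext τ
  rw [bdK_apply]
  simp only [bdK_apply, Finset.mul_sum, Pi.zero_apply]
  rw [Finset.sum_sigma']
  refine Finset.sum_involution (fun p _ => ⟨p.2, p.1⟩) ?_ ?_ ?_ ?_
  · rintro ⟨v, u⟩ h
    simp only [Finset.mem_sigma, Finset.mem_compl, Finset.mem_insert, not_or] at h
    simp only
    rw [Finset.insert_comm v u τ]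
    have h1 := congrArg (Int.cast : ℤ → K) (sg_swap ν hν u v h.2.1 τ h.2.2 h.1)
    push_cast at h1
    linear_combination (z (insert u (insert v τ))) * h1
  · rintro ⟨v, u⟩ h _ heq
    simp only [Finset.mem_sigma, Finset.mem_compl, Finset.mem_insert, not_or] at h
    simp only [Sigma.mk.injEq, heq_eq_eq] at heq
    exact h.2.1 heq.1
  · rintro ⟨v, u⟩ h
    simp only [Finset.mem_sigma, Finset.mem_compl, Finset.mem_insert, not_or] at h ⊢
    exact ⟨h.2.2, fun h1 => h.2.1 h1.symm, h.1⟩
  · rintro ⟨v, u⟩ _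
    rfl

theorem bdK_mem {K : Type} [Field K] (ν : V → ℕ) {G : SimpleGraph V} {ρ : Finset V} {j : ℕ}
    {z : Finset V → K} (hz : z ∈ supS K (PL G ρ (j + 1))) :
    bdK K ν z ∈ supS K (PL G ρ j) := by
  intro τ hτ
  rw [bdK_apply] at hτ
  obtain ⟨v, hv, hne⟩ := exists_ne_zero_of_sum_ne_zero hτ
  obtain ⟨h1, h2, h3⟩ := hz (insert v τ) (right_ne_zero_of_mul hne)
  rw [card_insert_of_notMem (mem_compl.1 hv)] at h3
  refine ⟨disjoint_of_subset_left (subset_insert _ _) h1, fun u hu w hw huw => ?_, by omega⟩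
  exact h2 u (union_subset_union (subset_insert _ _) (Finset.Subset.refl _) hu) w
    (union_subset_union (subset_insert _ _) (Finset.Subset.refl _) hw) huw

/-- exactness in degree `j` of the chains of the link -/
def ExL (K : Type) [Field K] (ν : V → ℕ) (G : SimpleGraph V) (ρ : Finset V) (j : ℕ) : Prop :=
  ∀ z ∈ supS K (PL G ρ j), bdK K ν z = 0 → ∃ y ∈ supS K (PL G ρ (j + 1)), bdK K ν y = z

/-- the dimension of the space of cycles -/
noncomputable def zd (K : Type) [Field K] (ν : V → ℕ) (G : SimpleGraph V) (ρ : Finset V)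
    (j : ℕ) : ℕ := Module.finrank K (supS K (PL G ρ j) ⊓ LinearMap.ker (bdK K ν) :
      Submodule K (Finset V → K))

theorem zd_succ {K : Type} [Field K] (ν : V → ℕ) (hν : Function.Injective ν) (G : SimpleGraph V)
    (ρ : Finset V) (j : ℕ) (h : ExL K ν G ρ j) :
    zd K ν G ρ j + zd K ν G ρ (j + 1) = Module.finrank K (supS K (PL G ρ (j + 1))) := by
  obtain ⟨W, hW⟩ : ∃ W, W = supS K (PL G ρ (j + 1)) := ⟨_, rfl⟩
  have h1 := LinearMap.finrank_range_add_finrank_ker ((bdK K ν).domRestrict W)
  have h2 : LinearMap.range ((bdK K ν).domRestrict W) =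
      supS K (PL G ρ j) ⊓ LinearMap.ker (bdK K ν) := by
    rw [LinearMap.range_domRestrict]
    apply le_antisymm
    · rintro _ ⟨y, hy, rfl⟩
      rw [hW] at hy
      exact ⟨bdK_mem ν hy, LinearMap.mem_ker.2 (bdK_bdK K ν hν y)⟩
    · rintro z ⟨hz, hz'⟩
      obtain ⟨y, hy, hyz⟩ := h z hz (LinearMap.mem_ker.1 hz')
      exact ⟨y, by rw [hW]; exact hy, hyz⟩
  have h3 : Module.finrank K (LinearMap.ker ((bdK K ν).domRestrict W)) =
      Module.finrank K (W ⊓ LinearMap.ker (bdK K ν) : Submodule K (Finset V → K)) := by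
    rw [LinearMap.ker_domRestrict, ← Submodule.map_comap_subtype,
      Submodule.finrank_map_subtype_eq]
  unfold zd
  rw [← h2, ← hW, ← h3]
  exact h1

theorem zd_zero {K : Type} [Field K] (ν : V → ℕ) (G : SimpleGraph V) (ρ : Finset V) :
    zd K ν G ρ 0 = Module.finrank K (supS K (PL G ρ 0)) := by
  unfold zd
  have h : supS K (PL G ρ 0) ⊓ LinearMap.ker (bdK K ν) = supS K (PL G ρ 0) := by
    refine inf_eq_left.2 fun z hz => ?_
    rw [LinearMap.mem_ker]
    funext τ
    rw [bdK_apply, Pi.zero_apply]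
    refine sum_eq_zero fun v _ => ?_
    have h1 : z (insert v τ) = 0 := by
      by_contra h2
      have h3 := (hz _ h2).2.2
      rw [card_eq_zero] at h3
      exact insert_ne_empty _ _ h3
    rw [h1, mul_zero]
  rw [h]

theorem zd_eq (K K' : Type) [Field K] [Field K'] (ν : V → ℕ) (hν : Function.Injective ν)
    (G : SimpleGraph V) (ρ : Finset V) (j : ℕ) (h : ∀ i, i < j → ExL K ν G ρ i)
    (h' : ∀ i, i < j → ExL K' ν G ρ i) : zd K ν G ρ j = zd K' ν G ρ j := by
  induction j with
  | zero => rw [zd_zero, zd_zero, finrank_supS K K']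
  | succ j ih =>
    have h1 := ih (fun i hi => h i (by omega)) (fun i hi => h' i (by omega))
    have h2 := zd_succ ν hν G ρ j (h j (by omega))
    have h3 := zd_succ ν hν G ρ j (h' j (by omega))
    rw [finrank_supS K K'] at h2
    omega

/-! ### from one field to the reals -/

open Classical in
/-- the projection onto the functions with support in `p` -/
noncomputable def pm (p : Finset V → Prop) : Matrix (Finset V) (Finset V) ℤ :=
  Matrix.diagonal fun σ => if p σ then 1 else 0

theorem pm_fix {K : Type} [Field K] (p : Finset V → Prop) (z : Finset V → K) :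
    (pm p).map (Int.cast : ℤ → K) *ᵥ z = z ↔ z ∈ supS K p := by
  classical
  have h1 : ∀ σ, ((pm p).map (Int.cast : ℤ → K) *ᵥ z) σ = if p σ then z σ else 0 := by
    intro σ
    unfold pm
    rw [Matrix.diagonal_map Int.cast_zero, Matrix.mulVec_diagonal]
    split_ifs <;> simp
  constructor
  · intro h σ hσ
    by_contra h2
    have h3 := congrFun h σ
    rw [h1, if_neg h2] at h3
    exact hσ h3.symm
  · intro h
    funext σ
    rw [h1]
    split_ifs with h2
    · rfl
    · by_contra h3
      exact h2 (h σ (fun h4 => h3 h4.symm))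

theorem pm_idem (p : Finset V → Prop) : pm p * pm p = pm p := by
  classical
  unfold pm
  rw [Matrix.diagonal_mul_diagonal]
  congr 1
  funext σ
  split_ifs <;> simp

/-- the matrix of the boundary operator -/
noncomputable def dmL (ν : V → ℕ) : Matrix (Finset V) (Finset V) (MvPolynomial Empty ℤ) :=
  fun τ σ => ∑ v ∈ τᶜ, if σ = insert v τ then MvPolynomial.C (sg ν v τ) else 0

theorem dmL_mul {K : Type} [Field K] (ν : V → ℕ) (t : Empty → K) (z : Finset V → K) :
    (dmL ν).map (ev t) *ᵥ z = bdK K ν z := by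
  funext τ
  have h1 : ∀ σ, (dmL ν).map (ev t) τ σ * z σ = ∑ v ∈ τᶜ,
      if σ = insert v τ then (sg ν v τ : K) * z σ else 0 := by
    intro σ
    rw [Matrix.map_apply]
    unfold dmL
    rw [map_sum, Finset.sum_mul]
    refine Finset.sum_congr rfl fun v _ => ?_
    by_cases h : σ = insert v τ
    · rw [if_pos h, if_pos h, ev_C]
    · rw [if_neg h, if_neg h, map_zero, zero_mul]
  show ∑ σ, (dmL ν).map (ev t) τ σ * z σ = _
  simp only [h1]
  rw [Finset.sum_comm, bdK_apply]
  refine Finset.sum_congr rfl fun v _ => ?_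
  rw [Finset.sum_ite_eq' univ, if_pos (mem_univ _)]

/-- exactness over some field implies exactness over the reals -/
theorem exL_real {K : Type} [Field K] (ν : V → ℕ) (hν : Function.Injective ν) (G : SimpleGraph V)
    (ρ : Finset V) (j : ℕ) (h : ExL K ν G ρ j) : ExL ℝ ν G ρ j := by
  obtain ⟨t, ht⟩ := exists_int_point (X := Unit) (V := Empty) (fun _ => pm (PL G ρ j))
    (fun _ => pm (PL G ρ (j + 1))) (dmL ν) (fun _ => pm_idem _) (fun _ => pm_idem _)
    (fun _ => ⟨K, inferInstance, fun e => e.elim, fun z hz hbd => by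
      rw [pm_fix] at hz
      rw [dmL_mul] at hbd
      obtain ⟨y, hy, hyz⟩ := h z hz hbd
      exact ⟨y, (pm_fix _ _).2 hy, by rw [dmL_mul]; exact hyz⟩⟩)
    (fun _ t y hy => by
      rw [pm_fix] at hy
      rw [dmL_mul, dmL_mul, pm_fix]
      exact ⟨bdK_mem ν hy, bdK_bdK ℝ ν hν y⟩)
  intro z hz hbd
  obtain ⟨y, hy, hyz⟩ := ht () z ((pm_fix _ _).2 hz) (by rw [dmL_mul]; exact hbd)
  rw [pm_fix] at hy
  rw [dmL_mul] at hyz
  exact ⟨y, hy, hyz⟩

/-- A graph is a real homology sphere if this is true over some field. -/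
theorem isHomologySphere_of_field {K : Type} [Field K] (G : SimpleGraph V) (n : ℕ)
    (dim : ∀ σ, Pool.Agent.H85.Fold.Cl G σ → σ.card ≤ n)
    (low : ∀ ν : V → ℕ, Function.Injective ν → ∀ ρ, Pool.Agent.H85.Fold.Cl G ρ → ∀ j,
      j + ρ.card < n → ExL K ν G ρ j)
    (top : ∀ ν : V → ℕ, Function.Injective ν → ∀ ρ, Pool.Agent.H85.Fold.Cl G ρ → ∀ j,
      j + ρ.card = n → zd K ν G ρ j = 1) : IsHomologySphere G n where
  dim := dim
  low ν hν ρ hρ j hj z hz hbd := by
    have hb : ∀ y : Finset V → ℝ, Pool.Agent.H85.Fold.bd ν y = bdK ℝ ν y := by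
      intro y
      funext τ
      rw [SphereAux.bd_apply, bdK_apply]
      exact sum_congr rfl fun v _ => by rw [sgn_eq_sg]
    obtain ⟨y, hy, hyz⟩ := exL_real ν hν G ρ j (low ν hν ρ hρ j hj) z hz
      (by rw [← hb]; exact hbd)
    exact ⟨y, hy, by rw [hb]; exact hyz⟩
  top ν hν ρ hρ j hj := by
    have hb : ∀ y : Finset V → ℝ, Pool.Agent.H85.Fold.bd ν y = bdK ℝ ν y := by
      intro y
      funext τ
      rw [SphereAux.bd_apply, bdK_apply]
      exact sum_congr rfl fun v _ => by rw [sgn_eq_sg]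
    have h1 : zd ℝ ν G ρ j = 1 := by
      rw [← top ν hν ρ hρ j hj]
      exact zd_eq ℝ K ν hν G ρ j
        (fun i hi => exL_real ν hν G ρ i (low ν hν ρ hρ i (by omega)))
        (fun i hi => low ν hν ρ hρ i (by omega))
    obtain ⟨o, ho, ho'⟩ := finrank_eq_one_iff'.1 h1
    refine ⟨o.1, o.2.1, by rw [hb]; exact LinearMap.mem_ker.1 o.2.2,
      fun h2 => ho (Subtype.ext h2), fun z hz hbd => ?_⟩
    obtain ⟨r, hr⟩ := ho' ⟨z, hz, LinearMap.mem_ker.2 (by rw [← hb]; exact hbd)⟩
    exact ⟨r, (congrArg Subtype.val hr).symm⟩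

end Pool.Agent.H4.HY
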