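import Pool.Agent.H4.HY.OrdSum

/-!
# Project HB: links of chains in ranked sets of labels
-/

set_option autoImplicit false
set_option linter.unusedSectionVars false

open Finset

namespace Pool.Agent.H4.HY

open Pool.Agent.H4.Singer2 Pool.Agent.H19.Hyp

section transport

variable {B B' : Type} [PartialOrder B] [Fintype B] [PartialOrder B'] [Fintype B'] {rk : B → ℕ}

/-- spherical posets and order isomorphisms -/
theorem spherical_iso (e : B' ≃o B) (h : IsSpherical rk) (rk' : B' → ℕ)
    (hrk : ∀ x, rk' x = rk (e x)) : IsSpherical rk' where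
  covBy x y hxy := by
    rw [hrk, hrk]
    exact h.covBy _ _ ((apply_covBy_apply_iff e).2 hxy)
  exact a b hab := by
    have hE := h.exact (e a) (e b) (e.lt_iff_lt.2 hab)
    have key : ∀ (z : B' → ZMod 2) (Z : B → ZMod 2), (∀ x, Z (e x) = z x) → ∀ x,
        bdI b z x = bdI (e b) Z (e x) := by
      classical
      intro z Z hZ x
      unfold bdI
      refine sum_bij (fun y _ => e y) ?_ ?_ ?_ ?_
      · intro y hy
        rw [mem_filter] at hy ⊢
        exact ⟨mem_univ _, (apply_covBy_apply_iff e).2 hy.2.1, e.le_iff_le.2 hy.2.2⟩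
      · intro y _ y' _ h
        exact e.injective h
      · intro y hy
        rw [mem_filter] at hy
        refine ⟨e.symm y, ?_, e.apply_symm_apply y⟩
        rw [mem_filter]
        refine ⟨mem_univ _, ?_, ?_⟩
        · rw [← apply_covBy_apply_iff e, e.apply_symm_apply]
          exact hy.2.1
        · rw [← e.le_iff_le, e.apply_symm_apply]
          exact hy.2.2
      · intro y _
        exact (hZ y).symm
    intro z
    have hz' : ∀ x, z (e.symm (e x)) = z x := fun x => by rw [e.symm_apply_apply]
    constructor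
    · intro hz
      obtain ⟨Y, hY⟩ := (hE fun x => z (e.symm x)).1 (fun x hx hxb => by
        have h1 := key z (fun x => z (e.symm x)) hz' (e.symm x)
        rw [e.apply_symm_apply] at h1
        rw [← h1]
        exact hz _ (by rw [← e.le_iff_le, e.apply_symm_apply]; exact hx)
          (by rw [← e.le_iff_le, e.apply_symm_apply]; exact hxb))
      refine ⟨fun x => Y (e x), fun x hx hxb => ?_⟩
      rw [key (fun x => Y (e x)) Y (fun _ => rfl) x, hY _ (e.le_iff_le.2 hx) (e.le_iff_le.2 hxb),
        hz']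
    · rintro ⟨y, hy⟩ x hx hxb
      rw [key z (fun x => z (e.symm x)) hz' x]
      refine (hE fun x => z (e.symm x)).2 ⟨fun x => y (e.symm x), fun u hu hub => ?_⟩ (e x)
        (e.le_iff_le.2 hx) (e.le_iff_le.2 hxb)
      have h1 := key y (fun x => y (e.symm x)) (fun x => by rw [e.symm_apply_apply]) (e.symm u)
      rw [e.apply_symm_apply] at h1
      rw [← h1]
      exact hy _ (by rw [← e.le_iff_le, e.apply_symm_apply]; exact hu)
        (by rw [← e.le_iff_le, e.apply_symm_apply]; exact hub)

open Classical in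
/-- the elements comparable with `t`, given by an embedding -/
theorem spherical_emb (h : IsSpherical rk) (t : B) (f : B' → B)
    (hf : ∀ x y, f x ≤ f y ↔ x ≤ y) (hr : ∀ x, (x < t ∨ t < x) ↔ ∃ x', f x' = x)
    (rk' : B' → ℕ) (hrk : ∀ x, rk' x = if t < f x then rk (f x) - 1 else rk (f x)) :
    IsSpherical rk' := by
  have hinj : Function.Injective f := fun x y hxy =>
    le_antisymm ((hf x y).1 hxy.le) ((hf y x).1 hxy.ge)
  let g : B' → Cmp t := fun x => ⟨f x, (hr (f x)).2 ⟨x, rfl⟩⟩
  have hg : Function.Bijective g := by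
    constructor
    · intro x y hxy
      exact hinj (congrArg Subtype.val hxy)
    · rintro ⟨x, hx⟩
      obtain ⟨x', hx'⟩ := (hr x).1 hx
      exact ⟨x', Subtype.ext hx'⟩
  let e : B' ≃o Cmp t :=
    { toEquiv := Equiv.ofBijective g hg
      map_rel_iff' := fun {x y} => hf x y }
  exact spherical_iso e (spherical_cmp h t) rk' fun x => hrk x

end transport

section labels

variable {L : Type} [PartialOrder L] [Fintype L] [DecidableEq L]

open Classical in
/-- the labels in `S` comparable with all elements of `τ` -/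
noncomputable def lkS (S τ : Finset L) : Finset L := S.filter fun u => ∀ t ∈ τ, u < t ∨ t < u

open Classical in
/-- the rank function on the link of `τ` -/
noncomputable def rkL (rk : L → ℕ) (τ : Finset L) (u : L) : ℕ :=
  rk u - (τ.filter fun t => t < u).card

theorem mem_lkS {S τ : Finset L} {u : L} : u ∈ lkS S τ ↔ u ∈ S ∧ ∀ t ∈ τ, u < t ∨ t < u := by
  classical
  unfold lkS
  rw [mem_filter]

theorem lkS_insert (S τ : Finset L) (t : L) : lkS S (insert t τ) = lkS (lkS S τ) {t} := by
  ext u
  rw [mem_lkS, mem_lkS, mem_lkS]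
  constructor
  · rintro ⟨h1, h2⟩
    exact ⟨⟨h1, fun s hs => h2 s (mem_insert_of_mem hs)⟩, fun s hs => by
      rw [mem_singleton] at hs
      rw [hs]
      exact h2 t (mem_insert_self _ _)⟩
  · rintro ⟨⟨h1, h2⟩, h3⟩
    refine ⟨h1, fun s hs => ?_⟩
    rcases mem_insert.1 hs with h4 | h4
    · rw [h4]
      exact h3 t (mem_singleton_self t)
    · exact h2 s h4

open Classical in
theorem rkL_single (rk : L → ℕ) (t u : L) : rkL rk {t} u = if t < u then rk u - 1 else rk u := by
  unfold rkL
  rw [filter_singleton]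
  split_ifs <;> simp

theorem rkL_insert (rk : L → ℕ) {τ : Finset L} {t : L} (ht : t ∉ τ) :
    rkL rk (insert t τ) = rkL (rkL rk τ) {t} := by
  classical
  funext u
  rw [rkL_single]
  unfold rkL
  rw [filter_insert]
  split_ifs with h
  · rw [card_insert_of_notMem (fun h' => ht (mem_filter.1 h').1)]
    omega
  · rfl

/-- the inclusion of the link -/
private def inc {S : Finset L} {t : L} (u : {w // w ∈ lkS S {t}}) : {w // w ∈ S} :=
  ⟨u.1, (mem_lkS.1 u.2).1⟩

theorem sphericalB_link {rk : L → ℕ} {S : Finset L} {t : L} (ht : t ∈ S)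
    (h : IsSpherical (rkB rk S)) : IsSpherical (rkB (rkL rk {t}) (lkS S {t})) := by
  classical
  have hlt : ∀ u v : {w // w ∈ S}, ((u : WithBot {w // w ∈ S}) < (v : WithBot {w // w ∈ S})) ↔
      u.1 < v.1 := fun u v => WithBot.coe_lt_coe
  refine spherical_emb h ((⟨t, ht⟩ : {w // w ∈ S}) : WithBot {w // w ∈ S})
    (WithBot.map (inc (S := S) (t := t))) (fun x y => WithBot.map_le_iff _ (fun {a b} => Iff.rfl))
    (fun x => ?_) _ (fun x => ?_)
  · constructor
    · intro hx
      induction x using WithBot.recBotCoe with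
      | bot => exact ⟨⊥, rfl⟩
      | coe x =>
        rw [hlt, hlt] at hx
        refine ⟨((⟨x.1, mem_lkS.2 ⟨x.2, fun s hs => ?_⟩⟩ : {w // w ∈ lkS S {t}}) :
          WithBot {w // w ∈ lkS S {t}}), rfl⟩
        rw [mem_singleton] at hs
        rw [hs]
        exact hx
    · rintro ⟨x', rfl⟩
      induction x' using WithBot.recBotCoe with
      | bot => exact Or.inl (WithBot.bot_lt_coe _)
      | coe x =>
        rw [WithBot.map_coe, hlt, hlt]
        exact (mem_lkS.1 x.2).2 t (mem_singleton_self t)
  · induction x using WithBot.recBotCoe with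
    | bot =>
      rw [WithBot.map_bot, if_neg not_lt_bot]
      rfl
    | coe x =>
      rw [WithBot.map_coe]
      show rkL rk {t} x.1 = _
      rw [rkL_single]
      by_cases h1 : t < x.1
      · rw [if_pos h1, if_pos ((hlt _ _).2 h1)]
        rfl
      · rw [if_neg h1, if_neg (fun h2 => h1 ((hlt _ _).1 h2))]
        rfl

theorem sphericalT_link {rk : L → ℕ} {S : Finset L} {t : L} (ht : t ∈ S) {n : ℕ} (hn : 1 ≤ n)
    (h : IsSpherical (rkT rk n S)) : IsSpherical (rkT (rkL rk {t}) (n - 1) (lkS S {t})) := by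
  classical
  have hlt : ∀ u v : {w // w ∈ S}, (((u : WithBot {w // w ∈ S}) : WithTop (WithBot {w // w ∈ S})) <
      ((v : WithBot {w // w ∈ S}) : WithTop (WithBot {w // w ∈ S}))) ↔ u.1 < v.1 := fun u v => by
    rw [WithTop.coe_lt_coe, WithBot.coe_lt_coe]
    exact Iff.rfl
  refine spherical_emb h
    (((⟨t, ht⟩ : {w // w ∈ S}) : WithBot {w // w ∈ S}) : WithTop (WithBot {w // w ∈ S}))
    (WithTop.map (WithBot.map (inc (S := S) (t := t))))
    (fun x y => WithTop.map_le_iff _ (fun {a b} => WithBot.map_le_iff _ (fun {a b} => Iff.rfl)))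
    (fun x => ?_) _ (fun x => ?_)
  · constructor
    · intro hx
      induction x using WithTop.recTopCoe with
      | top => exact ⟨⊤, rfl⟩
      | coe x =>
        induction x using WithBot.recBotCoe with
        | bot =>
          refine ⟨((⊥ : WithBot {w // w ∈ lkS S {t}}) : WithTop (WithBot {w // w ∈ lkS S {t}})), ?_⟩
          rw [WithTop.map_coe, WithBot.map_bot]
        | coe x =>
          rw [hlt, hlt] at hx
          refine ⟨(((⟨x.1, mem_lkS.2 ⟨x.2, fun s hs => ?_⟩⟩ : {w // w ∈ lkS S {t}}) :
            WithBot {w // w ∈ lkS S {t}}) : WithTop (WithBot {w // w ∈ lkS S {t}})), rfl⟩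
          rw [mem_singleton] at hs
          rw [hs]
          exact hx
    · rintro ⟨x', rfl⟩
      induction x' using WithTop.recTopCoe with
      | top => exact Or.inr (WithTop.coe_lt_top _)
      | coe x =>
        induction x using WithBot.recBotCoe with
        | bot => exact Or.inl (WithTop.coe_lt_coe.2 (WithBot.bot_lt_coe _))
        | coe x =>
          rw [WithTop.map_coe, WithBot.map_coe, hlt, hlt]
          exact (mem_lkS.1 x.2).2 t (mem_singleton_self t)
  · induction x using WithTop.recTopCoe with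
    | top =>
      rw [WithTop.map_top, if_pos (WithTop.coe_lt_top _)]
      show n - 1 + 1 = n + 1 - 1
      omega
    | coe x =>
      induction x using WithBot.recBotCoe with
      | bot =>
        rw [WithTop.map_coe, WithBot.map_bot, if_neg (fun h1 => not_lt_bot (WithTop.coe_lt_coe.1 h1))]
        rfl
      | coe x =>
        rw [WithTop.map_coe, WithBot.map_coe]
        show rkL rk {t} x.1 = _
        rw [rkL_single]
        by_cases h1 : t < x.1
        · rw [if_pos h1, if_pos ((hlt _ _).2 h1)]
          rfl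
        · rw [if_neg h1, if_neg (fun h2 => h1 ((hlt _ _).1 h2))]
          rfl

theorem rkB_pos {rk : L → ℕ} {S : Finset L} (h : IsSpherical (rkB rk S)) {t : L} (ht : t ∈ S) :
    1 ≤ rk t := by
  have h1 := h.lt (WithBot.bot_lt_coe (⟨t, ht⟩ : {w // w ∈ S}))
  exact h1

theorem rkB_lt {rk : L → ℕ} {S : Finset L} (h : IsSpherical (rkB rk S)) {t u : L} (ht : t ∈ S)
    (hu : u ∈ S) (htu : t < u) : rk t < rk u := by
  have h1 := h.lt (WithBot.coe_lt_coe.2 (show (⟨t, ht⟩ : {w // w ∈ S}) < ⟨u, hu⟩ from htu))
  exact h1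

/-- **Links of chains.** -/
theorem ranked_link {rk : L → ℕ} {n : ℕ} {S : Finset L} (hn : ∀ v ∈ S, rk v ≤ n)
    (h : IsSpherical (rkB rk S)) (τ : Finset L) (hτS : τ ⊆ S)
    (hτ : ∀ u ∈ τ, ∀ v ∈ τ, u ≠ v → u < v ∨ v < u) :
    τ.card ≤ n ∧ (∀ v ∈ lkS S τ, rkL rk τ v ≤ n - τ.card) ∧
      IsSpherical (rkB (rkL rk τ) (lkS S τ)) ∧
      (IsSpherical (rkT rk n S) → IsSpherical (rkT (rkL rk τ) (n - τ.card) (lkS S τ))) := by
  classical
  induction τ using Finset.induction_on with
  | empty =>
    have e1 : lkS S ∅ = S := by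
      ext u
      rw [mem_lkS]
      exact ⟨fun h => h.1, fun h => ⟨h, fun t ht => absurd ht (notMem_empty t)⟩⟩
    have e2 : rkL rk ∅ = rk := by
      funext u
      unfold rkL
      rw [filter_empty, card_empty, Nat.sub_zero]
    rw [e1, e2, card_empty, Nat.sub_zero]
    exact ⟨Nat.zero_le _, hn, h, fun h => h⟩
  | insert t τ ht ih =>
    obtain ⟨h1, h2, h3, h4⟩ := ih (fun u hu => hτS (mem_insert_of_mem hu))
      (fun u hu v hv => hτ u (mem_insert_of_mem hu) v (mem_insert_of_mem hv))
    have htl : t ∈ lkS S τ := mem_lkS.2 ⟨hτS (mem_insert_self _ _), fun s hs =>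
      hτ t (mem_insert_self _ _) s (mem_insert_of_mem hs) (fun h => ht (h ▸ hs))⟩
    have h5 := rkB_pos h3 htl
    have h6 := h2 t htl
    rw [lkS_insert, rkL_insert rk ht, card_insert_of_notMem ht]
    have e : n - (τ.card + 1) = n - τ.card - 1 := by omega
    rw [e]
    refine ⟨by omega, fun v hv => ?_, sphericalB_link htl h3,
      fun hT => sphericalT_link htl (by omega) (h4 hT)⟩
    rw [mem_lkS] at hv
    rw [rkL_single]
    split_ifs with h7
    · have := h2 v hv.1
      omega
    · have h8 := (hv.2 t (mem_singleton_self t)).resolve_right h7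
      have := rkB_lt h3 hv.1 htl h8
      omega

/-- The link of a chain with an even number of elements in a ranked set is ranked. -/
theorem isRanked_link {rk : L → ℕ} {n : ℕ} {S : Finset L} (h : IsRanked rk n S)
    (τ : Finset L) (hτS : τ ⊆ S) (hτ : ∀ u ∈ τ, ∀ v ∈ τ, u ≠ v → u < v ∨ v < u)
    (hev : Even τ.card) : IsRanked (rkL rk τ) (n - τ.card) (lkS S τ) := by
  obtain ⟨h1, h2, h3, h4⟩ := ranked_link h.1 h.2.1 τ hτS hτ
  refine ⟨h2, h3, fun hodd => h4 (h.2.2 ?_)⟩
  have e : n = (n - τ.card) + τ.card := by omega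
  rw [e]
  exact hodd.add_even hev

end labels

end Pool.Agent.H4.HY
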