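import Pool.Agent.H4.HY.ColForm

/-!
# Project HB: duality for the complexes with coefficients in the kernels
-/

set_option autoImplicit false
set_option linter.unusedSectionVars false

open Finset

namespace Pool.Agent.H4.HY

open Pool.Agent.H4 Pool.Agent.H4.Singer Pool.Agent.H85.Fold Pool.Agent.H85.Fold2 Pool.Agent.H19.Cub

open scoped Matrix Kronecker

section sub

variable {V : Type} [DecidableEq V] [Fintype V] {S : Type} [AddCommGroup S] [Module ℝ S]
  {U : Finset V}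

/-- the embedding of the subtype -/
private def emb0 (U : Finset V) : {v // v ∈ U} ↪ V := ⟨Subtype.val, Subtype.val_injective⟩

private theorem mem_emb0 {τ : Finset {v // v ∈ U}} {v : V} :
    v ∈ τ.map (emb0 U) ↔ ∃ h : v ∈ U, (⟨v, h⟩ : {v // v ∈ U}) ∈ τ := by
  rw [mem_map]
  constructor
  · rintro ⟨w, hw, rfl⟩
    exact ⟨w.2, hw⟩
  · rintro ⟨h, hτ⟩
    exact ⟨⟨v, h⟩, hτ, rfl⟩

private theorem emb0_subset (τ : Finset {v // v ∈ U}) : τ.map (emb0 U) ⊆ U := by
  intro v hv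
  obtain ⟨h, -⟩ := mem_emb0.1 hv
  exact h

/-- the preimage -/
private def pr0 (U : Finset V) (σ : Finset V) : Finset {v // v ∈ U} := univ.filter fun w => w.1 ∈ σ

private theorem mem_pr0 {σ : Finset V} {w : {v // v ∈ U}} : w ∈ pr0 U σ ↔ w.1 ∈ σ := by
  unfold pr0
  rw [mem_filter]
  exact ⟨fun h => h.2, fun h => ⟨mem_univ _, h⟩⟩

private theorem map_pr0 {σ : Finset V} (hσ : σ ⊆ U) : (pr0 U σ).map (emb0 U) = σ := by
  ext v
  rw [mem_emb0]
  constructor
  · rintro ⟨h, h1⟩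
    exact mem_pr0.1 h1
  · intro hv
    exact ⟨hσ hv, mem_pr0.2 hv⟩

private theorem pr0_map (τ : Finset {v // v ∈ U}) : pr0 U (τ.map (emb0 U)) = τ := by
  ext w
  rw [mem_pr0, mem_emb0]
  constructor
  · rintro ⟨h, h1⟩
    exact h1
  · intro h
    exact ⟨w.2, h⟩

private theorem sgn_emb0 (ν : V → ℕ) (w : {v // v ∈ U}) (τ : Finset {v // v ∈ U}) :
    sgn ν w.1 (τ.map (emb0 U)) = sgn (fun v : {v // v ∈ U} => ν v.1) w τ := by
  unfold sgn
  rw [filter_map, card_map]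
  rfl

private theorem bd_emb0 (ν : V → ℕ) (c : Finset V → S) (hc : ∀ σ, c σ ≠ 0 → σ ⊆ U)
    (τ : Finset {v // v ∈ U}) :
    bd ν c (τ.map (emb0 U)) =
      bd (fun v : {v // v ∈ U} => ν v.1) (fun τ => c (τ.map (emb0 U))) τ := by
  change ∑ v ∈ (τ.map (emb0 U))ᶜ, sgn ν v (τ.map (emb0 U)) • c (insert v (τ.map (emb0 U))) =
    ∑ w ∈ τᶜ, sgn (fun v : {v // v ∈ U} => ν v.1) w τ • c ((insert w τ).map (emb0 U))
  have h1 : τᶜ.map (emb0 U) ⊆ (τ.map (emb0 U))ᶜ := by
    intro v hv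
    obtain ⟨h, h2⟩ := mem_emb0.1 hv
    rw [mem_compl] at h2 ⊢
    intro h3
    obtain ⟨h4, h5⟩ := mem_emb0.1 h3
    exact h2 h5
  rw [← Finset.sum_subset h1, Finset.sum_map]
  · refine Finset.sum_congr rfl fun w _ => ?_
    rw [map_insert]
    exact congrArg₂ _ (sgn_emb0 ν w τ) rfl
  · intro v hv hv'
    by_contra hne
    have h2 : c (insert v (τ.map (emb0 U))) ≠ 0 := by
      intro h0
      exact hne (by rw [h0, smul_zero])
    have h3 : v ∈ U := hc _ h2 (mem_insert_self _ _)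
    apply hv'
    rw [mem_emb0]
    refine ⟨h3, ?_⟩
    rw [mem_compl]
    intro h4
    exact (mem_compl.1 hv) (mem_emb0.2 ⟨h3, h4⟩)

/-- exactness passes to the subtype -/
theorem hv_to_sub (ν : V → ℕ) (G : SimpleGraph V) (e : V → S →ₗ[ℝ] S) (U : Finset V) (i : ℕ)
    (h : HV ν G e ⊤ U i) :
    HV (fun v : {v // v ∈ U} => ν v.1) (G.comap (Subtype.val : {v // v ∈ U} → V))
      (fun v => e v.1) ⊤ univ i := by
  classical
  intro c hc hbd
  obtain ⟨c', hc'⟩ : ∃ c' : Finset V → S, c' = fun σ => if σ ⊆ U then c (pr0 U σ) else 0 :=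
    ⟨_, rfl⟩
  have hc1 : ∀ σ, σ ⊆ U → c' σ = c (pr0 U σ) := fun σ hσ => by rw [hc']; exact if_pos hσ
  have hc2 : ∀ σ, ¬ σ ⊆ U → c' σ = 0 := fun σ hσ => by rw [hc']; exact if_neg hσ
  have hcU : ∀ σ, c' σ ≠ 0 → σ ⊆ U := by
    intro σ hσ
    by_contra h1
    exact hσ (hc2 σ h1)
  have hcm : ∀ τ : Finset {v // v ∈ U}, c' (τ.map (emb0 U)) = c τ := by
    intro τ
    rw [hc1 _ (emb0_subset τ), pr0_map]
  obtain ⟨y, hy, hyb⟩ := h c'
    (by
      refine ⟨fun _ => Submodule.mem_top, fun σ v hv => ?_, fun σ hσ => ?_⟩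
      · by_cases h1 : σ ⊆ U
        · rw [hc1 σ h1]
          exact hc.ker (pr0 U σ) ⟨v, h1 hv⟩ (mem_pr0.2 hv)
        · rw [hc2 σ h1, map_zero]
      · have h1 := hcU σ hσ
        rw [hc1 σ h1] at hσ
        obtain ⟨h2, h3, h4⟩ := hc.supp _ hσ
        refine ⟨h1, fun u hu v hv huv => ?_, ?_⟩
        · exact h3 ⟨u, h1 hu⟩ (mem_pr0.2 hu) ⟨v, h1 hv⟩ (mem_pr0.2 hv)
            (fun h5 => huv (congrArg Subtype.val h5))
        · rw [← h4, ← card_map (emb0 U), map_pr0 h1])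
    (by
      funext σ
      by_cases h1 : σ ⊆ U
      · have h2 := bd_emb0 ν c' hcU (pr0 U σ)
        rw [map_pr0 h1] at h2
        have h3 : (fun τ : Finset {v // v ∈ U} => c' (τ.map (emb0 U))) = c := by
          funext τ
          exact hcm τ
        rw [h2, h3, hbd]
        rfl
      · change ∑ v ∈ σᶜ, sgn ν v σ • c' (insert v σ) = 0
        refine Finset.sum_eq_zero fun v _ => ?_
        rw [hc2 _ (fun h3 => h1 ((subset_insert v σ).trans h3)), smul_zero])
  have hyU : ∀ σ, y σ ≠ 0 → σ ⊆ U := fun σ hσ => (hy.supp σ hσ).1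
  refine ⟨fun τ => y (τ.map (emb0 U)), ⟨fun _ => Submodule.mem_top, fun τ w hw => ?_,
    fun τ hτ => ?_⟩, ?_⟩
  · exact hy.ker _ w.1 (mem_emb0.2 ⟨w.2, hw⟩)
  · obtain ⟨h1, h2, h3⟩ := hy.supp _ hτ
    rw [card_map] at h3
    exact ⟨subset_univ _, fun w hw w' hw' hww => h2 w.1 (mem_emb0.2 ⟨w.2, hw⟩) w'.1
      (mem_emb0.2 ⟨w'.2, hw'⟩) (fun h4 => hww (Subtype.ext h4)), h3⟩
  · funext τ
    rw [← bd_emb0 ν y hyU τ, hyb, hcm]

end sub

variable {V C D : Type} [DecidableEq V] [Fintype V] [DecidableEq C] [Fintype C] [Fintype D]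
  [DecidableEq D] {w a : C ⊕ V ⊕ V → Matrix D D ℤ}

/-- **Local duality.** -/
theorem hv_dual_col (hw : IsFermi w a) (ν : V → ℕ) (hν : Function.Injective ν)
    (Γ : ColGraph V C) (G : SimpleGraph V) (hG : ∀ u v, G.Adj u v → Γ.col u ≠ Γ.col v)
    (t : V → ℤ) (U : Finset V) {n i j : ℕ} (hij : i + j = n)
    (hS : IsHomologySphere (G.comap (Subtype.val : {v // v ∈ U} → V)) n)
    (h : HV ν G (fun v => opM (eK Γ w a t v)) ⊤ U j) :
    HV ν G (fun v => opM (eK Γ w a t v)) ⊤ U i := by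
  classical
  have hν' : Function.Injective (fun v : {v // v ∈ U} => ν v.1) :=
    hν.comp Subtype.val_injective
  obtain ⟨o, ho⟩ := hS.isSphere _ hν'
  have hp := isPert_K hw Γ G hG t
  have hsys : SysD (fun v : {v // v ∈ U} => ν v.1) (G.comap (Subtype.val : {v // v ∈ U} → V))
      (fun v => opM (eK Γ w a t v.1)) n univ ⊤ btK (-1) o := by
    refine ⟨hν', fun v _ x _ => Submodule.mem_top, fun u _ v _ huv x _ => ?_,
      fun v _ x _ y _ => btK_eK hw Γ t v.1 x y, fun y _ hy => btK_nondeg y fun x =>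
        hy x Submodule.mem_top, ho, fun σ v hv _ hcl x _ hx => ?_⟩
    · rcases huv with rfl | huv
      · rw [hp.e_sq, neg_zero]
      · exact hp.ee u.1 v.1 huv x
    · obtain ⟨m, hm1, hm2⟩ := hp.lift (σ.map (emb0 U)) v.1
        (fun h1 => by
          obtain ⟨h2, h3⟩ := mem_emb0.1 h1
          exact hv h3)
        (by
          intro u hu u' hu' huu
          have key : ∀ z ∈ insert v.1 (σ.map (emb0 U)), ∃ h : z ∈ U,
              (⟨z, h⟩ : {v // v ∈ U}) ∈ insert v σ := by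
            intro z hz
            rcases mem_insert.1 hz with rfl | hz
            · exact ⟨v.2, mem_insert_self _ _⟩
            · obtain ⟨h2, h3⟩ := mem_emb0.1 hz
              exact ⟨h2, mem_insert_of_mem h3⟩
          obtain ⟨h1, h2⟩ := key u hu
          obtain ⟨h3, h4⟩ := key u' hu'
          exact hcl ⟨u, h1⟩ h2 ⟨u', h3⟩ h4 (fun h5 => huu (congrArg Subtype.val h5)))
        x (by
          intro u hu
          rcases mem_insert.1 hu with rfl | hu
          · exact hx v (mem_insert_self _ _)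
          · obtain ⟨h2, h3⟩ := mem_emb0.1 hu
            exact hx ⟨u, h2⟩ (mem_insert_of_mem h3))
      exact ⟨m, Submodule.mem_top, fun u hu => hm1 u.1 (mem_emb0.2 ⟨u.2, hu⟩), hm2⟩
  have h1 := hv_dual hsys hij (hv_to_sub ν G _ U j h)
  refine hv_sub ν G _ U U (Finset.Subset.refl _) i ?_
  have h2 : (univ.filter fun v : {v // v ∈ U} => v.1 ∈ U) = univ := by
    ext v
    simp
  rw [h2]
  exact h1

end Pool.Agent.H4.HY
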