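import Pool.Agent.H4.HY.LinkS
import Pool.Agent.H19.Hyp.PosVan

/-!
# Project HB: `Van` for the links of chains in ranked sets, arbitrary colourings by the rank
-/

set_option autoImplicit false
set_option linter.unusedSectionVars false

open Finset

namespace Pool.Agent.H4.HY

open Pool.Agent.H4.Singer Pool.Agent.H4.Singer2 Pool.Agent.H19.Hyp

variable {L C : Type} [PartialOrder L] [Fintype L] [DecidableEq L] [DecidableEq C]

/-- the coloured comparability graph of a subset -/
def subCol (G : ColGraph L C) (U : Finset L)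
    (hG : ∀ u ∈ U, ∀ v ∈ U, G.adj u v ↔ u < v ∨ v < u) : ColGraph {v // v ∈ U} C where
  adj a b := a < b ∨ b < a
  symm _ _ h := h.symm
  col a := G.col a.1
  ne a b hab := G.ne _ _ ((hG a.1 a.2 b.1 b.2).2 hab)

/-- `Van` for a subset of a ranked set, any colouring that depends only on the rank -/
theorem posVanC (G : ColGraph L C) (rk : L → ℕ) (n : ℕ) (S U : Finset L) (hS : IsRanked rk n S)
    (hU : U ⊆ S) (hG : ∀ u ∈ U, ∀ v ∈ U, G.adj u v ↔ u < v ∨ v < u)
    (hc : ∀ u ∈ U, ∀ v ∈ U, rk u = rk v → G.col u = G.col v) (i : ℕ) (hi : n < 2 * i) :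
    ∃ (K : Type) (_ : Field K) (_ : CharP K 2) (t : L → K), Van G t U i := by
  classical
  obtain ⟨hn, hB, hT⟩ := hS
  rcases Nat.even_or_odd n with hev | hodd
  · let ι : {v // v ∈ U} → WithBot {w // w ∈ S} := fun v =>
      ((⟨v.1, hU v.2⟩ : {w // w ∈ S}) : WithBot {w // w ∈ S})
    have hι : LowEmb (⊥ : WithBot {w // w ∈ S}) ι := by
      refine ⟨fun x => bot_le, fun u v => ?_, fun u v huv => ?_, fun v => ?_⟩
      · exact WithBot.coe_lt_coe
      · have h2 : (((⟨u.1, hU u.2⟩ : {w // w ∈ S}) : WithBot {w // w ∈ S})) =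
            ((⟨v.1, hU v.2⟩ : {w // w ∈ S}) : WithBot {w // w ∈ S}) := huv
        have h3 := WithBot.coe_injective h2
        exact Subtype.ext (Subtype.mk.inj h3)
      · exact WithBot.bot_lt_coe _
    have hdim : ∀ v, rkB rk S (ι v) ≤ n := fun v => hn v.1 (hU v.2)
    have h0 : rkB rk S ⊥ = 0 := rfl
    have hP : PosGraph (subCol G U hG) (fun v => rkB rk S (ι v)) :=
      { adj_iff := fun _ _ => Iff.rfl
        lt := fun u v huv => hB.lt ((hι.lt_iff u v).2 huv)
        pos := fun v => Nat.one_le_iff_ne_zero.2 fun h0 => by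
          have := hB.lt (hι.ne v)
          omega
        col := fun u v huv => hc u.1 u.2 v.1 v.2 huv }
    have hGB : GoodB (subCol G U hG) (fun v => rkB rk S (ι v)) (fun v => xv (ι v)) :=
      goodB_of hB n h0 hι hdim
    have key := van_univ_even _ _ hP _ hGB n hev hdim i hi
    let t : L → RF (WithBot {w // w ∈ S}) := fun v =>
      if h : v ∈ S then xv (((⟨v, h⟩ : {w // w ∈ S}) : WithBot {w // w ∈ S})) else 0
    refine ⟨RF (WithBot {w // w ∈ S}), inferInstance, inferInstance, t, ?_⟩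
    refine van_sub _ (subCol G U hG) (Function.Embedding.subtype (· ∈ U)) (fun u v => ?_)
      (fun v => rfl) t U (fun v => ⟨fun h => ⟨⟨v, h⟩, rfl⟩, ?_⟩) i ?_
    · exact (hG u.1 u.2 v.1 v.2).symm
    · rintro ⟨w, rfl⟩
      exact w.2
    · have ht : (fun v : {v // v ∈ U} => t ((Function.Embedding.subtype (· ∈ U)) v)) =
          fun v => xv (ι v) := by
        funext v
        exact dif_pos (hU v.2)
      rw [ht]
      exact key
  · have hT' := hT hodd
    obtain ⟨m, rfl⟩ := hodd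
    let ι : {v // v ∈ U} → WithTop (WithBot {w // w ∈ S}) := fun v =>
      (((⟨v.1, hU v.2⟩ : {w // w ∈ S}) : WithBot {w // w ∈ S}) : WithTop (WithBot {w // w ∈ S}))
    have hι : LowEmb (⊥ : WithTop (WithBot {w // w ∈ S})) ι := by
      refine ⟨fun x => bot_le, fun u v => ?_, fun u v huv => ?_, fun v => ?_⟩
      · exact WithTop.coe_lt_coe.trans WithBot.coe_lt_coe
      · have h2 : ((((⟨u.1, hU u.2⟩ : {w // w ∈ S}) : WithBot {w // w ∈ S})) :
            WithTop (WithBot {w // w ∈ S})) =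
            (((⟨v.1, hU v.2⟩ : {w // w ∈ S}) : WithBot {w // w ∈ S}) :
              WithTop (WithBot {w // w ∈ S})) := huv
        have h3 := WithBot.coe_injective (WithTop.coe_injective h2)
        exact Subtype.ext (Subtype.mk.inj h3)
      · exact WithTop.coe_lt_coe.2 (WithBot.bot_lt_coe _)
    have hlt : ∀ v, ι v < ⊤ := fun v => WithTop.coe_lt_top _
    have hdim : ∀ v, rkT rk (2 * m + 1) S (ι v) ≤ 2 * m + 1 := fun v => hn v.1 (hU v.2)
    have h0 : rkT rk (2 * m + 1) S ⊥ = 0 := rfl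
    have h1 : rkT rk (2 * m + 1) S ⊤ = 2 * m + 2 := rfl
    have hP : PosGraph (subCol G U hG) (fun v => rkT rk (2 * m + 1) S (ι v)) :=
      { adj_iff := fun _ _ => Iff.rfl
        lt := fun u v huv => hT'.lt ((hι.lt_iff u v).2 huv)
        pos := fun v => Nat.one_le_iff_ne_zero.2 fun h0 => by
          have := hT'.lt (hι.ne v)
          omega
        col := fun u v huv => hc u.1 u.2 v.1 v.2 huv }
    have hGB : GoodB (subCol G U hG) (fun v => rkT rk (2 * m + 1) S (ι v))
        (fun v => xv (ι v)) := goodB_of hT' (2 * m + 1) h0 hι hdim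
    have hGU : GoodU (subCol G U hG) (fun v => rkT rk (2 * m + 1) S (ι v))
        (fun v => xv (ι v)) m := goodU_of hT' m h0 h1 hι hlt hdim
    have key := van_univ_odd _ _ hP _ hGB m hGU hdim i hi
    let t : L → RF (WithTop (WithBot {w // w ∈ S})) := fun v =>
      if h : v ∈ S then
        xv ((((⟨v, h⟩ : {w // w ∈ S}) : WithBot {w // w ∈ S}) : WithTop (WithBot {w // w ∈ S})))
      else 0
    refine ⟨RF (WithTop (WithBot {w // w ∈ S})), inferInstance, inferInstance, t, ?_⟩
    refine van_sub _ (subCol G U hG) (Function.Embedding.subtype (· ∈ U)) (fun u v => ?_)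
      (fun v => rfl) t U (fun v => ⟨fun h => ⟨⟨v, h⟩, rfl⟩, ?_⟩) i ?_
    · exact (hG u.1 u.2 v.1 v.2).symm
    · rintro ⟨w, rfl⟩
      exact w.2
    · have ht : (fun v : {v // v ∈ U} => t ((Function.Embedding.subtype (· ∈ U)) v)) =
          fun v => xv (ι v) := by
        funext v
        exact dif_pos (hU v.2)
      rw [ht]
      exact key

/-- on the link of `τ` the new rank determines the old rank -/
theorem rkL_inj {rk : L → ℕ} {n : ℕ} {S : Finset L} (hn : ∀ v ∈ S, rk v ≤ n)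
    (h : IsSpherical (rkB rk S)) (τ : Finset L) (hτS : τ ⊆ S)
    (hτ : ∀ u ∈ τ, ∀ v ∈ τ, u ≠ v → u < v ∨ v < u) :
    ∀ u ∈ lkS S τ, ∀ v ∈ lkS S τ, rkL rk τ u = rkL rk τ v → rk u = rk v := by
  classical
  induction τ using Finset.induction_on with
  | empty =>
    intro u _ v _ huv
    unfold rkL at huv
    simpa using huv
  | insert t τ ht ih =>
    have hτS' : τ ⊆ S := fun u hu => hτS (mem_insert_of_mem hu)
    have hτ' : ∀ u ∈ τ, ∀ v ∈ τ, u ≠ v → u < v ∨ v < u := fun u hu v hv =>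
      hτ u (mem_insert_of_mem hu) v (mem_insert_of_mem hv)
    obtain ⟨-, -, h3, -⟩ := ranked_link hn h τ hτS' hτ'
    have htl : t ∈ lkS S τ := mem_lkS.2 ⟨hτS (mem_insert_self _ _), fun s hs =>
      hτ t (mem_insert_self _ _) s (mem_insert_of_mem hs) (fun h => ht (h ▸ hs))⟩
    intro u hu v hv huv
    rw [lkS_insert, mem_lkS] at hu hv
    refine ih hτS' hτ' u hu.1 v hv.1 ?_
    rw [rkL_insert rk ht, rkL_single, rkL_single] at huv
    have hu1 := rkB_pos h3 hu.1
    have hv1 := rkB_pos h3 hv.1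
    have hu2 := hu.2 t (mem_singleton_self t)
    have hv2 := hv.2 t (mem_singleton_self t)
    split_ifs at huv with h5 h6 h6
    · omega
    · have h7 := rkB_lt h3 htl hu.1 h5
      have h8 := rkB_lt h3 hv.1 htl (hv2.resolve_right h6)
      omega
    · have h7 := rkB_lt h3 htl hv.1 h6
      have h8 := rkB_lt h3 hu.1 htl (hu2.resolve_right h5)
      omega
    · exact huv

/-- **`Van` for the links of the chains with an even number of elements.** -/
theorem posVan_link (G : ColGraph L C) (rk : L → ℕ) (n : ℕ) (S U : Finset L)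
    (hS : IsRanked rk n S) (hU : U ⊆ S) (hG : ∀ u ∈ U, ∀ v ∈ U, G.adj u v ↔ u < v ∨ v < u)
    (hc : ∀ u ∈ U, ∀ v ∈ U, rk u = rk v → G.col u = G.col v) (τ : Finset L) (hτU : τ ⊆ U)
    (hτ : G.Cl τ) (hev : Even τ.card) (i : ℕ) (hi : n < 2 * i + τ.card) :
    ∃ (K : Type) (_ : Field K) (_ : CharP K 2) (t : L → K), Van G t (lkS U τ) i := by
  have hτ' : ∀ u ∈ τ, ∀ v ∈ τ, u ≠ v → u < v ∨ v < u := fun u hu v hv huv =>
    (hG u (hτU hu) v (hτU hv)).1 (hτ u hu v hv huv)
  have hsub : lkS U τ ⊆ lkS S τ := fun u hu => by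
    rw [mem_lkS] at hu ⊢
    exact ⟨hU hu.1, hu.2⟩
  obtain ⟨h1, -, -, -⟩ := ranked_link hS.1 hS.2.1 τ (hτU.trans hU) hτ'
  refine posVanC G (rkL rk τ) (n - τ.card) (lkS S τ) (lkS U τ)
    (isRanked_link hS τ (hτU.trans hU) hτ' hev) hsub (fun u hu v hv => ?_)
    (fun u hu v hv huv => ?_) i (by omega)
  · exact hG u (mem_lkS.1 hu).1 v (mem_lkS.1 hv).1
  · exact hc u (mem_lkS.1 hu).1 v (mem_lkS.1 hv).1
      (rkL_inj hS.1 hS.2.1 τ (hτU.trans hU) hτ' u (hsub hu) v (hsub hv) huv)

end Pool.Agent.H4.HY
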