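import Pool.Agent.H85.Fold.Sphere

/-!
# Project LAB: links in homology spheres
-/

set_option autoImplicit false
set_option linter.unusedSectionVars false

open Finset

namespace Pool.Agent.H4.HY

open Pool.Agent.H85.Fold

variable {V : Type} [DecidableEq V] [Fintype V] {U : Finset V}

/-- the embedding of the subtype -/
private def embL (U : Finset V) : {v // v ∈ U} ↪ V := ⟨Subtype.val, Subtype.val_injective⟩

private theorem mem_embL {τ : Finset {v // v ∈ U}} {v : V} :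
    v ∈ τ.map (embL U) ↔ ∃ h : v ∈ U, (⟨v, h⟩ : {v // v ∈ U}) ∈ τ := by
  rw [mem_map]
  constructor
  · rintro ⟨w, hw, rfl⟩
    exact ⟨w.2, hw⟩
  · rintro ⟨h, hτ⟩
    exact ⟨⟨v, h⟩, hτ, rfl⟩

private theorem embL_subset (τ : Finset {v // v ∈ U}) : τ.map (embL U) ⊆ U := by
  intro v hv
  obtain ⟨h, -⟩ := mem_embL.1 hv
  exact h

/-- the preimage -/
private def prL (U : Finset V) (σ : Finset V) : Finset {v // v ∈ U} := univ.filter fun w => w.1 ∈ σ

private theorem mem_prL {σ : Finset V} {w : {v // v ∈ U}} : w ∈ prL U σ ↔ w.1 ∈ σ := by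
  unfold prL
  rw [mem_filter]
  exact ⟨fun h => h.2, fun h => ⟨mem_univ _, h⟩⟩

private theorem map_prL {σ : Finset V} (hσ : σ ⊆ U) : (prL U σ).map (embL U) = σ := by
  ext v
  rw [mem_embL]
  constructor
  · rintro ⟨h, h1⟩
    exact mem_prL.1 h1
  · intro hv
    exact ⟨hσ hv, mem_prL.2 hv⟩

private theorem prL_map (τ : Finset {v // v ∈ U}) : prL U (τ.map (embL U)) = τ := by
  ext w
  rw [mem_prL, mem_embL]
  constructor
  · rintro ⟨h, h1⟩
    exact h1
  · intro h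
    exact ⟨w.2, h⟩

private theorem sgn_embL (ν : V → ℕ) (w : {v // v ∈ U}) (τ : Finset {v // v ∈ U}) :
    sgn ν w.1 (τ.map (embL U)) = sgn (fun v : {v // v ∈ U} => ν v.1) w τ := by
  unfold sgn
  rw [filter_map, card_map]
  rfl

private theorem bd_embL (ν : V → ℕ) (c : Finset V → ℝ) (hc : ∀ σ, c σ ≠ 0 → σ ⊆ U)
    (τ : Finset {v // v ∈ U}) :
    bd ν c (τ.map (embL U)) =
      bd (fun v : {v // v ∈ U} => ν v.1) (fun τ => c (τ.map (embL U))) τ := by
  change ∑ v ∈ (τ.map (embL U))ᶜ, sgn ν v (τ.map (embL U)) • c (insert v (τ.map (embL U))) =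
    ∑ w ∈ τᶜ, sgn (fun v : {v // v ∈ U} => ν v.1) w τ • c ((insert w τ).map (embL U))
  have h1 : τᶜ.map (embL U) ⊆ (τ.map (embL U))ᶜ := by
    intro v hv
    obtain ⟨h, h2⟩ := mem_embL.1 hv
    rw [mem_compl] at h2 ⊢
    intro h3
    obtain ⟨h4, h5⟩ := mem_embL.1 h3
    exact h2 h5
  rw [← Finset.sum_subset h1, Finset.sum_map]
  · refine Finset.sum_congr rfl fun w _ => ?_
    rw [map_insert]
    exact congrArg₂ _ (sgn_embL ν w τ) rfl
  · intro v hv hv'
    by_contra hne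
    have h2 : c (insert v (τ.map (embL U))) ≠ 0 := by
      intro h0
      exact hne (by rw [h0, smul_zero])
    have h3 : v ∈ U := hc _ h2 (mem_insert_self _ _)
    apply hv'
    rw [mem_embL]
    refine ⟨h3, ?_⟩
    rw [mem_compl]
    intro h4
    exact (mem_compl.1 hv) (mem_embL.2 ⟨h3, h4⟩)

/-- extension of an injective function -/
private theorem exists_ext (ν' : {v // v ∈ U} → ℕ) (hν' : Function.Injective ν') :
    ∃ ν : V → ℕ, Function.Injective ν ∧ (fun v : {v // v ∈ U} => ν v.1) = ν' := by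
  classical
  obtain ⟨N, hN⟩ : ∃ N, ∀ v, ν' v ≤ N := ⟨univ.sup ν', fun v => le_sup (mem_univ v)⟩
  refine ⟨fun v => if h : v ∈ U then ν' ⟨v, h⟩ else N + 1 + (Fintype.equivFin V v : ℕ), ?_, ?_⟩
  · intro u v huv
    by_cases hu : u ∈ U <;> by_cases hv : v ∈ U
    · simp only [hu, hv, dif_pos] at huv
      exact congrArg Subtype.val (hν' huv)
    · simp only [hu, hv, dif_pos, dif_neg, not_false_iff] at huv
      have := hN ⟨u, hu⟩
      omega
    · simp only [hu, hv, dif_pos, dif_neg, not_false_iff] at huv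
      have := hN ⟨v, hv⟩
      omega
    · simp only [hu, hv, dif_neg, not_false_iff] at huv
      exact (Fintype.equivFin V).injective (Fin.ext (by omega))
  · funext v
    simp only [v.2, dif_pos]

variable {G : SimpleGraph V} {τ : Finset V}

/-- **The link of a simplex in a homology sphere is a homology sphere.** -/
theorem sphere_link {n : ℕ} (hG : IsHomologySphere G n) (hτ : Cl G τ)
    (hU : ∀ v, v ∈ U ↔ v ∉ τ ∧ ∀ u ∈ τ, G.Adj u v) :
    IsHomologySphere (G.comap (Subtype.val : {v // v ∈ U} → V)) (n - τ.card) := by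
  classical
  have hτn := hG.dim τ hτ
  -- cliques
  have hcl : ∀ σ : Finset {v // v ∈ U}, Cl (G.comap (Subtype.val : {v // v ∈ U} → V)) σ ↔
      Cl G (σ.map (embL U) ∪ τ) := by
    intro σ
    constructor
    · intro h u hu v hv huv
      rcases mem_union.1 hu with hu | hu <;> rcases mem_union.1 hv with hv | hv
      · obtain ⟨h1, h2⟩ := mem_embL.1 hu
        obtain ⟨h3, h4⟩ := mem_embL.1 hv
        exact h ⟨u, h1⟩ h2 ⟨v, h3⟩ h4 fun h5 => huv (congrArg Subtype.val h5)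
      · obtain ⟨h1, h2⟩ := mem_embL.1 hu
        exact (((hU u).1 h1).2 v hv).symm
      · obtain ⟨h1, h2⟩ := mem_embL.1 hv
        exact ((hU v).1 h1).2 u hu
      · exact hτ u hu v hv huv
    · intro h u hu v hv huv
      exact h u.1 (mem_union_left _ (mem_embL.2 ⟨u.2, hu⟩)) v.1
        (mem_union_left _ (mem_embL.2 ⟨v.2, hv⟩)) fun h5 => huv (Subtype.ext h5)
  have hdisj : ∀ σ : Finset {v // v ∈ U}, Disjoint (σ.map (embL U)) τ := fun σ =>
    Finset.disjoint_left.2 fun v hv => ((hU v).1 (embL_subset σ hv)).1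
  have hcard : ∀ ρ : Finset {v // v ∈ U}, (ρ.map (embL U) ∪ τ).card = ρ.card + τ.card :=
    fun ρ => by rw [card_union_of_disjoint (hdisj ρ), card_map]
  have hunion : ∀ σ ρ : Finset {v // v ∈ U}, (σ ∪ ρ).map (embL U) ∪ τ =
      σ.map (embL U) ∪ (ρ.map (embL U) ∪ τ) := fun σ ρ => by
    rw [map_union, union_assoc]
  -- chains of the link
  have hsupp : ∀ (ρ : Finset {v // v ∈ U}) j (z : Finset V → ℝ),
      LinkChain G (ρ.map (embL U) ∪ τ) j z → ∀ σ, z σ ≠ 0 → σ ⊆ U := by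
    intro ρ j z hz σ hσ v hv
    obtain ⟨h1, h2, -⟩ := hz σ hσ
    rw [hU]
    have h3 : v ∉ τ := fun h4 => Finset.disjoint_left.1 h1 hv (mem_union_right _ h4)
    refine ⟨h3, fun u hu => h2 u (mem_union_right _ (mem_union_right _ hu)) v
      (mem_union_left _ hv) fun h4 => h3 (h4 ▸ hu)⟩
  have hdown : ∀ (ρ : Finset {v // v ∈ U}) j (z : Finset V → ℝ),
      LinkChain G (ρ.map (embL U) ∪ τ) j z →
      LinkChain (G.comap (Subtype.val : {v // v ∈ U} → V)) ρ j
        fun σ => z (σ.map (embL U)) := by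
    intro ρ j z hz σ hσ
    obtain ⟨h1, h2, h3⟩ := hz _ hσ
    rw [card_map] at h3
    refine ⟨?_, ?_, h3⟩
    · rw [Finset.disjoint_left] at h1 ⊢
      intro v hv hv'
      exact h1 (mem_embL.2 ⟨v.2, hv⟩) (mem_union_left _ (mem_embL.2 ⟨v.2, hv'⟩))
    · rw [hcl, hunion]
      exact h2
  have hup : ∀ (ρ : Finset {v // v ∈ U}) j (z : Finset {v // v ∈ U} → ℝ),
      LinkChain (G.comap (Subtype.val : {v // v ∈ U} → V)) ρ j z →
      ∃ Z : Finset V → ℝ, LinkChain G (ρ.map (embL U) ∪ τ) j Z ∧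
        (fun σ => Z (σ.map (embL U))) = z ∧ ∀ σ, ¬ σ ⊆ U → Z σ = 0 := by
    intro ρ j z hz
    obtain ⟨Z, hZ⟩ : ∃ Z : Finset V → ℝ, Z = fun σ => if σ ⊆ U then z (prL U σ) else 0 := ⟨_, rfl⟩
    have h1 : ∀ σ, σ ⊆ U → Z σ = z (prL U σ) := fun σ hσ => by rw [hZ]; exact if_pos hσ
    have h2 : ∀ σ, ¬ σ ⊆ U → Z σ = 0 := fun σ hσ => by rw [hZ]; exact if_neg hσ
    refine ⟨Z, ?_, ?_, h2⟩
    · intro σ hσ
      have h3 : σ ⊆ U := by
        by_contra h3
        exact hσ (h2 σ h3)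
      rw [h1 σ h3] at hσ
      obtain ⟨h4, h5, h6⟩ := hz _ hσ
      rw [hcl, hunion, map_prL h3] at h5
      refine ⟨?_, h5, ?_⟩
      · rw [Finset.disjoint_left] at h4 ⊢
        intro v hv hv'
        rcases mem_union.1 hv' with h7 | h7
        · obtain ⟨h8, h9⟩ := mem_embL.1 h7
          exact h4 (mem_prL.2 hv) h9
        · exact ((hU v).1 (h3 hv)).1 h7
      · rw [← h6, ← card_map (embL U), map_prL h3]
    · funext σ
      rw [h1 _ (embL_subset σ), prL_map]
  have hbd0 : ∀ (ν : V → ℕ) (Z : Finset V → ℝ), (∀ σ, ¬ σ ⊆ U → Z σ = 0) →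
      bd (fun v : {v // v ∈ U} => ν v.1) (fun σ => Z (σ.map (embL U))) = 0 → bd ν Z = 0 := by
    intro ν Z hZ h0
    have hZ' : ∀ σ, Z σ ≠ 0 → σ ⊆ U := fun σ hσ => by
      by_contra h1
      exact hσ (hZ σ h1)
    funext σ
    by_cases h1 : σ ⊆ U
    · rw [← map_prL h1, bd_embL ν Z hZ', h0]
      rfl
    · change ∑ v ∈ σᶜ, sgn ν v σ • Z (insert v σ) = 0
      refine Finset.sum_eq_zero fun v _ => ?_
      rw [hZ _ fun h3 => h1 ((subset_insert v σ).trans h3), smul_zero]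
  refine ⟨fun σ hσ => ?_, ?_, ?_⟩
  · have h1 := hG.dim _ ((hcl σ).1 hσ)
    rw [hcard] at h1
    omega
  · intro ν' hν' ρ hρ j hj z hz hbz
    obtain ⟨ν, hν, rfl⟩ := exists_ext ν' hν'
    obtain ⟨Z, hZ, rfl, hZ0⟩ := hup ρ j z hz
    obtain ⟨y, hy, hyb⟩ := hG.low ν hν _ ((hcl ρ).1 hρ) j (by rw [hcard]; omega) Z hZ
      (hbd0 ν Z hZ0 hbz)
    refine ⟨fun σ => y (σ.map (embL U)), hdown ρ _ y hy, ?_⟩
    funext σ
    rw [← bd_embL ν y (hsupp ρ _ y hy), hyb]
  · intro ν' hν' ρ hρ j hj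
    obtain ⟨ν, hν, rfl⟩ := exists_ext ν' hν'
    obtain ⟨o, ho, ho0, hne, hu⟩ := hG.top ν hν _ ((hcl ρ).1 hρ) j (by rw [hcard]; omega)
    refine ⟨fun σ => o (σ.map (embL U)), hdown ρ _ o ho, ?_, ?_, ?_⟩
    · funext σ
      rw [← bd_embL ν o (hsupp ρ _ o ho), ho0]
      rfl
    · intro h0
      apply hne
      funext σ
      by_contra h1
      have h2 := hsupp ρ _ o ho σ h1
      have h3 := congrFun h0 (prL U σ)
      simp only [map_prL h2] at h3
      exact h1 h3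
    · intro z hz hbz
      obtain ⟨Z, hZ, rfl, hZ0⟩ := hup ρ j z hz
      obtain ⟨r, hr⟩ := hu Z hZ (hbd0 ν Z hZ0 hbz)
      refine ⟨r, ?_⟩
      funext σ
      rw [hr]
      rfl

end Pool.Agent.H4.HY
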