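import Pool.Agent.H19.Hyp.Defs
import Pool.Agent.H4.Singer.Basic

/-!
# Project LAB: `Van` pulled back along an embedding of graphs
-/

set_option autoImplicit false

open Finset

namespace Pool.Agent.H4.HY

open Pool.Agent.H4.Singer

variable {V V' C K : Type} [DecidableEq V] [Fintype V] [DecidableEq V'] [Fintype V']
    [DecidableEq C] [Field K] (G : ColGraph V C) (G' : ColGraph V' C) (e : V' ↪ V)

private theorem vp_bd (hc : ∀ v, G'.col v = G.col (e v)) (t : V → K)
    (z : Finset V → (C → Bool) → K) (hz : ∀ σ a, z σ a ≠ 0 → ∀ v ∈ σ, ∃ w, e w = v)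
    (τ : Finset V') (a : C → Bool) :
    bd G t z (τ.map e) a = bd G' (fun v => t (e v)) (fun σ a => z (σ.map e) a) τ a := by
  unfold bd
  symm
  have h1 : ∑ v ∈ (τᶜ).map e, wt t v (a (G.col v)) • z (insert v (τ.map e)) a =
      ∑ v ∈ (τ.map e)ᶜ, wt t v (a (G.col v)) • z (insert v (τ.map e)) a := by
    refine Finset.sum_subset ?_ ?_
    · intro u hu
      obtain ⟨v, hv, rfl⟩ := Finset.mem_map.1 hu
      rw [Finset.mem_compl] at hv ⊢
      intro h
      obtain ⟨w, hw, hwv⟩ := Finset.mem_map.1 h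
      exact hv (e.injective hwv ▸ hw)
    · intro u hu hu'
      by_contra hne
      have h2 : z (insert u (τ.map e)) a ≠ 0 := fun h0 => hne (by rw [h0, smul_zero])
      obtain ⟨v, rfl⟩ := hz _ _ h2 u (Finset.mem_insert_self u _)
      apply hu'
      refine Finset.mem_map_of_mem e ?_
      rw [Finset.mem_compl] at hu ⊢
      exact fun h => hu (Finset.mem_map_of_mem e h)
  rw [← h1, Finset.sum_map]
  refine Finset.sum_congr rfl fun v _ => ?_
  rw [hc]
  show _ • z ((insert v τ).map e) a = _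
  rw [Finset.map_insert]
  rfl

/-- **Pull-back of `Van`.** -/
theorem van_pull (hadj : ∀ u v, G'.adj u v ↔ G.adj (e u) (e v))
    (hc : ∀ v, G'.col v = G.col (e v)) (t : V → K) (U : Finset V') (i : ℕ)
    (h : Van G t (U.map e) i) : Van G' (fun v => t (e v)) U i := by
  classical
  intro z hz hbz
  have hcl : ∀ σ : Finset V', G.Cl (σ.map e) ↔ G'.Cl σ := by
    intro σ
    constructor
    · intro h1 u hu v hv huv
      rw [hadj]
      exact h1 _ (Finset.mem_map_of_mem e hu) _ (Finset.mem_map_of_mem e hv)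
        fun h2 => huv (e.injective h2)
    · intro h1 u hu v hv huv
      obtain ⟨u', hu', rfl⟩ := Finset.mem_map.1 hu
      obtain ⟨v', hv', rfl⟩ := Finset.mem_map.1 hv
      rw [← hadj]
      exact h1 _ hu' _ hv' fun h2 => huv (congrArg e h2)
  have hpre : ∀ σ : Finset V, σ ⊆ U.map e → (σ.preimage e e.injective.injOn).map e = σ := by
    intro σ hσ
    ext v
    rw [Finset.mem_map]
    constructor
    · rintro ⟨w, hw, rfl⟩
      exact Finset.mem_preimage.1 hw
    · intro hv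
      obtain ⟨w, -, rfl⟩ := Finset.mem_map.1 (hσ hv)
      exact ⟨w, Finset.mem_preimage.2 hv, rfl⟩
  have hpre' : ∀ σ : Finset V', (σ.map e).preimage e e.injective.injOn = σ := by
    intro σ
    ext v
    rw [Finset.mem_preimage, Finset.mem_map' e]
  have hsub : ∀ σ : Finset V', σ.map e ⊆ U.map e ↔ σ ⊆ U := fun σ => Finset.map_subset_map
  obtain ⟨x, hxd⟩ : ∃ x : Finset V → (C → Bool) → K, x = fun σ a =>
      if σ ⊆ U.map e then z (σ.preimage e e.injective.injOn) a else 0 := ⟨_, rfl⟩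
  have hx2 : ∀ σ a, ¬ σ ⊆ U.map e → x σ a = 0 := by
    intro σ a h1
    rw [hxd]
    simp only [h1, if_false]
  have hx1 : ∀ (σ : Finset V') a, x (σ.map e) a = z σ a := by
    intro σ a
    by_cases h1 : σ ⊆ U
    · rw [hxd]
      simp only [(hsub σ).2 h1, if_true, hpre']
    · rw [hx2 _ _ fun h2 => h1 ((hsub σ).1 h2)]
      by_contra h3
      exact h1 (hz.supp σ a (Ne.symm h3)).1
  have hxs : ∀ σ a, x σ a ≠ 0 → σ ⊆ U.map e := by
    intro σ a h1
    by_contra h2
    exact h1 (hx2 σ a h2)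
  have hxe : ∀ σ a, x σ a ≠ 0 → ∀ v ∈ σ, ∃ w, e w = v := by
    intro σ a h1 v hv
    obtain ⟨w, -, rfl⟩ := Finset.mem_map.1 (hxs σ a h1 hv)
    exact ⟨w, rfl⟩
  have hxz : (fun (σ : Finset V') (a : C → Bool) => x (σ.map e) a) = z := by
    funext σ a
    exact hx1 σ a
  obtain ⟨y, hy, hby⟩ := h x ⟨fun σ a hne => by
      have h1 := hxs σ a hne
      rw [← hpre σ h1, hx1] at hne
      obtain ⟨-, h2, h3⟩ := hz.supp _ _ hne
      refine ⟨h1, ?_, ?_⟩
      · rw [← hpre σ h1]
        exact (hcl _).2 h2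
      · rw [← hpre σ h1, Finset.card_map]
        exact h3,
    fun σ a v b hv => by
      by_cases h1 : σ ⊆ U.map e
      · obtain ⟨w, -, rfl⟩ := Finset.mem_map.1 (h1 hv)
        rw [← hpre σ h1, hx1, hx1, ← hc]
        exact hz.indep _ a w b (Finset.mem_preimage.2 hv)
      · rw [hx2 σ _ h1, hx2 σ _ h1]⟩ (by
    funext τ a
    by_cases h1 : τ ⊆ U.map e
    · rw [← hpre τ h1, vp_bd G G' e hc t x hxe, hxz, hbz]
      rfl
    · unfold bd
      refine Finset.sum_eq_zero fun v _ => ?_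
      rw [hx2 _ _ fun h3 => h1 ((Finset.subset_insert v τ).trans h3), smul_zero])
  have hye : ∀ σ a, y σ a ≠ 0 → ∀ v ∈ σ, ∃ w, e w = v := by
    intro σ a h1 v hv
    obtain ⟨w, -, rfl⟩ := Finset.mem_map.1 ((hy.supp σ a h1).1 hv)
    exact ⟨w, rfl⟩
  refine ⟨fun σ a => y (σ.map e) a, ⟨fun σ a hne => ?_, fun σ a v b hv => ?_⟩, ?_⟩
  · obtain ⟨h1, h2, h3⟩ := hy.supp _ _ hne
    exact ⟨(hsub σ).1 h1, (hcl σ).1 h2, by rwa [Finset.card_map] at h3⟩
  · rw [hc]
    exact hy.indep _ a (e v) b (Finset.mem_map_of_mem e hv)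
  · rw [← hxz, ← hby]
    funext τ a
    rw [← vp_bd G G' e hc t y hye]

end Pool.Agent.H4.HY
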