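import Pool.Agent.H85.Lab.MainL
import Pool.Agent.H4.HY.LinkVan
import Pool.Agent.H4.HY.SphLink
import Pool.Agent.H4.HY.DualCol
import Pool.Agent.H4.HY.VanPull
import Pool.Agent.H19.Hyp.PosLink

/-!
# Project LAB: the transfer theorem in the complementary degree and Coxeter groups over posets
-/

set_option autoImplicit false
set_option linter.unusedSectionVars false

open Finset

namespace Pool.Agent.H4.HY

open Pool.Agent.H4 Pool.Agent.H4.Singer Pool.Agent.H4.Singer2 Pool.Agent.H85.Fold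
  Pool.Agent.H85.Fold2 Pool.Agent.H19.Cub Pool.Agent.H19.Hyp

section trivial

variable {V : Type} [DecidableEq V] [Fintype V] {A : Type} [AddCommGroup A] [Module ℝ A]

/-- if there are no chains there is nothing to prove -/
theorem hv_of_card (ν : V → ℕ) (G : SimpleGraph V) (e : V → A →ₗ[ℝ] A) (U : Finset V) (j : ℕ)
    (h : ∀ σ ⊆ U, Pool.Agent.H85.Fold.Cl G σ → σ.card ≠ j) : HV ν G e ⊤ U j := by
  intro c hc _
  have h0 : c = 0 := by
    funext σ
    by_contra hne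
    obtain ⟨h1, h2, h3⟩ := hc.supp σ hne
    exact h σ h1 h2 h3
  rw [h0]
  refine ⟨0, ⟨fun _ => Submodule.mem_top, fun σ v _ => map_zero _, fun σ hσ => absurd rfl hσ⟩, ?_⟩
  funext σ
  unfold Pool.Agent.H85.Fold.bd
  simp

end trivial

section dual

variable {V C : Type} [DecidableEq V] [Fintype V] [DecidableEq C] [Fintype C]

/-- **The transfer theorem in the complementary degree**, Coxeter groups of FC type whose nerve is a
homology sphere. -/
theorem lab_dual (M : CoxeterMatrix V) (hM : Pool.Agent.H4.FD.IsFC M) (Γ : ColGraph V C)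
    (hG : ∀ u v, (Pool.Agent.H4.FC.gr M).Adj u v ↔ Γ.adj u v) {n i i' : ℕ} (hii : i + i' = n)
    (hS : IsHomologySphere (Pool.Agent.H4.FC.gr M) n)
    (h : ∀ (τ : Finset V) (b j : ℕ), Γ.Cl τ → τ.card = 2 * b → j + b = i' →
      ∃ (K : Type) (_ : Field K) (_ : CharP K 2) (t : V → K),
        Van Γ t (Pool.Agent.H85.Lab.lkS Γ τ) j) :
    Pool.Agent.H4.FC.L2HomologyZero M i := by
  classical
  refine Pool.Agent.H85.Lab.lab_of_hv M hM Γ hG i fun ν hν => ?_
  obtain ⟨t, ht⟩ := Pool.Agent.H85.Lab.exists_int_vanD (X := {p : Finset V × Fin (i' + 1) //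
      Γ.Cl p.1 ∧ ∃ b, p.1.card = 2 * b ∧ (p.2 : ℕ) + b = i'}) ν hν Γ
    (fun x => Pool.Agent.H85.Lab.lkS Γ x.1.1) (fun x => (x.1.2 : ℕ))
    (fun x => by
      obtain ⟨b, hb, hj⟩ := x.2.2
      obtain ⟨K, hK, hK2, t, ht⟩ := h x.1.1 b x.1.2 x.2.1 hb hj
      exact ⟨K, hK, t, vanS_of_van ν Γ t _ _ ht⟩)
  refine ⟨t, fun D _ _ w a hw τ b j hτ hb hj => ?_⟩
  have hτ' : Pool.Agent.H85.Fold.Cl (Pool.Agent.H4.FC.gr M) τ := fun u hu v hv huv =>
    (hG u v).2 (hτ u hu v hv huv)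
  have h2 := hS.dim τ hτ'
  have h3 := sphere_link (U := Pool.Agent.H85.Lab.lkS Γ τ) hS hτ' fun v => by
    rw [Pool.Agent.H85.Lab.mem_lkS]
    exact and_congr_right fun _ => forall₂_congr fun u _ => (hG u v).symm
  rw [hb] at h2 h3
  by_cases hbi : b ≤ i'
  · have hv := hv_of_vanS hw ν Γ (Pool.Agent.H4.FC.gr M) hG t (Pool.Agent.H85.Lab.lkS Γ τ)
      (i' - b) (ht ⟨(τ, ⟨i' - b, by omega⟩), hτ, b, hb, by
        show i' - b + b = i'
        omega⟩)
    exact hv_dual_col hw ν hν Γ (Pool.Agent.H4.FC.gr M)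
      (fun u v huv => Γ.ne u v ((hG u v).1 huv)) t (Pool.Agent.H85.Lab.lkS Γ τ)
      (n := n - 2 * b) (by omega) h3 hv
  · refine hv_of_card ν _ _ _ j fun σ hσ hcl hcard => ?_
    have h4 := h3.dim (σ.subtype (· ∈ Pool.Agent.H85.Lab.lkS Γ τ)) (fun u hu v hv huv =>
      hcl u.1 (mem_subtype.1 hu) v.1 (mem_subtype.1 hv) fun h5 => huv (Subtype.ext h5))
    rw [card_subtype, filter_true_of_mem fun v hv => hσ hv] at h4
    omega

end dual

section poset

variable {L : Type} [PartialOrder L] [Fintype L] [DecidableEq L] {V : Type} [DecidableEq V]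
  [Fintype V]

/-- the comparability graph -/
def cmpG (L : Type) [PartialOrder L] : SimpleGraph L where
  Adj u v := u < v ∨ v < u
  symm := ⟨fun _ _ h => h.symm⟩
  loopless := ⟨fun _ h => h.elim (fun h => lt_irrefl _ h) (fun h => lt_irrefl _ h)⟩

/-- the coloured graph of a subset of a ranked set -/
def colP (rk : L → ℕ) (hrk : StrictMono rk) (φ : V ↪ L) : ColGraph V (Fin (cN rk + 1)) where
  adj u v := φ u < φ v ∨ φ v < φ u
  symm _ _ h := h.symm
  col v := colR rk (φ v)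
  ne u v h := colR_ne rk hrk (cmpG L) (fun _ _ => Iff.rfl) (φ u) (φ v) h

/-- the vanishing for the links -/
theorem van_colP (rk : L → ℕ) (hrk : StrictMono rk) (n : ℕ) (hS : IsRanked rk n univ)
    (φ : V ↪ L) (τ : Finset V) (b j : ℕ) (hτ : (colP rk hrk φ).Cl τ) (hb : τ.card = 2 * b)
    (hj : n < 2 * (j + b)) :
    ∃ (K : Type) (_ : Field K) (_ : CharP K 2) (t : V → K),
      Van (colP rk hrk φ) t (Pool.Agent.H85.Lab.lkS (colP rk hrk φ) τ) j := by
  classical
  have h1 := colR_ne rk hrk (cmpG L) fun _ _ => Iff.rfl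
  obtain ⟨K, iK, iC, t, ht⟩ := posVanLink rk hrk (colG (cmpG L) (colR rk) h1) n univ hS
    (fun _ _ _ _ => Iff.rfl) (fun u _ v _ => ⟨fun h => Fin.ext h, fun h => congrArg Fin.val h⟩)
    (τ.map φ) (subset_univ _)
    (fun u hu v hv huv => by
      obtain ⟨u', hu', rfl⟩ := mem_map.1 hu
      obtain ⟨v', hv', rfl⟩ := mem_map.1 hv
      exact hτ u' hu' v' hv' fun h => huv (congrArg φ h))
    (by rw [card_map, hb]; exact even_two_mul b)
    ((Pool.Agent.H85.Lab.lkS (colP rk hrk φ) τ).map φ) (fun v hv => by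
      obtain ⟨w, hw, rfl⟩ := mem_map.1 hv
      rw [Pool.Agent.H85.Lab.mem_lkS] at hw
      rw [mem_lkS]
      refine ⟨mem_univ _, fun t ht => ?_⟩
      obtain ⟨t', ht', rfl⟩ := mem_map.1 ht
      exact (hw.2 t' ht').symm) j (by rw [card_map, hb]; omega)
  exact ⟨K, iK, iC, fun v => t (φ v), van_pull _ _ φ (fun _ _ => Iff.rfl) (fun _ => rfl) t _ j ht⟩

/-- **Coxeter groups of FC type over ranked posets.** -/
theorem lab_ranked (M : CoxeterMatrix V) (hM : Pool.Agent.H4.FD.IsFC M) (rk : L → ℕ)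
    (hrk : StrictMono rk) (n : ℕ) (hS : IsRanked rk n univ) (φ : V → L)
    (hφ : Function.Injective φ)
    (hG : ∀ u v, (Pool.Agent.H4.FC.gr M).Adj u v ↔ φ u < φ v ∨ φ v < φ u) (i : ℕ)
    (hi : n < 2 * i ∨ IsHomologySphere (Pool.Agent.H4.FC.gr M) n ∧ 2 * i ≠ n) :
    Pool.Agent.H4.FC.L2HomologyZero M i := by
  by_cases h : n < 2 * i
  · exact Pool.Agent.H85.Lab.lab_of_van M hM (colP rk hrk ⟨φ, hφ⟩) hG i fun τ b j hτ hb hj =>
      van_colP rk hrk n hS ⟨φ, hφ⟩ τ b j hτ hb (by omega)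
  · obtain ⟨h1, h2⟩ := hi.resolve_left h
    exact lab_dual M hM (colP rk hrk ⟨φ, hφ⟩) hG (n := n) (i' := n - i) (by omega) h1
      (fun τ b j hτ hb hj => van_colP rk hrk n hS ⟨φ, hφ⟩ τ b j hτ hb (by omega))

end poset

end Pool.Agent.H4.HY
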