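import Pool.Agent.H19.Hyp.Rank

/-!
# Project LAB: order complexes of ranked posets
-/

set_option autoImplicit false

namespace Pool.Agent.H4.HY

open Pool.Agent.H19.Hyp

/-- `H` is the graph of the order complex of a finite graded poset of rank `n` whose intervals are exact
over the field of two elements, and which is Gorenstein* if `n` is odd: the vertices are the elements,
edges join the comparable ones. -/
def OrderComplex {W : Type} [Fintype W] (H : SimpleGraph W) (n : ℕ) : Prop :=
  ∃ (_ : PartialOrder W) (rk : W → ℕ), StrictMono rk ∧ IsRanked rk n Finset.univ ∧
    ∀ u v, H.Adj u v ↔ u < v ∨ v < u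

end Pool.Agent.H4.HY
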