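import Pool.Agent.H85.Fold.Sphere

/-!
# Project LAB: a homology sphere which is a full subcomplex of a homology sphere of the same dimension
-/

set_option autoImplicit false
set_option linter.unusedSectionVars false

open Finset

namespace Pool.Agent.H4.HY

open Pool.Agent.H85.Fold

variable {V W : Type} [DecidableEq V] [Fintype V] [DecidableEq W] [Fintype W]

private theorem ss_bd (e : V ↪ W) (ν : W → ℕ) (c : Finset W → ℝ)
    (hc : ∀ σ, c σ ≠ 0 → ∀ w ∈ σ, ∃ v, e v = w) (τ : Finset V) :
    bd ν c (τ.map e) = bd (fun v => ν (e v)) (fun τ => c (τ.map e)) τ := by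
  change ∑ v ∈ (τ.map e)ᶜ, sgn ν v (τ.map e) • c (insert v (τ.map e)) =
    ∑ w ∈ τᶜ, sgn (fun v => ν (e v)) w τ • c ((insert w τ).map e)
  have h1 : τᶜ.map e ⊆ (τ.map e)ᶜ := by
    intro v hv
    obtain ⟨w, hw, rfl⟩ := mem_map.1 hv
    rw [mem_compl] at hw ⊢
    intro h3
    exact hw ((mem_map' e).1 h3)
  rw [← Finset.sum_subset h1, Finset.sum_map]
  · refine Finset.sum_congr rfl fun w _ => ?_
    rw [map_insert]
    refine congrArg₂ _ ?_ rfl
    unfold sgn
    rw [filter_map, card_map]
    rfl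
  · intro v hv hv'
    by_contra hne
    have h2 : c (insert v (τ.map e)) ≠ 0 := by
      intro h0
      exact hne (by rw [h0, smul_zero])
    obtain ⟨w, rfl⟩ := hc _ h2 v (mem_insert_self _ _)
    apply hv'
    refine mem_map_of_mem e ?_
    rw [mem_compl] at hv ⊢
    exact fun h4 => hv (mem_map_of_mem e h4)

/-- A homology sphere which is a full subcomplex of a homology sphere of the same dimension is the
whole sphere. -/
theorem sphere_surj {G : SimpleGraph V} {H : SimpleGraph W} {n : ℕ} (hG : IsHomologySphere G n)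
    (hH : IsHomologySphere H n) (e : V ↪ W) (he : ∀ u v, G.Adj u v ↔ H.Adj (e u) (e v)) :
    Function.Surjective e := by
  classical
  let ν : W → ℕ := fun w => (Fintype.equivFin W w : ℕ)
  have hν : Function.Injective ν := fun u v h => (Fintype.equivFin W).injective (Fin.ext h)
  have hcl : Cl G (∅ : Finset V) := fun u hu => absurd hu (Finset.notMem_empty u)
  obtain ⟨o, ho, ho0, hne, -⟩ := hG.top (fun v => ν (e v)) (hν.comp e.injective) ∅ hcl n (by simp)
  obtain ⟨O, hO⟩ : ∃ O : Finset W → ℝ, O = fun σ =>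
      if σ ⊆ univ.map e then o (σ.preimage e e.injective.injOn) else 0 := ⟨_, rfl⟩
  have hO1 : ∀ σ : Finset V, O (σ.map e) = o σ := by
    intro σ
    rw [hO]
    have h1 : σ.map e ⊆ univ.map e := map_subset_map.2 (subset_univ _)
    have h2 : (σ.map e).preimage e e.injective.injOn = σ := by
      ext v
      rw [mem_preimage, mem_map' e]
    simp only [h1, if_true, h2]
  have hO2 : ∀ σ, ¬ σ ⊆ univ.map e → O σ = 0 := by
    intro σ h1
    rw [hO]
    simp only [h1, if_false]
  have hO3 : ∀ σ, O σ ≠ 0 → ∀ w ∈ σ, ∃ v, e v = w := by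
    intro σ h1 w hw
    by_contra h2
    refine h1 (hO2 σ fun h3 => ?_)
    obtain ⟨v, -, hv⟩ := mem_map.1 (h3 hw)
    exact h2 ⟨v, hv⟩
  have hpre : ∀ σ : Finset W, (∀ w ∈ σ, ∃ v, e v = w) →
      (σ.preimage e e.injective.injOn).map e = σ := by
    intro σ hσ
    ext w
    rw [mem_map]
    constructor
    · rintro ⟨v, hv, rfl⟩
      exact mem_preimage.1 hv
    · intro hw
      obtain ⟨v, rfl⟩ := hσ w hw
      exact ⟨v, mem_preimage.2 hw, rfl⟩
  have hrel : SphereAux.Rel H ∅ n O := by
    intro σ hσ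
    have h1 := hO3 σ hσ
    have h2 := hpre σ h1
    rw [← h2, hO1] at hσ
    obtain ⟨-, h3, h4⟩ := ho _ hσ
    rw [union_empty] at h3
    refine ⟨empty_subset _, ?_, ?_⟩
    · rw [← h2]
      intro u hu v hv huv
      obtain ⟨u', hu', rfl⟩ := mem_map.1 hu
      obtain ⟨v', hv', rfl⟩ := mem_map.1 hv
      exact (he u' v').1 (h3 u' hu' v' hv' fun h => huv (congrArg e h))
    · rw [← h2, card_map]
      exact h4
  have hbd : bd ν O = 0 := by
    funext σ
    by_cases h1 : ∀ w ∈ σ, ∃ v, e v = w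
    · rw [← hpre σ h1, ss_bd e ν O hO3]
      have h2 : (fun τ : Finset V => O (τ.map e)) = o := funext hO1
      rw [h2, ho0]
      rfl
    · change ∑ v ∈ σᶜ, sgn ν v σ • O (insert v σ) = 0
      refine Finset.sum_eq_zero fun v _ => ?_
      rw [show O (insert v σ) = 0 by
        by_contra h2
        exact h1 fun w hw => hO3 _ h2 w (mem_insert_of_mem hw), smul_zero]
  have hO0 : O ≠ 0 := by
    intro h0
    apply hne
    funext σ
    rw [← hO1 σ, h0]
    rfl
  intro w
  obtain ⟨τ, h1, h2, h3⟩ := SphereAux.pure' hH hν (ρ := {w}) (by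
    intro u hu v hv huv
    rw [mem_singleton] at hu hv
    exact absurd (hu.trans hv.symm) huv)
  exact hO3 τ (SphereAux.nonvanishing hH hν hrel hbd hO0 τ h1 h2) w (h3 (mem_singleton_self w))

end Pool.Agent.H4.HY
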