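import Pool.Agent.H4.HY.GenCol
import Pool.Agent.H4.HY.DualCol
import Pool.Agent.H19.Hyp.Defs

/-!
# Project HB: the transfer theorem in the complementary degree
-/

set_option autoImplicit false
set_option linter.unusedSectionVars false

open Finset

namespace Pool.Agent.H4.HY

open Pool.Agent.H4.Singer Pool.Agent.H85.Fold Pool.Agent.H85.Fold2 Pool.Agent.H19.Cub
  Pool.Agent.H19.Hyp

/-- **The transfer theorem in the complementary degree.** Let `Q` be a finite special cube complex
whose links are real homology spheres of dimension `n - 1`, and `col` a colouring of its labels such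
that adjacent labels have different colours. If at every vertex the complex of the labels is exact in
degree `j` for some parameters in some field of characteristic two, and `i + j = n`, then the reduced
`ℓ²`-homology of the universal cover vanishes in degree `i`. -/
theorem generalDual {V C X : Type} [DecidableEq V] [Fintype V] [DecidableEq C] [Fintype C]
    [Fintype X] (Q : CubeComplex V X) (col : V → C)
    (hcol : ∀ u v, Q.graph.Adj u v → col u ≠ col v) {n i j : ℕ} (hij : i + j = n)
    (hS : ∀ x, IsHomologySphere (Q.graph.comap (Subtype.val : {v // v ∈ Q.lab x} → V)) n)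
    (h : ∀ x, ∃ (K : Type) (_ : Field K) (_ : CharP K 2) (t : V → K),
      Van (colG Q.graph col hcol) t (Q.lab x) j) (x : X) : L2HomologyZero (Q.cover x) i := by
  refine general_of_hv Q (colG Q.graph col hcol) hcol i (fun ν hν => ?_) x
  obtain ⟨t, ht⟩ := exists_int_vanS ν hν (colG Q.graph col hcol) Q.lab j (fun y => by
    obtain ⟨K, hK, hK2, t, ht⟩ := h y
    exact ⟨K, hK, t, vanS_of_van ν _ t (Q.lab y) j ht⟩)
  exact ⟨t, fun D _ _ w a hw y => hv_dual_col hw ν hν _ Q.graph hcol t (Q.lab y) hij (hS y)
    (hv_of_vanS hw ν _ Q.graph (fun _ _ => Iff.rfl) t (Q.lab y) j (ht y))⟩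

end Pool.Agent.H4.HY
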