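import Pool.Agent.H4.HY.OrdCpx

/-!
# Project HB: order complexes of spherical posets, the induction
-/

set_option autoImplicit false
set_option linter.unusedSectionVars false

open Finset

namespace Pool.Agent.H4.HY

open Pool.Agent.H4.Singer2

variable {B : Type} [PartialOrder B] [Fintype B] [DecidableEq B] {rk : B → ℕ}
  {ρ : Finset B} {a b : B}

/-- the sum of the saturated chains over `ρ` with the largest element `y` -/
noncomputable def sp (rk : B → ℕ) (ρ : Finset B) (y : B) : Finset B → ZMod 2 :=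
  cone y (one rk (lo ρ y) y)

/-- the chain with the coefficients `f` -/
noncomputable def Phi (rk : B → ℕ) (ρ : Finset B) (a b : B) (f : B → ZMod 2) :
    Finset B → ZMod 2 := ∑ y ∈ Yb a b, f y • sp rk ρ y

theorem Flg.sl_one (h : IsSpherical rk) (hA : Flg ρ a b) {x : B} (hx : a ≤ x) (hxb : x < b) :
    sl x (one rk ρ b) = (if rk x + 1 = rk b then (1 : ZMod 2) else 0) • one rk (lo ρ x) x := by
  classical
  funext σ
  rw [Pi.smul_apply, smul_eq_mul]
  by_cases hb : ∀ u ∈ σ, u < x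
  · have hxσ : x ∉ σ := fun h' => lt_irrefl x (hb x h')
    rw [sl_pos hb]
    unfold one
    have hc : (insert x σ).card = σ.card + 1 := card_insert_of_notMem hxσ
    by_cases hr : rk x + 1 = rk b
    · rw [if_pos hr, one_mul]
      by_cases h1 : lo ρ x ⊆ σ ∧ IsCh σ ∧ (∀ u ∈ σ, u < x) ∧ σ.card = rk x
      · rw [if_pos h1, if_pos]
        refine ⟨(hA.sub_iff' hx hxσ).1 h1.1, h1.2.1.insert_top hb, fun u hu => ?_, ?_⟩
        · rcases mem_insert.1 hu with h2 | h2
          · rw [h2]; exact hxb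
          · exact (hb u h2).trans hxb
        · rw [hc, h1.2.2.2, hr]
      · rw [if_neg h1, if_neg]
        rintro ⟨h2, h3, -, h4⟩
        refine h1 ⟨(hA.sub_iff' hx hxσ).2 h2, h3.mono (subset_insert _ _), hb, ?_⟩
        omega
    · rw [if_neg hr, zero_mul, if_neg]
      rintro ⟨-, h3, -, h4⟩
      have h5 := (h3.mono (subset_insert x σ)).card_le h hb
      have h6 := h.lt hxb
      omega
  · have h0 : one rk (lo ρ x) x σ = 0 := by
      unfold one
      exact if_neg (fun h1 => hb h1.2.2.1)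
    rw [sl_neg hb, h0, mul_zero]

theorem Flg.one_decomp (h : IsSpherical rk) (hA : Flg ρ a b) :
    one rk ρ b = ∑ x ∈ Yb a b, (if rk x + 1 = rk b then (1 : ZMod 2) else 0) • sp rk ρ x := by
  refine (hA.decomp (inK_one ρ b)).trans (sum_congr rfl fun x hx => ?_)
  obtain ⟨h1, h2⟩ := mem_Yb.1 hx
  rw [hA.sl_one h h1 h2, map_smul]
  rfl

theorem Flg.inK_sp (hA : Flg ρ a b) {y : B} (hy : a ≤ y) (hyb : y < b) :
    InK ρ b (rk y + 1) (sp rk ρ y) := hA.inK_cone hy hyb (inK_one _ _)

open Classical in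
/-- the incidence coefficients -/
noncomputable def ic (rk : B → ℕ) (x y : B) : ZMod 2 := if x < y ∧ rk y = rk x + 1 then 1 else 0

theorem ic_pos {x y : B} (h : x < y ∧ rk y = rk x + 1) : ic rk x y = 1 := if_pos h

theorem ic_neg {x y : B} (h : ¬ (x < y ∧ rk y = rk x + 1)) : ic rk x y = 0 := if_neg h

theorem Flg.ub_sp (h : IsSpherical rk) (hA : Flg ρ a b) {y : B} (hy : a ≤ y) (hyb : y < b)
    (hok : Ok rk (lo ρ y) y) : ub ρ (sp rk ρ y) = ∑ x ∈ Yb a b, ic rk x y • sp rk ρ x := by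
  classical
  have e1 : ub ρ (sp rk ρ y) = if y ∈ ρ then 0 else one rk (lo ρ y) y := by
    unfold sp
    rw [hA.ub_cone hy (inK_one _ _), hok.cyc, map_zero, zero_add]
  rw [e1]
  by_cases hyρ : y ∈ ρ
  · rw [if_pos hyρ]
    symm
    refine sum_eq_zero fun x hx => ?_
    rw [ic_neg, zero_smul]
    rintro ⟨h1, -⟩
    exact absurd (hA.le y hyρ) (not_le_of_gt (lt_of_le_of_lt (mem_Yb.1 hx).1 h1))
  · have hay := hA.lt_of hy hyρ
    have hA' : Flg ρ a y := ⟨hA.ch, hA.mem, hA.le, hay⟩
    rw [if_neg hyρ, hA.lo_eq hay, hA'.one_decomp h]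
    have hsub : Yb a y ⊆ Yb a b := by
      intro x hx
      obtain ⟨h1, h2⟩ := mem_Yb.1 hx
      exact mem_Yb.2 ⟨h1, h2.trans hyb⟩
    refine Eq.trans ?_ (sum_subset hsub ?_)
    · refine sum_congr rfl fun x hx => ?_
      obtain ⟨h1, h2⟩ := mem_Yb.1 hx
      by_cases hr : rk x + 1 = rk y
      · rw [if_pos hr, ic_pos ⟨h2, hr.symm⟩]
      · rw [if_neg hr, ic_neg (fun h' => hr h'.2.symm)]
    · intro x hx hx'
      rw [ic_neg, zero_smul]
      rintro ⟨h1, -⟩
      exact hx' (mem_Yb.2 ⟨(mem_Yb.1 hx).1, h1⟩)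

theorem pd_ic (f : B → ZMod 2) (hf : ∀ y, f y ≠ 0 → y < b) {x : B} (hx : a ≤ x) :
    pd rk f x = ∑ y ∈ Yb a b, f y * ic rk x y := by
  classical
  have e1 : pd rk f x = ∑ y, f y * ic rk x y := by
    rw [pd_eq, ← sum_subset (subset_univ (cov rk x))]
    · refine sum_congr rfl fun y hy => ?_
      rw [ic_pos (mem_cov.1 hy), mul_one]
    · intro y _ hy
      rw [ic_neg (fun h => hy (mem_cov.2 h)), mul_zero]
  rw [e1]
  symm
  refine sum_subset (subset_univ _) fun y _ hy => ?_
  by_cases h1 : f y = 0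
  · rw [h1, zero_mul]
  · rw [ic_neg, mul_zero]
    rintro ⟨h2, -⟩
    exact hy (mem_Yb.2 ⟨hx.trans h2.le, hf y h1⟩)

theorem Flg.ub_Phi (h : IsSpherical rk) (hA : Flg ρ a b)
    (ih : ∀ y, a ≤ y → y < b → Ok rk (lo ρ y) y) (f : B → ZMod 2)
    (hf : ∀ y, f y ≠ 0 → y < b) :
    ub ρ (Phi rk ρ a b f) = Phi rk ρ a b (pd rk f) := by
  unfold Phi
  rw [map_sum]
  have h1 : ∀ y ∈ Yb a b, ub ρ (f y • sp rk ρ y) = ∑ x ∈ Yb a b,
      (f y * ic rk x y) • sp rk ρ x := by
    intro y hy
    obtain ⟨h2, h3⟩ := mem_Yb.1 hy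
    rw [map_smul, hA.ub_sp h h2 h3 (ih y h2 h3), smul_sum]
    refine sum_congr rfl fun x _ => ?_
    rw [smul_smul]
  rw [sum_congr rfl h1, sum_comm]
  refine sum_congr rfl fun x hx => ?_
  rw [← sum_smul, pd_ic f hf (mem_Yb.1 hx).1]

theorem Phi_congr {f g : B → ZMod 2} (hfg : ∀ x, a ≤ x → x < b → f x = g x) :
    Phi rk ρ a b f = Phi rk ρ a b g := by
  unfold Phi
  refine sum_congr rfl fun x hx => ?_
  obtain ⟨h1, h2⟩ := mem_Yb.1 hx
  rw [hfg x h1 h2]

theorem sl_Phi (f : B → ZMod 2) {x : B} (hx : a ≤ x) (hxb : x < b) :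
    sl x (Phi rk ρ a b f) = f x • one rk (lo ρ x) x := by
  unfold Phi
  rw [map_sum]
  have h1 : ∀ y ∈ Yb a b, sl x (f y • sp rk ρ y) =
      if x = y then f x • one rk (lo ρ x) x else 0 := by
    intro y _
    unfold sp
    rw [map_smul, sl_cone (fun σ hσ => ((inK_one _ _) σ hσ).2.2.1)]
    by_cases hxy : x = y
    · rw [if_pos hxy, if_pos hxy, hxy]
    · rw [if_neg hxy, if_neg hxy, smul_zero]
  rw [sum_congr rfl h1, sum_ite_eq, if_pos (mem_Yb.2 ⟨hx, hxb⟩)]

theorem Phi_inj (ih : ∀ y, a ≤ y → y < b → Ok rk (lo ρ y) y) {f : B → ZMod 2}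
    (hf : Phi rk ρ a b f = 0) {x : B} (hx : a ≤ x) (hxb : x < b) : f x = 0 := by
  have h1 := sl_Phi (rk := rk) (ρ := ρ) f hx hxb
  rw [hf, map_zero] at h1
  rcases smul_eq_zero.1 h1.symm with h2 | h2
  · exact h2
  · exact absurd h2 (ih x hx hxb).ne

/-- a cycle without slices of rank larger than `M` -/
theorem Flg.core (h : IsSpherical rk) (hA : Flg ρ a b)
    (ih : ∀ y, a ≤ y → y < b → Ok rk (lo ρ y) y) {M : ℕ} {z : Finset B → ZMod 2}
    (hz : InK ρ b (M + 1) z) (hc : ub ρ z = 0) (hs : ∀ v, a < v → M < rk v → sl v z = 0)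
    (hra : rk a ≤ M) : ∃ f : B → ZMod 2, (∀ y, f y ≠ 0 → (a ≤ y ∧ y < b) ∧ rk y = M) ∧
      z = Phi rk ρ a b f ∧ ∀ x, a ≤ x → pd rk f x = 0 := by
  classical
  have hex : ∀ y, ∃ c : ZMod 2, ((a ≤ y ∧ y < b) ∧ rk y = M) →
      sl y z = c • one rk (lo ρ y) y := by
    intro y
    by_cases hy : (a ≤ y ∧ y < b) ∧ rk y = M
    · obtain ⟨⟨h1, h2⟩, h3⟩ := hy
      have h4 := hA.inK_sl h1 hz
      have h5 := hA.ub_sl h1 hz hc (fun v hv => hs v (lt_of_le_of_lt h1 hv) (by
        have := h.lt hv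
        omega))
      rw [← h3] at h4
      obtain ⟨c, hc⟩ := (ih y h1 h2).top _ h4 h5
      exact ⟨c, fun _ => hc⟩
    · exact ⟨0, fun h => absurd h hy⟩
  choose c hc' using hex
  obtain ⟨f, hf⟩ : ∃ f : B → ZMod 2, f = fun y => if (a ≤ y ∧ y < b) ∧ rk y = M then c y else 0 :=
    ⟨_, rfl⟩
  have hfz : ∀ y, f y ≠ 0 → (a ≤ y ∧ y < b) ∧ rk y = M := by
    intro y hy
    by_contra h1
    apply hy
    rw [hf]
    exact if_neg h1
  have hzf : z = Phi rk ρ a b f := by
    refine (hA.decomp hz).trans (sum_congr rfl fun y hy => ?_)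
    obtain ⟨h1, h2⟩ := mem_Yb.1 hy
    unfold sp
    rw [← map_smul]
    congr 1
    rcases lt_trichotomy (rk y) M with h3 | h3 | h3
    · have h4 : f y = 0 := by
        by_contra h5
        have := (hfz y h5).2
        omega
      rw [h4, zero_smul]
      funext σ
      by_contra hne
      obtain ⟨-, h5, h6, h7⟩ := hA.inK_sl h1 hz σ hne
      have := h5.card_le h h6
      omega
    · have h4 : f y = c y := by
        rw [hf]
        exact if_pos ⟨⟨h1, h2⟩, h3⟩
      rw [h4]
      exact hc' y ⟨⟨h1, h2⟩, h3⟩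
    · have h4 : f y = 0 := by
        by_contra h5
        have := (hfz y h5).2
        omega
      rw [h4, zero_smul]
      refine hs y (lt_of_le_of_ne h1 ?_) h3
      rintro rfl
      omega
  refine ⟨f, hfz, hzf, fun x hx => ?_⟩
  by_cases hxb : x < b
  · refine Phi_inj ih (f := pd rk f) ?_ hx hxb
    rw [← hA.ub_Phi h ih f (fun y hy => (hfz y hy).1.2), ← hzf, hc]
  · rw [pd_eq]
    refine sum_eq_zero fun y hy => ?_
    by_contra h1
    exact hxb ((mem_cov.1 hy).1.trans (hfz y h1).1.2)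

theorem inK_Phi (hA : Flg ρ a b) {m : ℕ} {f : B → ZMod 2}
    (hf : ∀ y, f y ≠ 0 → rk y = m) : InK ρ b (m + 1) (Phi rk ρ a b f) := by
  unfold Phi
  refine InK.sum fun y hy => ?_
  obtain ⟨h1, h2⟩ := mem_Yb.1 hy
  by_cases h0 : f y = 0
  · rw [h0, zero_smul]
    exact InK.zero
  · have h3 := hA.inK_sp (rk := rk) h1 h2
    rw [hf y h0] at h3
    exact h3.smul _

/-- the induction step -/
theorem Flg.step (h : IsSpherical rk) (hA : Flg ρ a b)
    (ih : ∀ y, a ≤ y → y < b → Ok rk (lo ρ y) y) : Ok rk ρ b where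
  low m hm z hz hc := by
    rcases Nat.eq_zero_or_pos m with h0 | h0
    · refine ⟨0, InK.zero, ?_⟩
      rw [map_zero]
      funext σ
      by_contra hne
      obtain ⟨h1, -, -, h2⟩ := hz σ (fun h => hne (by rw [h]; rfl))
      rw [h0, card_eq_zero] at h2
      rw [h2] at h1
      exact absurd (h1 hA.mem) (notMem_empty a)
    · obtain ⟨M, rfl⟩ : ∃ M, m = M + 1 := ⟨m - 1, by omega⟩
      obtain ⟨u, hu, hs⟩ := hA.killAll h ih hz hc
      have hz' : InK ρ b (M + 1) (z + ub ρ u) := hz.add hu.ub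
      have hc' : ub ρ (z + ub ρ u) = 0 := by rw [map_add, hc, ub_ub, add_zero]
      obtain ⟨y, hy, hyz⟩ : ∃ y, InK ρ b (M + 2) y ∧ ub ρ y = z + ub ρ u := by
        by_cases hra : rk a ≤ M
        · obtain ⟨f, hf, hzf, hpf⟩ := hA.core h ih hz' hc' hs hra
          obtain ⟨g, hg, hgf⟩ := h.graded (a := a) (w := b) M hra (by omega) f
            (fun y hy => ⟨(hf y hy).1.1, (hf y hy).1.2.le, (hf y hy).2⟩) hpf
          refine ⟨Phi rk ρ a b g, inK_Phi hA fun y hy => (hg y hy).2.2, ?_⟩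
          rw [hA.ub_Phi h ih g, hzf]
          · exact Phi_congr fun x hx _ => hgf x hx
          · intro y hy
            obtain ⟨-, h2, h3⟩ := hg y hy
            refine lt_of_le_of_ne h2 ?_
            rintro rfl
            omega
        · have h1 : z + ub ρ u = cone a (sl a (z + ub ρ u)) := by
            refine (hA.decomp hz').trans ?_
            rw [sum_eq_single_of_mem a (mem_Yb.2 ⟨le_rfl, hA.lt⟩)]
            intro y hy hya
            have h2 : a < y := lt_of_le_of_ne (mem_Yb.1 hy).1 (Ne.symm hya)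
            rw [hs y h2 (by have := h.lt h2; omega), map_zero]
          obtain ⟨w, hw, hw'⟩ := (ih a le_rfl hA.lt).low M (by omega) _
            (hA.inK_sl le_rfl hz') (hA.ub_sl le_rfl hz' hc' fun v hv => hs v hv (by
              have := h.lt hv
              omega))
          refine ⟨cone a w, hA.inK_cone le_rfl hA.lt hw, ?_⟩
          rw [hA.ub_cone le_rfl hw, hw', if_pos hA.mem, add_zero, ← h1]
      refine ⟨y + u, hy.add hu, ?_⟩
      rw [map_add, hyz, add_assoc, add_self', add_zero]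
  top z hz hc := by
    obtain ⟨M, hM⟩ : ∃ M, rk b = M + 1 := ⟨rk b - 1, by have := h.lt hA.lt; omega⟩
    have hra : rk a ≤ M := by have := h.lt hA.lt; omega
    rw [hM] at hz
    obtain ⟨f, hf, hzf, hpf⟩ := hA.core h ih hz hc (fun v _ hr => sl_zero hz fun hvb => by
      have := h.lt hvb
      omega) hra
    obtain ⟨g, hg, hgf⟩ := h.graded (a := a) (w := b) M hra (by omega) f
      (fun y hy => ⟨(hf y hy).1.1, (hf y hy).1.2.le, (hf y hy).2⟩) hpf
    have hgb : ∀ y, g y ≠ 0 → y = b := by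
      intro y hy
      obtain ⟨-, h2, h3⟩ := hg y hy
      by_contra h4
      have := h.lt (lt_of_le_of_ne h2 h4)
      omega
    refine ⟨g b, ?_⟩
    rw [hzf, hA.one_decomp h, smul_sum]
    unfold Phi
    refine sum_congr rfl fun x hx => ?_
    obtain ⟨h1, h2⟩ := mem_Yb.1 hx
    rw [smul_smul]
    congr 1
    rw [← hgf x h1, pd_eq]
    by_cases hr : rk x + 1 = rk b
    · rw [if_pos hr, mul_one, sum_eq_single_of_mem b (mem_cov.2 ⟨h2, hr.symm⟩)]
      intro y _ hy
      by_contra h3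
      exact hy (hgb y h3)
    · rw [if_neg hr, mul_zero]
      refine sum_eq_zero fun y hy => ?_
      by_contra h3
      have h4 := hgb y h3
      have h5 := (mem_cov.1 hy).2
      rw [h4] at h5
      exact hr h5.symm
  cyc := by
    classical
    obtain ⟨c, hc⟩ : ∃ c : B → ZMod 2, c = fun x => if (a ≤ x ∧ x < b) ∧ rk x + 1 = rk b then 1
      else 0 := ⟨_, rfl⟩
    have h1 : one rk ρ b = Phi rk ρ a b c := by
      rw [hA.one_decomp h]
      unfold Phi
      refine sum_congr rfl fun x hx => ?_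
      rw [hc]
      congr 1
      show (if rk x + 1 = rk b then (1 : ZMod 2) else 0) =
        if (a ≤ x ∧ x < b) ∧ rk x + 1 = rk b then 1 else 0
      by_cases hr : rk x + 1 = rk b
      · rw [if_pos hr, if_pos ⟨mem_Yb.1 hx, hr⟩]
      · rw [if_neg hr, if_neg (fun h' => hr h'.2)]
    have hcb : ∀ y, c y ≠ 0 → (a ≤ y ∧ y < b) ∧ rk y + 1 = rk b := by
      intro y hy
      by_contra h2
      apply hy
      rw [hc]
      exact if_neg h2
    rw [h1, hA.ub_Phi h ih c (fun y hy => (hcb y hy).1.2)]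
    unfold Phi
    refine sum_eq_zero fun x hx => ?_
    obtain ⟨h2, h3⟩ := mem_Yb.1 hx
    have h4 : pd rk c x = 0 := by
      rw [pd_eq]
      by_cases hr : rk b = rk x + 2
      · obtain ⟨p, q, hpq, hthin⟩ := h.thin h3 hr
        have hsub : ({p, q} : Finset B) ⊆ cov rk x := by
          intro y hy
          rw [mem_insert, mem_singleton] at hy
          obtain ⟨h5, h6⟩ := (hthin y).2 hy
          have h7 := h.lt h5
          have h8 := h.lt h6
          exact mem_cov.2 ⟨h5, by omega⟩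
        rw [← sum_subset hsub, sum_pair hpq]
        · have h5 : ∀ y, (y = p ∨ y = q) → c y = 1 := by
            intro y hy
            obtain ⟨h5, h6⟩ := (hthin y).2 hy
            have h7 := h.lt h5
            have h8 := h.lt h6
            rw [hc]
            exact if_pos ⟨⟨h2.trans h5.le, h6⟩, by omega⟩
          rw [h5 p (Or.inl rfl), h5 q (Or.inr rfl)]
          decide
        · intro y hy hy'
          by_contra h5
          apply hy'
          rw [mem_insert, mem_singleton]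
          exact (hthin y).1 ⟨(mem_cov.1 hy).1, (hcb y h5).1.2⟩
      · refine sum_eq_zero fun y hy => ?_
        by_contra h5
        have h6 := (hcb y h5).2
        have h7 := (mem_cov.1 hy).2
        omega
    rw [h4, zero_smul]
  ne := by
    obtain ⟨x, hx, hxb, hr⟩ := h.exists_lower hA.lt
    intro h0
    have h1 := hA.sl_one h hx hxb.lt
    rw [h0, map_zero, if_pos hr, one_smul] at h1
    exact (ih x hx hxb.lt).ne h1.symm

/-- the least element -/
theorem ok_bot (bt : B) (hbt : ∀ x, bt ≤ x) (h0 : rk bt = 0) : Ok rk ∅ bt where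
  low m hm := by omega
  top z hz _ := by
    classical
    rw [h0] at hz
    refine ⟨z ∅, ?_⟩
    funext σ
    rw [Pi.smul_apply, smul_eq_mul]
    by_cases hσ : σ = ∅
    · rw [hσ]
      unfold one
      rw [if_pos, mul_one]
      exact ⟨Finset.Subset.refl _, fun x hx => absurd hx (notMem_empty x),
        fun x hx => absurd hx (notMem_empty x), by rw [h0]; rfl⟩
    · have h1 : z σ = 0 := by
        by_contra hne
        exact hσ (card_eq_zero.1 (hz σ hne).2.2.2)
      have h2 : one rk ∅ bt σ = 0 := by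
        by_contra hne
        have := (inK_one (rk := rk) ∅ bt σ hne).2.2.2
        rw [h0] at this
        exact hσ (card_eq_zero.1 this)
      rw [h1, h2, mul_zero]
  cyc := by
    funext τ
    rw [ub_pos (empty_subset τ), Pi.zero_apply]
    refine sum_eq_zero fun v _ => ?_
    by_contra hne
    exact absurd ((inK_one (rk := rk) ∅ bt _ hne).2.2.1 v (mem_insert_self _ _))
      (not_lt_of_ge (hbt v))
  ne := by
    classical
    intro h
    have h1 := congrFun h ∅
    unfold one at h1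
    rw [if_pos] at h1
    · exact absurd h1 (by simp)
    · exact ⟨Finset.Subset.refl _, fun x hx => absurd hx (notMem_empty x),
        fun x hx => absurd hx (notMem_empty x), by rw [h0]; rfl⟩

/-- **Order complexes of spherical posets.** -/
theorem ok_all (h : IsSpherical rk) (bt : B) (hbt : ∀ x, bt ≤ x) (h0 : rk bt = 0) :
    ∀ (k : ℕ) (b : B) (ρ : Finset B), rk b = k → IsCh ρ → (∀ x ∈ ρ, x < b) →
      (b ≠ bt → bt ∈ ρ) → Ok rk ρ b := by
  intro k
  induction k using Nat.strong_induction_on with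
  | _ k ih =>
    intro b ρ hk hρ hb hbt'
    by_cases hbb : b = bt
    · have h1 : ρ = ∅ := by
        refine eq_empty_of_forall_notMem fun x hx => ?_
        exact absurd (hb x hx) (by rw [hbb]; exact not_lt_of_ge (hbt x))
      rw [h1, hbb]
      exact ok_bot bt hbt h0
    · have h1 := hbt' hbb
      obtain ⟨a, ha, ha'⟩ := hρ.exists_top ⟨bt, h1⟩
      have hA : Flg ρ a b := ⟨hρ, ha, ha', hb a ha⟩
      refine hA.step h fun y _ hyb => ih (rk y) (by rw [← hk]; exact h.lt hyb) y (lo ρ y) rfl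
        (hρ.mono fun x hx => (mem_lo.1 hx).1) (fun x hx => (mem_lo.1 hx).2) fun hy => ?_
      exact mem_lo.2 ⟨h1, lt_of_le_of_ne (hbt y) (Ne.symm hy)⟩

end Pool.Agent.H4.HY
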