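import Pool.Agent.H4.HY.LinkRank
import Pool.Agent.H4.HY.OrdMain
import Pool.Agent.H19.Hyp.Defs

/-!
# Project HB: the order complex of a Gorenstein* poset over the field of two elements is a real
homology sphere
-/

set_option autoImplicit false
set_option linter.unusedSectionVars false

open Finset

namespace Pool.Agent.H4.HY

open Pool.Agent.H4 Pool.Agent.H4.Singer Pool.Agent.H4.Singer2 Pool.Agent.H85.Fold
  Pool.Agent.H19.Hyp

section ext

variable {P B : Type} [Fintype P] [DecidableEq P] [PartialOrder B] [Fintype B] [DecidableEq B]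

/-- `B` consists of `P`, a least element and a largest element; `G` is the comparability graph -/
structure Ext (G : SimpleGraph P) (ι : P → B) (bt tp : B) : Prop where
  inj : Function.Injective ι
  bot : ∀ x, bt ≤ x
  top : ∀ x, x ≤ tp
  cases : ∀ x, x = bt ∨ x = tp ∨ ∃ p, ι p = x
  nb : ∀ p, ι p ≠ bt
  nt : ∀ p, ι p ≠ tp
  ne : bt ≠ tp
  adj : ∀ p q, G.Adj p q ↔ ι p < ι q ∨ ι q < ι p

/-- from chains in `P` to chains in `B` -/
def Lc (ι : P → B) (bt : B) (σ : Finset P) : Finset B := insert bt (σ.image ι)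

/-- from chains in `B` to chains in `P` -/
def pl (ι : P → B) (τ : Finset B) : Finset P := univ.filter fun p => ι p ∈ τ

variable {G : SimpleGraph P} {ι : P → B} {bt tp : B}

theorem mem_pl {τ : Finset B} {p : P} : p ∈ pl ι τ ↔ ι p ∈ τ := by
  unfold pl
  rw [mem_filter]
  exact ⟨fun h => h.2, fun h => ⟨mem_univ _, h⟩⟩

theorem Ext.mem_Lc (hE : Ext G ι bt tp) {σ : Finset P} {p : P} : ι p ∈ Lc ι bt σ ↔ p ∈ σ := by
  unfold Lc
  rw [mem_insert, mem_image]
  constructor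
  · rintro (h | ⟨q, hq, hqp⟩)
    · exact absurd h (hE.nb p)
    · rwa [← hE.inj hqp]
  · intro h
    exact Or.inr ⟨p, h, rfl⟩

theorem Ext.pl_Lc (hE : Ext G ι bt tp) (σ : Finset P) : pl ι (Lc ι bt σ) = σ := by
  ext p
  rw [mem_pl, hE.mem_Lc]

theorem bt_mem (σ : Finset P) : bt ∈ Lc ι bt σ := mem_insert_self _ _

theorem Ext.tp_notMem (hE : Ext G ι bt tp) (σ : Finset P) : tp ∉ Lc ι bt σ := by
  unfold Lc
  rw [mem_insert, mem_image]
  rintro (h | ⟨q, -, hq⟩)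
  · exact hE.ne h.symm
  · exact hE.nt q hq

theorem Ext.Lc_pl (hE : Ext G ι bt tp) {τ : Finset B} (h1 : bt ∈ τ) (h2 : tp ∉ τ) :
    Lc ι bt (pl ι τ) = τ := by
  ext x
  rcases hE.cases x with rfl | rfl | ⟨p, rfl⟩
  · exact ⟨fun _ => h1, fun _ => bt_mem _⟩
  · exact ⟨fun h => absurd h (hE.tp_notMem _), fun h => absurd h h2⟩
  · rw [hE.mem_Lc, mem_pl]

theorem Ext.card_Lc (hE : Ext G ι bt tp) (σ : Finset P) : (Lc ι bt σ).card = σ.card + 1 := by
  unfold Lc
  rw [card_insert_of_notMem, card_image_of_injective _ hE.inj]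
  intro h
  obtain ⟨p, -, hp⟩ := mem_image.1 h
  exact hE.nb p hp

theorem Lc_insert (p : P) (σ : Finset P) : Lc ι bt (insert p σ) = insert (ι p) (Lc ι bt σ) := by
  unfold Lc
  rw [image_insert, Finset.insert_comm]

theorem Ext.isCh_iff (hE : Ext G ι bt tp) (σ : Finset P) :
    IsCh (Lc ι bt σ) ↔ Pool.Agent.H85.Fold.Cl G σ := by
  constructor
  · intro h u hu v hv huv
    rw [hE.adj]
    have hne : ι u ≠ ι v := fun h' => huv (hE.inj h')
    rcases h _ (hE.mem_Lc.2 hu) _ (hE.mem_Lc.2 hv) with h1 | h1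
    · exact Or.inl (lt_of_le_of_ne h1 hne)
    · exact Or.inr (lt_of_le_of_ne h1 hne.symm)
  · intro h x hx y hy
    rcases hE.cases x with h1 | h1 | ⟨p, h1⟩
    · exact Or.inl (by rw [h1]; exact hE.bot y)
    · exact absurd (h1 ▸ hx) (hE.tp_notMem _)
    · rcases hE.cases y with h2 | h2 | ⟨q, h2⟩
      · exact Or.inr (by rw [h2]; exact hE.bot x)
      · exact absurd (h2 ▸ hy) (hE.tp_notMem _)
      · rw [← h1] at hx ⊢
        rw [← h2] at hy ⊢
        rw [hE.mem_Lc] at hx hy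
        by_cases hpq : p = q
        · exact Or.inl (by rw [hpq])
        · rcases (hE.adj p q).1 (h p hx q hy hpq) with h3 | h3
          · exact Or.inl h3.le
          · exact Or.inr h3.le

theorem Ext.lt_tp (hE : Ext G ι bt tp) {σ : Finset P} {x : B} (hx : x ∈ Lc ι bt σ) : x < tp :=
  lt_of_le_of_ne (hE.top x) fun h => hE.tp_notMem σ (h ▸ hx)

theorem Ext.sub_iff (hE : Ext G ι bt tp) {ρ σ : Finset P} : Lc ι bt ρ ⊆ Lc ι bt σ ↔ ρ ⊆ σ := by
  constructor
  · intro h p hp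
    exact hE.mem_Lc.1 (h (hE.mem_Lc.2 hp))
  · intro h
    exact insert_subset_insert _ (image_subset_image h)

/-- from chains of `B` to chains of the link -/
def dnB (ι : P → B) (bt : B) (ρ : Finset P) (Y : Finset B → ZMod 2) : Finset P → ZMod 2 :=
  fun σ => if Disjoint σ ρ then Y (Lc ι bt (σ ∪ ρ)) else 0

/-- from chains of the link to chains of `B` -/
def upB (ι : P → B) (bt tp : B) (ρ : Finset P) (z : Finset P → ZMod 2) : Finset B → ZMod 2 :=
  fun τ => if Lc ι bt ρ ⊆ τ ∧ tp ∉ τ then z (pl ι τ \ ρ) else 0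

theorem dnB_pos {ρ σ : Finset P} (h : Disjoint σ ρ) (Y : Finset B → ZMod 2) :
    dnB ι bt ρ Y σ = Y (Lc ι bt (σ ∪ ρ)) := if_pos h

theorem dnB_neg {ρ σ : Finset P} (h : ¬ Disjoint σ ρ) (Y : Finset B → ZMod 2) :
    dnB ι bt ρ Y σ = 0 := if_neg h

theorem Ext.dn_mem (hE : Ext G ι bt tp) {ρ : Finset P} {j : ℕ} {Y : Finset B → ZMod 2}
    (hY : InK (Lc ι bt ρ) tp (j + ρ.card + 1) Y) :
    dnB ι bt ρ Y ∈ supS (ZMod 2) (PL G ρ j) := by
  intro σ hσ
  by_cases hd : Disjoint σ ρ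
  · rw [dnB_pos hd] at hσ
    obtain ⟨-, h2, -, h4⟩ := hY _ hσ
    rw [hE.card_Lc, card_union_of_disjoint hd] at h4
    exact ⟨hd, (hE.isCh_iff _).1 h2, by omega⟩
  · exact absurd (dnB_neg hd Y) hσ

theorem Ext.bd_dn (hE : Ext G ι bt tp) (ν : P → ℕ) {ρ : Finset P} {m : ℕ}
    {Y : Finset B → ZMod 2} (hY : InK (Lc ι bt ρ) tp m Y) :
    bdK (ZMod 2) ν (dnB ι bt ρ Y) = dnB ι bt ρ (ub (Lc ι bt ρ) Y) := by
  funext κ
  rw [bdK_apply]
  simp only [sg_char_two, one_mul]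
  by_cases hd : Disjoint κ ρ
  · rw [dnB_pos hd, ub_pos (hE.sub_iff.2 subset_union_right)]
    have h1 : ((κ ∪ ρ)ᶜ).image ι ⊆ (Lc ι bt (κ ∪ ρ))ᶜ := by
      intro x hx
      obtain ⟨p, hp, rfl⟩ := mem_image.1 hx
      rw [mem_compl] at hp ⊢
      rwa [hE.mem_Lc]
    rw [← sum_subset h1, sum_image (fun x _ y _ h => hE.inj h)]
    · have h2 : (κ ∪ ρ)ᶜ ⊆ κᶜ := compl_subset_compl.2 subset_union_left
      rw [← sum_subset h2]
      · refine sum_congr rfl fun p hp => ?_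
        rw [mem_compl, mem_union, not_or] at hp
        rw [dnB_pos, insert_union, Lc_insert]
        rw [disjoint_insert_left]
        exact ⟨hp.2, hd⟩
      · intro p hp hp'
        rw [mem_compl] at hp hp'
        rw [not_not, mem_union] at hp'
        refine dnB_neg ?_ Y
        rw [disjoint_insert_left]
        exact fun h => h.1 (hp'.resolve_left hp)
    · intro x hx hx'
      by_contra hne
      have h3 := (hY _ hne).2.2.1
      rcases hE.cases x with h4 | h4 | ⟨p, h4⟩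
      · exact (mem_compl.1 hx) (by rw [h4]; exact bt_mem _)
      · exact lt_irrefl tp (h3 tp (by rw [h4]; exact mem_insert_self _ _))
      · apply hx'
        rw [← h4] at hx ⊢
        refine mem_image_of_mem _ ?_
        rw [mem_compl] at hx ⊢
        rwa [hE.mem_Lc] at hx
  · rw [dnB_neg hd]
    refine sum_eq_zero fun v _ => dnB_neg (fun h => hd ?_) Y
    exact disjoint_of_subset_left (subset_insert _ _) h

theorem Ext.up_mem (hE : Ext G ι bt tp) {ρ : Finset P} {j : ℕ} {z : Finset P → ZMod 2}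
    (hz : z ∈ supS (ZMod 2) (PL G ρ j)) :
    InK (Lc ι bt ρ) tp (j + ρ.card + 1) (upB ι bt tp ρ z) := by
  intro τ hτ
  by_cases h : Lc ι bt ρ ⊆ τ ∧ tp ∉ τ
  · have h0 : upB ι bt tp ρ z τ = z (pl ι τ \ ρ) := if_pos h
    rw [h0] at hτ
    obtain ⟨h1, h2, h3⟩ := hz _ hτ
    have h4 : ρ ⊆ pl ι τ := fun p hp => mem_pl.2 (h.1 (hE.mem_Lc.2 hp))
    rw [sdiff_union_of_subset h4] at h2
    have h5 := hE.Lc_pl (h.1 (bt_mem ρ)) h.2
    have h6 := (hE.isCh_iff _).2 h2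
    have h7 := hE.card_Lc (pl ι τ)
    rw [h5] at h6 h7
    rw [card_sdiff_of_subset h4] at h3
    have h8 := card_le_card h4
    refine ⟨h.1, h6, fun x hx => ?_, by omega⟩
    exact lt_of_le_of_ne (hE.top x) fun h' => h.2 (h' ▸ hx)
  · exact absurd (if_neg h) hτ

theorem Ext.dn_up (hE : Ext G ι bt tp) {ρ : Finset P} {j : ℕ} {z : Finset P → ZMod 2}
    (hz : z ∈ supS (ZMod 2) (PL G ρ j)) : dnB ι bt ρ (upB ι bt tp ρ z) = z := by
  funext σ
  by_cases hd : Disjoint σ ρ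
  · rw [dnB_pos hd]
    have h1 : upB ι bt tp ρ z (Lc ι bt (σ ∪ ρ)) = z (pl ι (Lc ι bt (σ ∪ ρ)) \ ρ) :=
      if_pos ⟨hE.sub_iff.2 subset_union_right, hE.tp_notMem _⟩
    rw [h1, hE.pl_Lc, union_sdiff_right, sdiff_eq_self_of_disjoint hd]
  · rw [dnB_neg hd]
    by_contra hne
    exact hd (hz σ (fun h => hne h.symm)).1

theorem Ext.dn_inj (hE : Ext G ι bt tp) {ρ : Finset P} {m : ℕ} {Y : Finset B → ZMod 2}
    (hY : InK (Lc ι bt ρ) tp m Y) (h : dnB ι bt ρ Y = 0) : Y = 0 := by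
  funext τ
  by_contra hne
  obtain ⟨h1, -, h3, -⟩ := hY τ hne
  have h4 : ρ ⊆ pl ι τ := fun p hp => mem_pl.2 (h1 (hE.mem_Lc.2 hp))
  have h5 := hE.Lc_pl (h1 (bt_mem ρ)) (fun h' => lt_irrefl tp (h3 tp h'))
  have h6 := congrFun h (pl ι τ \ ρ)
  rw [dnB_pos sdiff_disjoint, sdiff_union_of_subset h4, h5] at h6
  exact hne h6

theorem Ext.exL_two (hE : Ext G ι bt tp) {rk : B → ℕ} {n : ℕ} (ht : rk tp = n + 1) (ν : P → ℕ)
    {ρ : Finset P} (hok : Ok rk (Lc ι bt ρ) tp) {j : ℕ} (hj : j + ρ.card < n) :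
    ExL (ZMod 2) ν G ρ j := by
  intro z hz hbd
  have hZ := hE.up_mem hz
  have h1 : ub (Lc ι bt ρ) (upB ι bt tp ρ z) = 0 := by
    refine hE.dn_inj hZ.ub ?_
    rw [← hE.bd_dn ν hZ, hE.dn_up hz, hbd]
  obtain ⟨Y, hY, hYZ⟩ := hok.low _ (by omega) _ hZ h1
  refine ⟨dnB ι bt ρ Y, hE.dn_mem (j := j + 1) ?_, ?_⟩
  · have e : j + 1 + ρ.card + 1 = j + ρ.card + 1 + 1 := by omega
    rw [e]
    exact hY
  · rw [hE.bd_dn ν hY, hYZ, hE.dn_up hz]

theorem Ext.zd_two (hE : Ext G ι bt tp) {rk : B → ℕ} {n : ℕ} (ht : rk tp = n + 1) (ν : P → ℕ)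
    {ρ : Finset P} (hok : Ok rk (Lc ι bt ρ) tp) {j : ℕ} (hj : j + ρ.card = n) :
    zd (ZMod 2) ν G ρ j = 1 := by
  have h1 : InK (Lc ι bt ρ) tp (j + ρ.card + 1) (one rk (Lc ι bt ρ) tp) := by
    have h := inK_one (rk := rk) (Lc ι bt ρ) tp
    rw [ht, ← hj] at h
    exact h
  have h2 : bdK (ZMod 2) ν (dnB ι bt ρ (one rk (Lc ι bt ρ) tp)) = 0 := by
    rw [hE.bd_dn ν h1, hok.cyc]
    funext σ
    unfold dnB
    split_ifs <;> rfl
  refine finrank_eq_one_iff'.2 ⟨⟨dnB ι bt ρ (one rk (Lc ι bt ρ) tp), hE.dn_mem h1,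
    LinearMap.mem_ker.2 h2⟩, fun h => ?_, fun z => ?_⟩
  · exact hok.ne (hE.dn_inj h1 (congrArg Subtype.val h))
  · obtain ⟨z, hz, hbd⟩ := z
    have hZ := hE.up_mem hz
    have h3 : ub (Lc ι bt ρ) (upB ι bt tp ρ z) = 0 := by
      refine hE.dn_inj hZ.ub ?_
      rw [← hE.bd_dn ν hZ, hE.dn_up hz, LinearMap.mem_ker.1 hbd]
    rw [hj, ← ht] at hZ
    obtain ⟨c, hc⟩ := hok.top _ hZ h3
    refine ⟨c, Subtype.ext ?_⟩
    show c • dnB ι bt ρ (one rk (Lc ι bt ρ) tp) = z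
    rw [← hE.dn_up hz, hc]
    funext σ
    rw [Pi.smul_apply]
    by_cases hd : Disjoint σ ρ
    · rw [dnB_pos hd, dnB_pos hd, Pi.smul_apply]
    · rw [dnB_neg hd, dnB_neg hd, smul_zero]

/-- The comparability graph of a Gorenstein* poset is a real homology sphere. -/
theorem Ext.sphere (hE : Ext G ι bt tp) {rk : B → ℕ} {n : ℕ} (h : IsSpherical rk)
    (h0 : rk bt = 0) (ht : rk tp = n + 1) : IsHomologySphere G n := by
  have hok : ∀ ρ, Pool.Agent.H85.Fold.Cl G ρ → Ok rk (Lc ι bt ρ) tp := fun ρ hρ =>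
    ok_all h bt hE.bot h0 _ tp (Lc ι bt ρ) rfl ((hE.isCh_iff ρ).2 hρ) (fun x hx => hE.lt_tp hx)
      (fun _ => bt_mem ρ)
  refine isHomologySphere_of_field (K := ZMod 2) G n (fun σ hσ => ?_)
    (fun ν _ ρ hρ j hj => hE.exL_two ht ν (hok ρ hρ) hj)
    (fun ν _ ρ hρ j hj => hE.zd_two ht ν (hok ρ hρ) hj)
  have h1 := ((hE.isCh_iff σ).2 hσ).card_le h (b := tp) (fun x hx => hE.lt_tp hx)
  rw [hE.card_Lc, ht] at h1
  omega

end ext

/-- The order complex of a set of labels which is Gorenstein* of rank `n` over the field of two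
elements is a real homology sphere of dimension `n - 1`. -/
theorem sphere_of_spherical {L : Type} [PartialOrder L] [Fintype L] [DecidableEq L]
    (G : SimpleGraph L) (rk : L → ℕ) (n : ℕ) (S : Finset L)
    (hG : ∀ u ∈ S, ∀ v ∈ S, G.Adj u v ↔ u < v ∨ v < u) (h : IsSpherical (rkT rk n S)) :
    IsHomologySphere (G.comap (Subtype.val : {v // v ∈ S} → L)) n := by
  classical
  have hE : Ext (G.comap (Subtype.val : {v // v ∈ S} → L))
      (fun p => ((p : WithBot {w : L // w ∈ S}) : WithTop (WithBot {w : L // w ∈ S})))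
      (⊥ : WithTop (WithBot {w : L // w ∈ S})) ⊤ := by
    refine ⟨fun p q hpq => ?_, fun x => bot_le, fun x => le_top, fun x => ?_, fun p hp => ?_,
      fun p hp => ?_, bot_ne_top, fun p q => ?_⟩
    · exact WithBot.coe_injective (WithTop.coe_injective hpq)
    · induction x using WithTop.recTopCoe with
      | top => exact Or.inr (Or.inl rfl)
      | coe x =>
        induction x using WithBot.recBotCoe with
        | bot => exact Or.inl rfl
        | coe x => exact Or.inr (Or.inr ⟨x, rfl⟩)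
    · exact WithBot.coe_ne_bot (WithTop.coe_injective hp)
    · exact WithTop.coe_ne_top hp
    · rw [SimpleGraph.comap_adj, hG p.1 p.2 q.1 q.2]
      simp only [WithTop.coe_lt_coe, WithBot.coe_lt_coe]
      exact Iff.rfl
  exact hE.sphere h rfl rfl

end Pool.Agent.H4.HY
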