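import Pool.Agent.H4.HY.GenCol
import Pool.Agent.H19.Hyp.Defs

/-!
# Project HB: the transfer theorem, in terms of a colouring of the labels
-/

set_option autoImplicit false

namespace Pool.Agent.H4.HY

open Pool.Agent.H4.Singer Pool.Agent.H19.Cub Pool.Agent.H19.Hyp

/-- **The transfer theorem.** Let `Q` be a finite special cube complex and `col` a colouring of its
labels such that adjacent labels have different colours. If at every vertex the complex of the labels is
exact in degree `i` for some parameters in some field of characteristic two, then the reduced
`ℓ²`-homology of the universal cover vanishes in degree `i`. -/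
theorem generalCol {V C X : Type} [DecidableEq V] [Fintype V] [DecidableEq C] [Fintype C]
    [Fintype X] (Q : CubeComplex V X) (col : V → C)
    (hcol : ∀ u v, Q.graph.Adj u v → col u ≠ col v) (i : ℕ)
    (h : ∀ x, ∃ (K : Type) (_ : Field K) (_ : CharP K 2) (t : V → K),
      Van (colG Q.graph col hcol) t (Q.lab x) i) (x : X) : L2HomologyZero (Q.cover x) i :=
  general_of_van Q (colG Q.graph col hcol) (fun _ _ => Iff.rfl) i h x

end Pool.Agent.H4.HY
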