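import Pool.Agent.H85.Fold.Pair
import Pool.Agent.H85.Fold.Simplex

/-!
# Duality for systems of anticommuting operators on a homology sphere

The arguments of the files `Pair`, `DualA`, `DualB`, `Dual` of project FOLD, for systems of
operators which satisfy the anticommutation relations only for adjacent vertices.
-/

set_option autoImplicit false

open Finset

namespace Pool.Agent.H4.HY

open Pool.Agent.H85.Fold

variable {V : Type} [DecidableEq V] [Fintype V] {S : Type} [AddCommGroup S] [Module ℝ S]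

/-- systems of operators which square to zero and anticommute for adjacent vertices, with a form -/
structure SysD (ν : V → ℕ) (G : SimpleGraph V) (e : V → S →ₗ[ℝ] S) (n : ℕ) (U : Finset V)
    (M : Submodule ℝ S) (β : S →ₗ[ℝ] S →ₗ[ℝ] ℝ) (ε : ℝ) (o : Finset V → ℝ) : Prop where
  inj : Function.Injective ν
  stable : ∀ v ∈ U, ∀ x ∈ M, e v x ∈ M
  anti : ∀ u ∈ U, ∀ v ∈ U, u = v ∨ G.Adj u v → ∀ x ∈ M, e u (e v x) = -e v (e u x)
  adj : ∀ v ∈ U, ∀ x ∈ M, ∀ y ∈ M, β (e v x) y = ε * β x (e v y)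
  nondeg : ∀ y ∈ M, (∀ x ∈ M, β x y = 0) → y = 0
  sphere : IsSphere ν G n U o
  lift : ∀ (σ : Finset V) (v : V), v ∉ σ → insert v σ ⊆ U → Cl G (insert v σ) → ∀ x ∈ M,
    (∀ u ∈ insert v σ, e u x = 0) → ∃ m ∈ M, (∀ u ∈ σ, e u m = 0) ∧ e v m = x

variable {β : S →ₗ[ℝ] S →ₗ[ℝ] ℝ} {x : Finset V → Finset V → S} {c c' : Finset V → S}
  {ν : V → ℕ} {G : SimpleGraph V} {e : V → S →ₗ[ℝ] S}
  {n : ℕ} {U : Finset V} {M : Submodule ℝ S} {ε : ℝ} {o : Finset V → ℝ}

omit [Fintype V] in
theorem SysD.sq (hs : SysD ν G e n U M β ε o) {v : V} (hv : v ∈ U) {x : S} (hx : x ∈ M) :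
    e v (e v x) = 0 := by
  have h1 := hs.anti v hv v hv (Or.inl rfl) x hx
  have h2 : (2 : ℝ) • e v (e v x) = 0 := by
    rw [two_smul]
    nth_rewrite 1 [h1]
    exact neg_add_cancel _
  exact (smul_eq_zero.mp h2).resolve_left (by norm_num)

omit [Fintype V] in
theorem SysD.lift0 (hs : SysD ν G e n U M β ε o) {v : V} (hv : v ∈ U) {x : S}
    (hx : x ∈ M) (hk : e v x = 0) : ∃ m ∈ M, e v m = x := by
  obtain ⟨m, hm, _, h⟩ := hs.lift ∅ v (Finset.notMem_empty v)
    (by
      intro u hu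
      rw [Finset.mem_insert] at hu
      rcases hu with rfl | hu
      · exact hv
      · exact absurd hu (Finset.notMem_empty _))
    (by
      intro u hu w hw huw
      rw [Finset.mem_insert] at hu hw
      rcases hu with rfl | hu
      · rcases hw with rfl | hw
        · exact absurd rfl huw
        · exact absurd hw (Finset.notMem_empty _)
      · exact absurd hu (Finset.notMem_empty _))
    x hx (fun u hu => by
      rw [Finset.mem_insert] at hu
      rcases hu with rfl | hu
      · exact hk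
      · exact absurd hu (Finset.notMem_empty _))
  exact ⟨m, hm, h⟩

omit [Fintype V] in
/-- the kernel of `e v` is isotropic -/
theorem SysD.orth (hs : SysD ν G e n U M β ε o) {v : V} (hv : v ∈ U) {x y : S} (hx : x ∈ M)
    (hy : y ∈ M) (hx0 : e v x = 0) (hy0 : e v y = 0) : β x y = 0 := by
  obtain ⟨m, hm, rfl⟩ := hs.lift0 hv hx hx0
  rw [hs.adj v hv m hm y hy, hy0, map_zero, mul_zero]

/-- the chains of a simplex are exact -/
theorem SysD.simplex (hs : SysD ν G e n U M β ε o) {τ : Finset V} (hτ : τ ⊆ U) (hcl : Cl G τ)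
    (i : ℕ) (hi : 1 ≤ i) : HV ν G e M τ i := by
  refine simplex_exact ν hs.inj G e τ hcl M (fun v hv x hx => hs.stable v (hτ hv) x hx)
    (fun u hu v hv x hx => ?_) (fun σ v hv hsub x hx hk => ?_) i hi
  · refine hs.anti u (hτ hu) v (hτ hv) ?_ x hx
    by_cases huv : u = v
    · exact Or.inl huv
    · exact Or.inr (hcl u hu v hv huv)
  · exact hs.lift σ v hv (hsub.trans hτ)
      (fun a ha b hb hab => hcl a (hsub ha) b (hsub hb) hab) x hx hk

/-- `d1` of a double chain is orthogonal to chains with coefficients in the kernels -/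
theorem pr_d1 (hs : SysD ν G e n U M β ε o) {m i j : ℕ} (hx : IsD G e m M U i x)
    (hc : IsF G e M U j c) : pr β (d1 ν x) c = 0 := by
  refine sum_eq_zero fun σ _ => ?_
  by_cases h0 : c σ = 0
  · rw [h0, map_zero]
  · have h3 : d1 ν x ∅ σ = ∑ v ∈ σ \ ∅, sgn ν v ∅ • x (insert v ∅) σ := rfl
    rw [h3, map_sum, LinearMap.sum_apply]
    refine sum_eq_zero fun v hv => ?_
    rw [sdiff_empty] at hv
    rw [map_smul, LinearMap.smul_apply,
      hs.orth ((hc.supp σ h0).1 hv) (hx.mem _ _) (hc.mem σ)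
        (hx.ker _ _ v (mem_insert_self v ∅)) (hc.ker σ v hv), smul_zero]

/-- closed double chains are orthogonal to boundaries -/
theorem pr_bd (hs : SysD ν G e n U M β ε o) {m i j : ℕ} (hx : IsD G e m M U i x)
    (hcl : d1 ν x = d2 ν G U x) (hc : IsF G e M U (j + 1) c) : pr β x (bd ν c) = 0 := by
  rw [pr_bd_right hx fun σ h => ⟨(hc.supp σ h).1, (hc.supp σ h).2.1⟩, ← hcl]
  exact pr_d1 hs hx hc

/-- the double chains `d1 y + d2 y` are orthogonal to cycles -/
theorem pr_d (hs : SysD ν G e n U M β ε o) {m i j : ℕ} (hx : IsD G e m M U (i + 1) x)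
    (hc : IsF G e M U j c) (hbd : bd ν c = 0) : pr β (d1 ν x + d2 ν G U x) c = 0 := by
  rw [pr_add_left, pr_d1 hs hx hc,
    ← pr_bd_right hx fun σ h => ⟨(hc.supp σ h).1, (hc.supp σ h).2.1⟩, hbd, zero_add]
  exact sum_eq_zero fun σ _ => map_zero _

/-- columns of `d1` are boundaries -/
private theorem bd_col (x : Finset V → Finset V → S) (σ : Finset V)
    (hx : ∀ ρ, x ρ σ ≠ 0 → ρ ⊆ σ) (ρ : Finset V) :
    bd ν (fun τ => x τ σ) ρ = d1 ν x ρ σ := by
  simp only [bd, d1, LinearMap.coe_mk, AddHom.coe_mk]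
  symm
  apply Finset.sum_subset
  · intro v hv
    simp only [Finset.mem_sdiff, Finset.mem_compl] at hv ⊢
    exact hv.2
  · intro v hv hv'
    simp only [Finset.mem_sdiff, Finset.mem_compl] at hv hv'
    have h0 : x (insert v ρ) σ = 0 := by
      by_contra hne
      exact hv' ⟨hx _ hne (Finset.mem_insert_self v ρ), hv⟩
    rw [h0, smul_zero]

private theorem dualA_step (hs : SysD ν G e n U M β ε o) {i l : ℕ} (hl : 1 ≤ l)
    {x : Finset V → Finset V → S}
    (hx : IsD G e n M U i x) (hcl : d1 ν x = d2 ν G U x)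
    (h0 : ∀ ρ σ, ρ.card < l → x ρ σ = 0) :
    ∃ y, IsD G e n M U (i + 1) y ∧
      ∀ ρ σ, ρ.card < l + 1 → (x - (d1 ν y + d2 ν G U y)) ρ σ = 0 := by
  classical
  have hcol : ∀ σ : Finset V, ∃ z : Finset V → S,
      (σ ⊆ U ∧ Cl G σ ∧ σ.card + i = n + l →
        IsF G e M σ (l + 1) z ∧ bd ν z = fun ρ => x ρ σ) := by
    intro σ
    by_cases hσ : σ ⊆ U ∧ Cl G σ ∧ σ.card + i = n + l
    · obtain ⟨hU, hC, hc⟩ := hσ
      have hF : IsF G e M σ l (fun ρ => x ρ σ) := by
        refine ⟨fun ρ => hx.mem ρ σ, fun ρ v hv => hx.ker ρ σ v hv, fun ρ hρ => ?_⟩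
        obtain ⟨h1, _, _, h4⟩ := hx.supp ρ σ hρ
        refine ⟨h1, fun u hu v hv huv => hC u (h1 hu) v (h1 hv) huv, by omega⟩
      have hb : bd ν (fun ρ => x ρ σ) = 0 := by
        funext ρ
        rw [bd_col x σ (fun ρ hρ => (hx.supp ρ σ hρ).1) ρ, hcl]
        simp only [d2, LinearMap.coe_mk, AddHom.coe_mk, Pi.zero_apply]
        rw [if_pos ⟨hU, hC⟩]
        apply Finset.sum_eq_zero
        intro v hv
        rw [Finset.mem_sdiff] at hv
        have h0' : x ρ (σ.erase v) = 0 := by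
          by_contra hne
          obtain ⟨_, _, _, h4⟩ := hx.supp ρ _ hne
          rw [Finset.card_erase_of_mem hv.1] at h4
          have hpos : 0 < σ.card := Finset.card_pos.mpr ⟨v, hv.1⟩
          exact hne (h0 ρ _ (by omega))
        rw [h0', smul_zero]
      obtain ⟨z, hz, hz'⟩ := hs.simplex hU hC l hl _ hF hb
      exact ⟨z, fun _ => ⟨hz, hz'⟩⟩
    · exact ⟨0, fun h => absurd h hσ⟩
  choose z hz using hcol
  set y : Finset V → Finset V → S := fun ρ σ =>
    if σ ⊆ U ∧ Cl G σ ∧ σ.card + i = n + l then z σ ρ else 0 with hy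
  have hyne : ∀ ρ σ, y ρ σ ≠ 0 →
      (σ ⊆ U ∧ Cl G σ ∧ σ.card + i = n + l) ∧ z σ ρ ≠ 0 := by
    intro ρ σ h
    simp only [hy] at h
    by_cases hσ : σ ⊆ U ∧ Cl G σ ∧ σ.card + i = n + l
    · rw [if_pos hσ] at h
      exact ⟨hσ, h⟩
    · rw [if_neg hσ] at h
      exact absurd rfl h
  have hycard : ∀ ρ σ, y ρ σ ≠ 0 → ρ.card = l + 1 := by
    intro ρ σ h
    obtain ⟨h1, h2⟩ := hyne ρ σ h
    exact ((hz σ h1).1.supp ρ h2).2.2
  have hyD : IsD G e n M U (i + 1) y := by
    refine ⟨fun ρ σ => ?_, fun ρ σ v hv => ?_, fun ρ σ h => ?_⟩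
    · simp only [hy]
      split_ifs with h
      · exact (hz σ h).1.mem ρ
      · exact M.zero_mem
    · simp only [hy]
      split_ifs with h
      · exact (hz σ h).1.ker ρ v hv
      · exact map_zero _
    · obtain ⟨h1, h2⟩ := hyne ρ σ h
      obtain ⟨h3, _, h5⟩ := (hz σ h1).1.supp ρ h2
      exact ⟨h3, h1.1, h1.2.1, by omega⟩
  refine ⟨y, hyD, fun ρ σ hρ => ?_⟩
  have hd2 : d2 ν G U y ρ σ = 0 := by
    simp only [d2, LinearMap.coe_mk, AddHom.coe_mk]
    split_ifs with h
    · apply Finset.sum_eq_zero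
      intro v _
      have : y ρ (σ.erase v) = 0 := by
        by_contra hne
        have := hycard ρ _ hne
        omega
      rw [this, smul_zero]
    · rfl
  have hd1 : d1 ν y ρ σ = x ρ σ := by
    by_cases hσ : σ ⊆ U ∧ Cl G σ ∧ σ.card + i = n + l
    · rw [← bd_col y σ (fun ρ hρ => (hyD.supp ρ σ hρ).1) ρ]
      have : (fun τ => y τ σ) = z σ := by
        funext τ
        simp only [hy]
        rw [if_pos hσ]
      rw [this, (hz σ hσ).2]
    · have hx0 : x ρ σ = 0 := by
        by_contra hne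
        have hge : ¬ ρ.card < l := fun h => hne (h0 ρ σ h)
        obtain ⟨_, h2, h3, h4⟩ := hx.supp ρ σ hne
        exact hσ ⟨h2, h3, by omega⟩
      rw [hx0]
      simp only [d1, LinearMap.coe_mk, AddHom.coe_mk]
      apply Finset.sum_eq_zero
      intro v _
      have : y (insert v ρ) σ = 0 := by
        simp only [hy]
        rw [if_neg hσ]
      rw [this, smul_zero]
  simp only [Pi.sub_apply, Pi.add_apply, hd1, hd2, add_zero, sub_self]

private theorem dualA_ind (hs : SysD ν G e n U M β ε o) {i : ℕ} (k : ℕ) :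
    ∀ (l : ℕ) (x : Finset V → Finset V → S), 1 ≤ l → l + k = i + 1 → IsD G e n M U i x →
      d1 ν x = d2 ν G U x → (∀ ρ σ, ρ.card < l → x ρ σ = 0) →
      ∃ y, IsD G e n M U (i + 1) y ∧ x = d1 ν y + d2 ν G U y := by
  induction k with
  | zero =>
    intro l x _ hk hx _ h0
    refine ⟨0, IsD.zero, ?_⟩
    rw [map_zero, map_zero, add_zero]
    funext ρ σ
    by_contra hne
    have hne' : x ρ σ ≠ 0 := hne
    have hge : ¬ ρ.card < l := fun h => hne' (h0 ρ σ h)
    obtain ⟨_, h2, h3, h4⟩ := hx.supp ρ σ hne'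
    have := hs.sphere.dim σ h2 h3
    omega
  | succ k ih =>
    intro l x hl hk hx hcl h0
    obtain ⟨y, hy, hy'⟩ := dualA_step hs hl hx hcl h0
    have hx' : IsD G e n M U i (x - (d1 ν y + d2 ν G U y)) :=
      hx.sub ((isD_d1 ν hy).add (isD_d2 ν hy))
    have hcl' : d1 ν (x - (d1 ν y + d2 ν G U y)) = d2 ν G U (x - (d1 ν y + d2 ν G U y)) := by
      rw [map_sub, map_sub, map_add, map_add, d1_d1 ν hs.inj, d2_d2 ν hs.inj, d1_d2, hcl]
      abel
    obtain ⟨y', hyD', hxy'⟩ := ih (l + 1) _ (by omega) (by omega) hx' hcl' hy'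
    refine ⟨y + y', hy.add hyD', ?_⟩
    rw [map_add, map_add]
    have := sub_eq_iff_eq_add.mp hxy'
    rw [this]
    abel

/-- a closed double chain whose first level vanishes -/
theorem prim_of_level_zero (hs : SysD ν G e n U M β ε o) {i : ℕ}
    (hx : IsD G e n M U i x) (hcl : d1 ν x = d2 ν G U x) (h0 : ∀ σ, x ∅ σ = 0) :
    ∃ y, IsD G e n M U (i + 1) y ∧ x = d1 ν y + d2 ν G U y := by
  refine dualA_ind hs i 1 x le_rfl (by omega) hx hcl fun ρ σ hρ => ?_
  have : ρ = ∅ := by
    rw [← Finset.card_eq_zero]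
    omega
  rw [this]
  exact h0 σ

/-- a functional on a subspace which vanishes on the kernel of a linear map factors -/
private theorem dualB_factor {E F : Type} [AddCommGroup E] [Module ℝ E] [AddCommGroup F]
    [Module ℝ F] (T : E →ₗ[ℝ] F) (L : E →ₗ[ℝ] ℝ) (C : Submodule ℝ E)
    (h : ∀ c ∈ C, T c = 0 → L c = 0) : ∃ μ : F →ₗ[ℝ] ℝ, ∀ c ∈ C, L c = μ (T c) := by
  have hmem : (L.domRestrict C) ∈ (LinearMap.ker (T.domRestrict C)).dualAnnihilator := by
    rw [Submodule.mem_dualAnnihilator]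
    intro w hw
    have hw' : T (w : E) = 0 := by
      simpa using hw
    simpa using h w w.2 hw'
  rw [← LinearMap.range_dualMap_eq_dualAnnihilator_ker] at hmem
  obtain ⟨μ, hμ⟩ := hmem
  refine ⟨μ, fun c hc => ?_⟩
  have := congrArg (fun f => f ⟨c, hc⟩) hμ
  simpa using this.symm

/-- a form which is nondegenerate in the second variable on a finite-dimensional space is
nondegenerate in the first variable -/
private theorem dualB_left [FiniteDimensional ℝ S]
    (hnd : ∀ y ∈ M, (∀ x ∈ M, β x y = 0) → y = 0) {y : S} (hy : y ∈ M)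
    (h : ∀ m ∈ M, β y m = 0) : y = 0 := by
  let Ψ : M →ₗ[ℝ] Module.Dual ℝ M :=
    { toFun := fun m => (β.flip (m : S)).domRestrict M
      map_add' := by
        intro a b
        ext t
        simp
      map_smul' := by
        intro r a
        ext t
        simp }
  have hΨ : ∀ m t : M, Ψ m t = β (t : S) (m : S) := by
    intro m t
    rfl
  have hinj : Function.Injective Ψ := by
    rw [← LinearMap.ker_eq_bot, LinearMap.ker_eq_bot']
    intro m hm
    apply Subtype.ext
    refine hnd m m.2 fun t ht => ?_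
    have := congrArg (fun f => f ⟨t, ht⟩) hm
    simpa [hΨ] using this
  have hsurj : Function.Surjective Ψ :=
    (LinearMap.injective_iff_surjective_of_finrank_eq_finrank
      (Subspace.dual_finrank_eq).symm).1 hinj
  have hz : (⟨y, hy⟩ : M) = 0 := by
    refine (Module.forall_dual_apply_eq_zero_iff ℝ _).1 fun f => ?_
    obtain ⟨m, rfl⟩ := hsurj f
    rw [hΨ]
    exact h m m.2
  exact congrArg Subtype.val hz

/-- functionals are represented in the first variable -/
private theorem dualB_repr [FiniteDimensional ℝ S]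
    (hnd : ∀ y ∈ M, (∀ x ∈ M, β x y = 0) → y = 0) (f : S →ₗ[ℝ] ℝ) :
    ∃ y ∈ M, ∀ m ∈ M, β y m = f m := by
  let Φ : M →ₗ[ℝ] Module.Dual ℝ M :=
    { toFun := fun m => (β (m : S)).domRestrict M
      map_add' := by
        intro a b
        ext t
        simp
      map_smul' := by
        intro r a
        ext t
        simp }
  have hΦ : ∀ m t : M, Φ m t = β (m : S) (t : S) := by
    intro m t
    rfl
  have hinj : Function.Injective Φ := by
    rw [← LinearMap.ker_eq_bot, LinearMap.ker_eq_bot']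
    intro m hm
    apply Subtype.ext
    refine dualB_left hnd m.2 fun t ht => ?_
    have := congrArg (fun f => f ⟨t, ht⟩) hm
    simpa [hΦ] using this
  have hsurj : Function.Surjective Φ :=
    (LinearMap.injective_iff_surjective_of_finrank_eq_finrank
      (Subspace.dual_finrank_eq).symm).1 hinj
  obtain ⟨y, hy⟩ := hsurj (f.domRestrict M)
  refine ⟨y, y.2, fun m hm => ?_⟩
  have := congrArg (fun g => g ⟨m, hm⟩) hy
  simpa [hΦ] using this

/-- the orthogonal complement of the kernel of a clique -/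
theorem perp_kernel [FiniteDimensional ℝ S] (hs : SysD ν G e n U M β ε o) {σ : Finset V}
    (hσ : σ ⊆ U) (hcl : Cl G σ) {m₀ : S} (hm₀ : m₀ ∈ M)
    (h : ∀ m ∈ M, (∀ v ∈ σ, e v m = 0) → β m₀ m = 0) :
    ∃ y : V → S, (∀ v ∈ σ, y v ∈ M ∧ e v (y v) = 0) ∧ m₀ = ∑ v ∈ σ, y v := by
  let T : S →ₗ[ℝ] (V → S) := LinearMap.pi fun v => if v ∈ σ then e v else 0
  have hT : ∀ m v, T m v = if v ∈ σ then e v m else 0 := by
    intro m v
    simp only [T, LinearMap.pi_apply]
    split_ifs <;> rfl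
  obtain ⟨μ, hμ⟩ := dualB_factor T (β m₀) M (by
    intro m hm hTm
    refine h m hm fun v hv => ?_
    have := congrFun hTm v
    rw [hT, if_pos hv] at this
    exact this)
  have hdec : ∀ m ∈ M, β m₀ m = ∑ v ∈ σ, μ (Pi.single v (e v m)) := by
    intro m hm
    rw [hμ m hm, ← map_sum]
    congr 1
    funext w
    rw [hT, Finset.sum_apply]
    by_cases hw : w ∈ σ
    · rw [if_pos hw, Finset.sum_eq_single w]
      · simp
      · intro v _ hvw
        exact Pi.single_eq_of_ne (Ne.symm hvw) _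
      · intro hw'
        exact absurd hw hw'
    · rw [if_neg hw]
      symm
      refine Finset.sum_eq_zero fun v hv => ?_
      refine Pi.single_eq_of_ne ?_ _
      rintro rfl
      exact hw hv
  have hrep : ∀ v : V, ∃ y ∈ M, ∀ m ∈ M, β y m = μ (Pi.single v (e v m)) := by
    intro v
    exact dualB_repr hs.nondeg ((μ.comp (LinearMap.single ℝ (fun _ : V => S) v)).comp (e v))
  choose y hyM hy using hrep
  refine ⟨y, fun v hv => ⟨hyM v, ?_⟩, ?_⟩
  · have hvU := hσ hv
    refine dualB_left hs.nondeg (hs.stable v hvU _ (hyM v)) fun m hm => ?_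
    have hsq : e v (e v m) = 0 := hs.sq hvU hm
    rw [hs.adj v hvU _ (hyM v) m hm, hy v _ (hs.stable v hvU m hm), hsq]
    simp
  · have hsum : ∑ v ∈ σ, y v ∈ M := Submodule.sum_mem _ fun v _ => hyM v
    have hz : m₀ - ∑ v ∈ σ, y v = 0 := by
      refine dualB_left hs.nondeg (M.sub_mem hm₀ hsum) fun m hm => ?_
      rw [map_sub, LinearMap.sub_apply, hdec m hm, map_sum, LinearMap.sum_apply, sub_eq_zero]
      exact Finset.sum_congr rfl fun v _ => (hy v m hm).symm
    exact sub_eq_zero.1 hz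

/-- functionals on the chains which vanish on the cycles -/
theorem exists_cob [FiniteDimensional ℝ S] (hs : SysD ν G e n U M β ε o) {i j : ℕ}
    (hij : i + j = n) (hx : IsD G e n M U i x)
    (h : ∀ c, IsF G e M U j c → bd ν c = 0 → pr β x c = 0) :
    ∃ z : Finset V → Finset V → S, IsD G e n M U (i + 1) z ∧
      ∀ c, IsF G e M U j c → pr β x c = pr β (d2 ν G U z) c := by
  classical
  let C : Submodule ℝ (Finset V → S) :=
    { carrier := {c | IsF G e M U j c}
      add_mem' := fun ha hb => IsF.add ha hb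
      zero_mem' := IsF.zero
      smul_mem' := fun r _ ha => IsF.smul ha r }
  let L : (Finset V → S) →ₗ[ℝ] ℝ :=
    { toFun := fun c => pr β x c
      map_add' := fun c c' => pr_add_right
      map_smul' := fun r c => pr_smul_right r }
  obtain ⟨μ, hμ⟩ := dualB_factor (bd ν) L C (fun c hc hbd => h c hc hbd)
  have hrep : ∀ ρ : Finset V, ∃ y ∈ M, ∀ m ∈ M, β y m = μ (Pi.single ρ m) := by
    intro ρ
    exact dualB_repr hs.nondeg (μ.comp (LinearMap.single ℝ (fun _ : Finset V => S) ρ))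
  choose y hyM hy using hrep
  let z : Finset V → Finset V → S := fun ρ τ =>
    if ρ = ∅ ∧ τ ⊆ U ∧ Cl G τ ∧ τ.card + (i + 1) = n then y τ else 0
  have hz : IsD G e n M U (i + 1) z := by
    refine ⟨fun ρ τ => ?_, fun ρ τ v hv => ?_, fun ρ τ hne => ?_⟩
    · simp only [z]
      split_ifs
      · exact hyM τ
      · exact M.zero_mem
    · simp only [z]
      rw [if_neg, map_zero]
      rintro ⟨rfl, -⟩
      exact absurd hv (Finset.notMem_empty v)
    · simp only [z] at hne
      split_ifs at hne with hc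
      · obtain ⟨rfl, h1, h2, h3⟩ := hc
        exact ⟨Finset.empty_subset _, h1, h2, by simpa using h3⟩
      · exact absurd rfl hne
  refine ⟨z, hz, fun c hc => ?_⟩
  rw [← pr_bd_right hz (fun σ hσ => ⟨(hc.supp σ hσ).1, (hc.supp σ hσ).2.1⟩)]
  have hL : pr β x c = μ (bd ν c) := hμ c hc
  have hbd : bd ν c = ∑ τ : Finset V, Pi.single τ (bd ν c τ) := by
    funext ρ
    rw [Finset.sum_apply, Finset.sum_eq_single ρ]
    · simp
    · intro τ _ hτ
      exact Pi.single_eq_of_ne (Ne.symm hτ) _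
    · intro hρ
      exact absurd (Finset.mem_univ ρ) hρ
  rw [hL, hbd, map_sum]
  unfold pr
  rw [← hbd]
  refine Finset.sum_congr rfl fun τ _ => ?_
  have hmem : bd ν c τ ∈ M :=
    Submodule.sum_mem _ fun v _ => M.smul_mem _ (hc.mem _)
  by_cases hcond : τ ⊆ U ∧ Cl G τ ∧ τ.card + (i + 1) = n
  · have : z ∅ τ = y τ := if_pos ⟨rfl, hcond⟩
    rw [this, hy τ _ hmem]
  · have h0 : bd ν c τ = 0 := by
      show ∑ v ∈ τᶜ, sgn ν v τ • c (insert v τ) = 0
      refine Finset.sum_eq_zero fun v hv => ?_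
      rw [Finset.mem_compl] at hv
      by_cases hc0 : c (insert v τ) = 0
      · rw [hc0, smul_zero]
      · exfalso
        obtain ⟨h1, h2, h3⟩ := hc.supp _ hc0
        apply hcond
        refine ⟨fun w hw => h1 (Finset.mem_insert_of_mem hw), fun a ha b hb hab =>
          h2 a (Finset.mem_insert_of_mem ha) b (Finset.mem_insert_of_mem hb) hab, ?_⟩
        rw [Finset.card_insert_of_notMem hv] at h3
        omega
    rw [h0]
    simp

private theorem dual_d2_level (z z' : Finset V → Finset V → S) (h : ∀ σ, z ∅ σ = z' ∅ σ)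
    (σ : Finset V) : d2 ν G U z ∅ σ = d2 ν G U z' ∅ σ := by
  simp only [d2, LinearMap.coe_mk, AddHom.coe_mk, h]

private theorem dual_pr_level (z z' : Finset V → Finset V → S) (h : ∀ σ, z ∅ σ = z' ∅ σ)
    (c : Finset V → S) : pr β z c = pr β z' c := by
  simp only [pr, h]

/-- the level zero part -/
private def lev0 (z : Finset V → Finset V → S) : Finset V → Finset V → S :=
  fun ρ σ => if ρ = ∅ then z ρ σ else 0

private theorem lev0_empty (z : Finset V → Finset V → S) (σ : Finset V) :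
    lev0 z ∅ σ = z ∅ σ := by
  simp [lev0]

private theorem isD_lev0 {z : Finset V → Finset V → S} {i : ℕ} (hz : IsD G e n M U i z) :
    IsD G e n M U i (lev0 z) where
  mem ρ σ := by
    by_cases h : ρ = ∅
    · simp only [lev0, h, if_true]; exact hz.mem _ _
    · simp only [lev0, h, if_false]; exact M.zero_mem
  ker ρ σ v hv := by
    by_cases h : ρ = ∅
    · rw [h] at hv; simp at hv
    · simp [lev0, h]
  supp ρ σ h := by
    by_cases h' : ρ = ∅
    · simp only [lev0, h', if_true] at h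
      subst h'
      exact hz.supp _ _ h
    · simp [lev0, h'] at h

private theorem d1_lev0 (z : Finset V → Finset V → S) : d1 ν (lev0 z) = 0 := by
  funext ρ σ
  simp [d1, lev0]

private theorem isF_single {j : ℕ} {σ : Finset V} (hσ : σ ⊆ U) (hcl : Cl G σ) (hj : σ.card = j)
    {m : S} (hm : m ∈ M) (hk : ∀ v ∈ σ, e v m = 0) : IsF G e M U j (Pi.single σ m) where
  mem τ := by
    by_cases h : τ = σ
    · subst h; simpa using hm
    · rw [Pi.single_eq_of_ne h]; exact M.zero_mem
  ker τ v hv := by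
    by_cases h : τ = σ
    · subst h; simpa using hk v hv
    · rw [Pi.single_eq_of_ne h]; simp
  supp τ h := by
    by_cases h' : τ = σ
    · subst h'; exact ⟨hσ, hcl, hj⟩
    · rw [Pi.single_eq_of_ne h'] at h; exact absurd rfl h

private theorem pr_single (x : Finset V → Finset V → S) (σ : Finset V) (m : S) :
    pr β x (Pi.single σ m) = β (x ∅ σ) m := by
  unfold pr
  rw [Finset.sum_eq_single σ]
  · simp
  · intro τ _ hτ
    rw [Pi.single_eq_of_ne hτ]; simp
  · intro h; exact absurd (Finset.mem_univ _) h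

/-- **Duality.** A cycle bounds if its resolution is orthogonal to all cycles. -/
theorem duality [FiniteDimensional ℝ S] (hs : SysD ν G e n U M β ε o) {i j : ℕ}
    (hij : i + j = n) (hx : IsRes ν G e n M U o i c x)
    (h : ∀ c', IsF G e M U j c' → bd ν c' = 0 → pr β x c' = 0) :
    ∃ y, IsF G e M U (i + 1) y ∧ bd ν y = c := by
  classical
  obtain ⟨z', hz', hzpr'⟩ := exists_cob hs hij hx.isD h
  set z := lev0 z' with hzdef
  have hz : IsD G e n M U (i + 1) z := isD_lev0 hz'
  have hd1z : d1 ν z = 0 := d1_lev0 z'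
  have hzpr : ∀ c', IsF G e M U j c' → pr β x c' = pr β (d2 ν G U z) c' := by
    intro c' hc'
    rw [hzpr' c' hc']
    apply dual_pr_level
    intro σ
    apply dual_d2_level
    intro σ
    exact (lev0_empty z' σ).symm
  have hd2z : IsD G e n M U i (d2 ν G U z) := isD_d2 ν hz
  -- the elements `y`
  have hY : ∀ σ : Finset V, ∃ y : V → S, (σ ⊆ U ∧ Cl G σ ∧ σ.card = j) →
      (∀ v ∈ σ, y v ∈ M ∧ e v (y v) = 0) ∧ x ∅ σ - d2 ν G U z ∅ σ = ∑ v ∈ σ, y v := by
    intro σ
    by_cases hg : σ ⊆ U ∧ Cl G σ ∧ σ.card = j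
    · obtain ⟨hσ, hcl, hj⟩ := hg
      have hm₀ : x ∅ σ - d2 ν G U z ∅ σ ∈ M := M.sub_mem (hx.isD.mem _ _) (hd2z.mem _ _)
      obtain ⟨y, hy⟩ := perp_kernel hs hσ hcl hm₀ (by
        intro m hm hk
        have := hzpr (Pi.single σ m) (isF_single hσ hcl hj hm hk)
        rw [pr_single, pr_single] at this
        rw [map_sub, LinearMap.sub_apply, this, sub_self])
      exact ⟨y, fun _ => hy⟩
    · exact ⟨0, fun h => absurd h hg⟩
  choose Y hY using hY
  set w : Finset V → Finset V → S := fun ρ σ =>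
    if σ ⊆ U ∧ Cl G σ ∧ σ.card = j then ∑ v ∈ σ, (if ρ = {v} then Y σ v else 0) else 0 with hw
  have hwv : ∀ ρ σ, w ρ σ ≠ 0 → (σ ⊆ U ∧ Cl G σ ∧ σ.card = j) ∧ ∃ v ∈ σ, ρ = {v} := by
    intro ρ σ hne
    by_cases hg : σ ⊆ U ∧ Cl G σ ∧ σ.card = j
    · refine ⟨hg, ?_⟩
      simp only [hw, hg, and_self, if_true] at hne
      obtain ⟨v, hv, hv'⟩ := Finset.exists_ne_zero_of_sum_ne_zero hne
      refine ⟨v, hv, ?_⟩
      by_contra hc
      exact hv' (if_neg hc)
    · exact absurd (by simp only [hw, if_neg hg]) hne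
  have hwval : ∀ σ, (σ ⊆ U ∧ Cl G σ ∧ σ.card = j) → ∀ v ∈ σ, w {v} σ = Y σ v := by
    intro σ hg v hv
    simp only [hw]
    rw [if_pos hg, Finset.sum_eq_single v]
    · simp
    · intro u _ hu
      rw [if_neg]
      intro hc
      exact hu (Finset.singleton_injective hc).symm
    · intro hc; exact absurd hv hc
  have hwD : IsD G e n M U (i + 1) w := by
    refine ⟨?_, ?_, ?_⟩
    · intro ρ σ
      by_cases hne : w ρ σ = 0
      · rw [hne]; exact M.zero_mem
      · obtain ⟨hg, v, hv, rfl⟩ := hwv ρ σ hne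
        rw [hwval σ hg v hv]
        exact ((hY σ hg).1 v hv).1
    · intro ρ σ u hu
      by_cases hne : w ρ σ = 0
      · rw [hne]; simp
      · obtain ⟨hg, v, hv, rfl⟩ := hwv ρ σ hne
        rw [hwval σ hg v hv]
        rw [Finset.mem_singleton] at hu
        subst hu
        exact ((hY σ hg).1 u hv).2
    · intro ρ σ hne
      obtain ⟨hg, v, hv, rfl⟩ := hwv ρ σ hne
      refine ⟨by simpa using hv, hg.1, hg.2.1, ?_⟩
      rw [Finset.card_singleton, hg.2.2]
      omega
  -- the difference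
  have hzw : IsD G e n M U (i + 1) (z + w) := hz.add hwD
  have hx'D : IsD G e n M U i (x - (d1 ν (z + w) + d2 ν G U (z + w))) :=
    hx.isD.sub ((isD_d1 ν hzw).add (isD_d2 ν hzw))
  have hcl : d1 ν (x - (d1 ν (z + w) + d2 ν G U (z + w))) =
      d2 ν G U (x - (d1 ν (z + w) + d2 ν G U (z + w))) := by
    rw [map_sub, map_sub, (d1 ν).map_add (d1 ν (z + w)), (d2 ν G U).map_add (d1 ν (z + w)),
      d1_d1 ν hs.inj, d2_d2 ν hs.inj, hx.closed, d1_d2, zero_add, add_zero]
  have h0 : ∀ σ, (x - (d1 ν (z + w) + d2 ν G U (z + w))) ∅ σ = 0 := by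
    intro σ
    by_cases hg : σ ⊆ U ∧ Cl G σ ∧ σ.card = j
    · have e1 : d1 ν w ∅ σ = ∑ v ∈ σ, Y σ v := by
        simp only [d1, LinearMap.coe_mk, AddHom.coe_mk, Finset.sdiff_empty]
        apply Finset.sum_congr rfl
        intro v hv
        rw [sgn_empty, one_smul]
        exact hwval σ hg v hv
      have e2 : d2 ν G U w ∅ σ = 0 := by
        have hw0 : ∀ τ, w ∅ τ = 0 := by
          intro τ
          by_contra hne
          obtain ⟨_, v, _, hv⟩ := hwv ∅ τ hne
          exact absurd hv.symm (Finset.singleton_ne_empty v)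
        simp only [d2, LinearMap.coe_mk, AddHom.coe_mk, hw0, smul_zero, Finset.sum_const_zero,
          ite_self]
      have e3 := (hY σ hg).2
      have e4 : d1 ν z ∅ σ = 0 := by rw [hd1z]; rfl
      simp only [map_add, Pi.sub_apply, Pi.add_apply, e1, e2, e4, zero_add, add_zero]
      rw [← e3]
      abel
    · by_contra hne
      obtain ⟨_, hσ, hc, hcard⟩ := hx'D.supp _ _ hne
      rw [Finset.card_empty, add_zero] at hcard
      exact hg ⟨hσ, hc, by omega⟩
  obtain ⟨y, hy, hxy⟩ := prim_of_level_zero hs hx'D hcl h0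
  have hYD : IsD G e n M U (i + 1) (y + (z + w)) := hy.add hzw
  have hxY : x = d1 ν (y + (z + w)) + d2 ν G U (y + (z + w)) := by
    have : x = (x - (d1 ν (z + w) + d2 ν G U (z + w))) + (d1 ν (z + w) + d2 ν G U (z + w)) := by
      abel
    rw [this, hxy, (d1 ν).map_add y, (d2 ν G U).map_add y]
    abel
  refine ⟨aug G n U o (y + (z + w)), isD_aug hYD o, ?_⟩
  have ha : aug G n U o x = c := hx.aug_eq
  rw [hxY, map_add, aug_d1 ν G n U o _ (fun ρ σ hne => (hYD.supp ρ σ hne).1),
    aug_d2 ν G n U o hs.sphere _ (fun ρ σ hne => ⟨(hYD.supp ρ σ hne).1, (hYD.supp ρ σ hne).2.1,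
      (hYD.supp ρ σ hne).2.2.1⟩), add_zero] at ha
  exact ha

/-- the vanishing of the homology in complementary degrees -/
theorem hv_dual [FiniteDimensional ℝ S] (hs : SysD ν G e n U M β ε o) {i j : ℕ}
    (hij : i + j = n) (h : HV ν G e M U j) : HV ν G e M U i := by
  intro c hc hbd
  obtain ⟨x, hx⟩ := exists_res (ν := ν) (G := G) (n := n) (U := U) (o := o) (e := e) (M := M)
    hs.inj hs.sphere hc hbd
  refine duality hs hij hx ?_
  intro c' hc' hbd'
  obtain ⟨y, hy, rfl⟩ := h c' hc' hbd'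
  exact pr_bd hs hx.isD hx.closed hy

end Pool.Agent.H4.HY
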