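import Pool.Agent.H4.HY.ColHV
import Pool.Agent.H4.HY.DualD
import Pool.Agent.H19.Cub.LocHV

/-!
# Project HB: the form, and duality for the complexes with coefficients in the kernels

The form is the product of the alternating forms of the colour factors and of the scalar product of the
Clifford factor. The operators `eK v` are antisymmetric.
-/

set_option autoImplicit false
set_option linter.unusedSectionVars false

open Finset

namespace Pool.Agent.H4.HY

open Pool.Agent.H4 Pool.Agent.H4.Singer Pool.Agent.H85.Fold Pool.Agent.H85.Fold2 Pool.Agent.H19.Cub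

open scoped Matrix Kronecker

variable {V C D : Type} [DecidableEq V] [Fintype V] [DecidableEq C] [Fintype C] [Fintype D]
  [DecidableEq D]

/-- the sign of an element of the cube -/
def sgb (b : C → Bool) : ℝ := ∏ c, if b c then 1 else -1

/-- the opposite element of the cube -/
def opp (b : C → Bool) : C → Bool := fun c => !(b c)

theorem opp_opp (b : C → Bool) : opp (opp b) = b := by
  funext c
  simp [opp]

theorem sgb_ne (b : C → Bool) : sgb b ≠ 0 := by
  unfold sgb
  refine prod_ne_zero_iff.2 fun c _ => ?_
  split_ifs <;> norm_num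

theorem sgb_flip (b : C → Bool) (c : C) : sgb (Function.update b c (!(b c))) = -sgb b := by
  unfold sgb
  rw [← mul_prod_erase univ _ (mem_univ c), ← mul_prod_erase univ (fun c => if b c then (1 : ℝ)
    else -1) (mem_univ c), Function.update_self, ← neg_mul]
  congr 1
  · cases b c <;> simp
  · refine prod_congr rfl fun u hu => ?_
    rw [Function.update_of_ne (ne_of_mem_erase hu)]

theorem opp_update (b : C → Bool) (c : C) (x : Bool) :
    opp (Function.update b c x) = Function.update (opp b) c (!x) := by
  funext u
  by_cases h : u = c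
  · subst h
    simp [opp]
  · simp [opp, Function.update_of_ne h]

/-- the alternating form of the colour factors -/
def bfC (φ ψ : (C → Bool) → ℝ) : ℝ := ∑ b, sgb b * (φ b * ψ (opp b))

/-- the operator of the colour factor over the reals -/
def eR (Γ : ColGraph V C) (t : V → ℝ) (v : V) (φ : (C → Bool) → ℝ) (a : C → Bool) : ℝ :=
  wt t v (a (Γ.col v)) * (t v * φ (Function.update a (Γ.col v) false) -
    φ (Function.update a (Γ.col v) true))

theorem bfC_eR (Γ : ColGraph V C) (t : V → ℝ) (v : V) (φ ψ : (C → Bool) → ℝ) :
    bfC (eR Γ t v φ) ψ = -bfC φ (eR Γ t v ψ) := by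
  rw [eq_neg_iff_add_eq_zero]
  unfold bfC
  rw [← sum_add_distrib]
  refine sum_involution (fun b _ => Function.update b (Γ.col v) (!(b (Γ.col v)))) ?_ ?_ ?_ ?_
  · intro b _
    rw [sgb_flip, opp_update]
    unfold eR
    simp only [Function.update_self, Function.update_idem]
    have h1 : opp b (Γ.col v) = !(b (Γ.col v)) := rfl
    rw [h1]
    by_cases h : b (Γ.col v) = true
    · have e1 : Function.update b (Γ.col v) true = b := by rw [← h, Function.update_eq_self]
      have e2 : Function.update (opp b) (Γ.col v) false = opp b := by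
        have : (false : Bool) = opp b (Γ.col v) := by rw [h1, h]; rfl
        rw [this, Function.update_eq_self]
      rw [h]
      simp only [Bool.not_true, Bool.not_false, e1, e2, Singer.wt, if_true, Bool.false_eq_true, if_false]
      ring
    · have h' : b (Γ.col v) = false := by simpa using h
      have e1 : Function.update b (Γ.col v) false = b := by rw [← h', Function.update_eq_self]
      have e2 : Function.update (opp b) (Γ.col v) true = opp b := by
        have : (true : Bool) = opp b (Γ.col v) := by rw [h1, h']; rfl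
        rw [this, Function.update_eq_self]
      rw [h']
      simp only [Bool.not_true, Bool.not_false, e1, e2, Singer.wt, if_true, Bool.false_eq_true, if_false]
      ring
  · intro b _ _ heq
    have := congrFun heq (Γ.col v)
    rw [Function.update_self] at this
    cases h : b (Γ.col v) <;> rw [h] at this <;> simp at this
  · intro b _
    exact mem_univ _
  · intro b _
    simp

/-- the form -/
def bfK (x y : (C → Bool) × D → ℝ) : ℝ := ∑ d, bfC (fun b => x (b, d)) (fun b => y (b, d))

/-- the form as a bilinear map -/
noncomputable def btK : ((C → Bool) × D → ℝ) →ₗ[ℝ] ((C → Bool) × D → ℝ) →ₗ[ℝ] ℝ :=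
  LinearMap.mk₂ ℝ bfK
    (by
      intro x x' y
      unfold bfK bfC
      rw [← sum_add_distrib]
      refine sum_congr rfl fun d _ => ?_
      rw [← sum_add_distrib]
      refine sum_congr rfl fun b _ => ?_
      simp only [Pi.add_apply]
      ring)
    (by
      intro r x y
      unfold bfK bfC
      rw [smul_eq_mul, mul_sum]
      refine sum_congr rfl fun d _ => ?_
      rw [mul_sum]
      refine sum_congr rfl fun b _ => ?_
      simp only [Pi.smul_apply, smul_eq_mul]
      ring)
    (by
      intro x y y'
      unfold bfK bfC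
      rw [← sum_add_distrib]
      refine sum_congr rfl fun d _ => ?_
      rw [← sum_add_distrib]
      refine sum_congr rfl fun b _ => ?_
      simp only [Pi.add_apply]
      ring)
    (by
      intro r x y
      unfold bfK bfC
      rw [smul_eq_mul, mul_sum]
      refine sum_congr rfl fun d _ => ?_
      rw [mul_sum]
      refine sum_congr rfl fun b _ => ?_
      simp only [Pi.smul_apply, smul_eq_mul]
      ring)

theorem btK_apply (x y : (C → Bool) × D → ℝ) : btK x y = bfK x y := rfl

theorem btK_nondeg (y : (C → Bool) × D → ℝ) (h : ∀ x, btK x y = 0) : y = 0 := by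
  funext p
  obtain ⟨b, d⟩ := p
  have h1 := h (Pi.single (opp b, d) 1)
  rw [btK_apply] at h1
  unfold bfK bfC at h1
  rw [sum_eq_single d, sum_eq_single (opp b)] at h1
  · beta_reduce at h1
    rw [Pi.single_eq_same, one_mul, opp_opp] at h1
    exact (mul_eq_zero.1 h1).resolve_left (sgb_ne _)
  · intro b' _ hb'
    beta_reduce
    rw [Pi.single_eq_of_ne (fun h : (b', d) = (opp b, d) => hb' (congrArg Prod.fst h)), zero_mul,
      mul_zero]
  · intro h
    exact absurd (mem_univ _) h
  · intro d' _ hd'
    refine sum_eq_zero fun b' _ => ?_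
    beta_reduce
    rw [Pi.single_eq_of_ne (fun h : (b', d') = (opp b, d) => hd' (congrArg Prod.snd h)), zero_mul,
      mul_zero]
  · intro h
    exact absurd (mem_univ _) h

variable {w a : C ⊕ V ⊕ V → Matrix D D ℤ}

theorem gamC_tr (hw : IsFermi w a) (c : C) (d d' : D) : gamC w a c d d' = gamC w a c d' d := by
  unfold gamC
  have h1 := hw.tr (Sum.inl c)
  rw [← h1, Matrix.add_apply, Matrix.add_apply, Matrix.transpose_apply, Matrix.transpose_apply]
  ring

/-- the operators are antisymmetric -/
theorem btK_eK (hw : IsFermi w a) (Γ : ColGraph V C) (t : V → ℤ) (v : V)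
    (x y : (C → Bool) × D → ℝ) :
    btK (opM (eK Γ w a t v) x) y = -1 * btK x (opM (eK Γ w a t v) y) := by
  have hval : ∀ (z : (C → Bool) × D → ℝ) b d, opM (eK Γ w a t v) z (b, d) =
      ∑ d', (gamC w a (Γ.col v) d d' : ℝ) * eR Γ (fun v => (t v : ℝ)) v (fun b => z (b, d')) b := by
    intro z b d
    unfold opM
    rw [Matrix.toLin'_apply]
    show ∑ q, (eK Γ w a t v).map (Int.cast : ℤ → ℝ) (b, d) q * z q = _
    rw [Fintype.sum_prod_type_right]
    refine sum_congr rfl fun d' _ => ?_
    have h1 := eC_mulVec (R := ℝ) Γ t v (fun b => z (b, d')) b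
    have h2 : ((eC Γ t v).map (Int.cast : ℤ → ℝ) *ᵥ fun b => z (b, d')) b =
      ∑ b', (eC Γ t v).map (Int.cast : ℤ → ℝ) b b' * z (b', d') := rfl
    rw [h2] at h1
    unfold eR
    rw [← h1, mul_sum]
    refine sum_congr rfl fun b' _ => ?_
    simp only [Matrix.map_apply, eK, Matrix.kroneckerMap_apply]
    push_cast
    ring
  have hC : ∀ (F : D → (C → Bool) → ℝ) (c : D → ℝ) (ψ : (C → Bool) → ℝ),
      bfC (fun b => ∑ d', c d' * F d' b) ψ = ∑ d', c d' * bfC (F d') ψ := by
    intro F c ψ
    unfold bfC
    simp only [mul_sum, sum_mul]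
    rw [sum_comm]
    refine sum_congr rfl fun d' _ => sum_congr rfl fun b _ => ?_
    ring
  have hC' : ∀ (F : D → (C → Bool) → ℝ) (c : D → ℝ) (φ : (C → Bool) → ℝ),
      bfC φ (fun b => ∑ d', c d' * F d' b) = ∑ d', c d' * bfC φ (F d') := by
    intro F c φ
    unfold bfC
    simp only [mul_sum]
    rw [sum_comm]
    refine sum_congr rfl fun d' _ => sum_congr rfl fun b _ => ?_
    ring
  rw [btK_apply, btK_apply]
  unfold bfK
  have hL : ∀ d, bfC (fun b => opM (eK Γ w a t v) x (b, d)) (fun b => y (b, d)) =
      ∑ d', (gamC w a (Γ.col v) d d' : ℝ) *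
        bfC (eR Γ (fun v => (t v : ℝ)) v (fun b => x (b, d'))) (fun b => y (b, d)) := by
    intro d
    simp only [hval]
    exact hC _ _ _
  have hR : ∀ d, bfC (fun b => x (b, d)) (fun b => opM (eK Γ w a t v) y (b, d)) =
      ∑ d', (gamC w a (Γ.col v) d d' : ℝ) *
        bfC (fun b => x (b, d)) (eR Γ (fun v => (t v : ℝ)) v (fun b => y (b, d'))) := by
    intro d
    simp only [hval]
    exact hC' _ _ _
  simp only [hL, hR]
  rw [sum_comm, mul_sum]
  refine sum_congr rfl fun d' _ => ?_
  rw [mul_sum]
  refine sum_congr rfl fun d _ => ?_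
  rw [bfC_eR, gamC_tr hw (Γ.col v) d d']
  ring

end Pool.Agent.H4.HY
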