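import Pool.Agent.H4.HY.ColPert

/-!
# Project HB: exactness of the complexes with coefficients in the kernels

A chain with values in the kernels of the operators `eK v` is, coordinate by coordinate, a chain with
values in the kernels of the operators of the colour factors, and it is determined by its values at the
`a` whose colours of `σ` are set to `false`.
-/

set_option autoImplicit false
set_option linter.unusedSectionVars false

open Finset

namespace Pool.Agent.H4.HY

open Pool.Agent.H4.Singer Pool.Agent.H85.Fold Pool.Agent.H85.Fold2 Pool.Agent.H19.Cub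

open scoped Matrix Kronecker

variable {V C D : Type} [DecidableEq V] [Fintype V] [DecidableEq C] [Fintype C] [Fintype D]
  [DecidableEq D]

/-- the kernel condition on the colour factor of `v` -/
def KerC (Γ : ColGraph V C) (t : V → ℝ) (v : V) (φ : (C → Bool) → ℝ) : Prop :=
  ∀ a, φ a = wt t v (a (Γ.col v)) * φ (Function.update a (Γ.col v) false)

/-- the product of the weights -/
noncomputable def Wt (Γ : ColGraph V C) (t : V → ℝ) (σ : Finset V) (a : C → Bool) : ℝ :=
  ∏ v ∈ σ, wt t v (a (Γ.col v))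

theorem kerC_prod {Γ : ColGraph V C} {t : V → ℝ} {σ : Finset V} (hσ : Γ.Cl σ)
    {φ : (C → Bool) → ℝ} (h : ∀ v ∈ σ, KerC Γ t v φ) (a : C → Bool) :
    φ a = Wt Γ t σ a * φ (ecSet Γ σ a) := by
  have key : ∀ s : Finset V, s ⊆ σ → φ a = Wt Γ t s a * φ (ecSet Γ s a) := by
    intro s
    induction s using Finset.induction_on with
    | empty =>
      intro _
      rw [ecSet_empty]
      simp [Wt]
    | insert v s hv ih =>
      intro hs
      have hvσ : v ∈ σ := hs (mem_insert_self _ _)
      have hsσ : s ⊆ σ := fun u hu => hs (mem_insert_of_mem hu)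
      have hcol : Γ.col v ∉ s.image Γ.col := by
        intro hmem
        obtain ⟨u, hu, huv⟩ := mem_image.1 hmem
        have hne : u ≠ v := fun h' => hv (h' ▸ hu)
        exact Γ.ne u v (hσ u (hsσ hu) v hvσ hne) huv
      have h1 : ecSet Γ s a (Γ.col v) = a (Γ.col v) := by
        unfold ecSet
        rw [if_neg hcol]
      rw [ih hsσ, h v hvσ (ecSet Γ s a), h1, ecSet_insert]
      unfold Wt
      rw [prod_insert hv]
      ring
  exact key σ (Finset.Subset.refl _)

theorem kerC_of_prod {Γ : ColGraph V C} {t : V → ℝ} {σ : Finset V} (hσ : Γ.Cl σ)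
    {z : (C → Bool) → ℝ} {v : V} (hv : v ∈ σ)
    (hz : ∀ a b, z (Function.update a (Γ.col v) b) = z a) :
    KerC Γ t v (fun a => Wt Γ t σ a * z a) := by
  intro a
  show Wt Γ t σ a * z a = wt t v (a (Γ.col v)) *
    (Wt Γ t σ (Function.update a (Γ.col v) false) * z (Function.update a (Γ.col v) false))
  rw [hz]
  have h1 : Wt Γ t σ a = wt t v (a (Γ.col v)) *
      Wt Γ t σ (Function.update a (Γ.col v) false) := by
    unfold Wt
    rw [← mul_prod_erase σ _ hv, ← mul_prod_erase σ (fun u => wt t u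
      (Function.update a (Γ.col v) false (Γ.col u))) hv, Function.update_self]
    have h2 : wt t v false = 1 := by simp [wt]
    rw [h2, one_mul]
    congr 1
    refine prod_congr rfl fun u hu => ?_
    have hne : u ≠ v := ne_of_mem_erase hu
    have hcol : Γ.col u ≠ Γ.col v := Γ.ne u v (hσ u (mem_of_mem_erase hu) v hv hne)
    rw [Function.update_of_ne hcol]
  rw [h1]
  ring

theorem Wt_ecSet (Γ : ColGraph V C) (t : V → ℝ) (σ : Finset V) (a : C → Bool) :
    Wt Γ t σ (ecSet Γ σ a) = 1 := by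
  unfold Wt
  refine prod_eq_one fun v hv => ?_
  have h1 : ecSet Γ σ a (Γ.col v) = false := by
    unfold ecSet
    rw [if_pos (mem_image_of_mem _ hv)]
  rw [h1]
  simp [wt]

/-- the boundary of a chain does not depend on the colours of `τ` -/
theorem bdS_ecSet {ν : V → ℕ} {Γ : ColGraph V C} {t : V → ℝ} {U : Finset V} {i : ℕ}
    {z : Finset V → (C → Bool) → ℝ} (hz : IsChain Γ U i z) (τ : Finset V) (a : C → Bool) :
    bdS ν Γ t z τ (ecSet Γ τ a) = bdS ν Γ t z τ a := by
  unfold bdS
  refine sum_congr rfl fun v hv => ?_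
  rw [mem_compl] at hv
  have h1 : z (insert v τ) (ecSet Γ τ a) = z (insert v τ) a := by
    rw [← hz.ecSet_eq (insert v τ) (ecSet Γ τ a), ← hz.ecSet_eq (insert v τ) a, ecSet_insert,
      ecSet_insert, ecSet_idem]
  rw [h1]
  by_cases hz0 : z (insert v τ) a = 0
  · simp only [hz0, mul_zero]
  · have hcl := (hz.supp _ _ hz0).2.1
    have hcol : Γ.col v ∉ τ.image Γ.col := by
      intro hmem
      obtain ⟨u, hu, huv⟩ := mem_image.1 hmem
      have hne : u ≠ v := fun h' => hv (h' ▸ hu)
      exact Γ.ne u v (hcl u (mem_insert_of_mem hu) v (mem_insert_self _ _) hne) huv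
    have h2 : ecSet Γ τ a (Γ.col v) = a (Γ.col v) := by
      unfold ecSet
      rw [if_neg hcol]
    rw [h2]

/-! ### the operators -/

variable {w a : C ⊕ V ⊕ V → Matrix D D ℤ}

private theorem opM_kron_one (A : Matrix (C → Bool) (C → Bool) ℤ) (x : (C → Bool) × D → ℝ)
    (b : C → Bool) (d : D) :
    opM (A ⊗ₖ (1 : Matrix D D ℤ)) x (b, d) =
      (A.map (Int.cast : ℤ → ℝ) *ᵥ fun b' => x (b', d)) b := by
  unfold opM
  rw [Matrix.toLin'_apply]
  show ∑ q, (A ⊗ₖ (1 : Matrix D D ℤ)).map (Int.cast : ℤ → ℝ) (b, d) q * x q =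
    ∑ b', A.map (Int.cast : ℤ → ℝ) b b' * x (b', d)
  rw [Fintype.sum_prod_type]
  refine sum_congr rfl fun b' _ => ?_
  rw [sum_eq_single d]
  · simp [Matrix.kroneckerMap_apply]
  · intro d' _ hd
    simp [Matrix.kroneckerMap_apply, Matrix.one_apply_ne hd.symm]
  · intro h
    exact absurd (mem_univ _) h

theorem eK_ker_iff (hw : IsFermi w a) (Γ : ColGraph V C) (t : V → ℤ) (v : V)
    (x : (C → Bool) × D → ℝ) :
    opM (eK Γ w a t v) x = 0 ↔
      ∀ d, KerC Γ (fun v => (t v : ℝ)) v (fun b => x (b, d)) := by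
  have h1 : eK Γ w a t v = ((1 : Matrix (C → Bool) (C → Bool) ℤ) ⊗ₖ gamC w a (Γ.col v)) *
      (eC Γ t v ⊗ₖ (1 : Matrix D D ℤ)) := by
    rw [← Matrix.mul_kronecker_mul, one_mul, mul_one]
    rfl
  have h2 : eC Γ t v ⊗ₖ (1 : Matrix D D ℤ) =
      ((1 : Matrix (C → Bool) (C → Bool) ℤ) ⊗ₖ gamC w a (Γ.col v)) * eK Γ w a t v := by
    unfold eK
    rw [← Matrix.mul_kronecker_mul, one_mul]
    congr 1
    exact (gp_sq hw _).symm
  have h3 : opM (eK Γ w a t v) x = 0 ↔ opM (eC Γ t v ⊗ₖ (1 : Matrix D D ℤ)) x = 0 := by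
    constructor
    · intro h
      rw [h2, opM_mul', h, map_zero]
    · intro h
      rw [h1, opM_mul', h, map_zero]
  rw [h3]
  constructor
  · intro h d b
    show x (b, d) = wt (fun v => (t v : ℝ)) v (b (Γ.col v)) *
      x (Function.update b (Γ.col v) false, d)
    have h4 := congrFun h (Function.update b (Γ.col v) false, d)
    rw [opM_kron_one, eC_mulVec] at h4
    simp only [Function.update_self, Function.update_idem, Pi.zero_apply, wt, Bool.false_eq_true,
      if_false, one_mul] at h4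
    by_cases hb : b (Γ.col v) = true
    · have e : Function.update b (Γ.col v) true = b := by rw [← hb, Function.update_eq_self]
      rw [e] at h4
      rw [hb]
      simp only [wt, if_true]
      linarith
    · have hb' : b (Γ.col v) = false := by simpa using hb
      have e : Function.update b (Γ.col v) false = b := by rw [← hb', Function.update_eq_self]
      rw [e, hb']
      simp [wt]
  · intro h
    funext p
    obtain ⟨b, d⟩ := p
    rw [opM_kron_one, eC_mulVec, Pi.zero_apply]
    have h4 := h d (Function.update b (Γ.col v) true)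
    beta_reduce at h4
    rw [Function.update_self, Function.update_idem] at h4
    simp only [wt, if_true] at h4
    rw [h4, sub_self, mul_zero]

theorem sgn_eq_sg (ν : V → ℕ) (v : V) (τ : Finset V) : sgn ν v τ = ((sg ν v τ : ℤ) : ℝ) := by
  unfold sgn sg
  push_cast
  rfl

/-- **Exactness in the anticommuting model.** -/
theorem hv_of_vanS (hw : IsFermi w a) (ν : V → ℕ) (Γ : ColGraph V C) (G : SimpleGraph V)
    (hG : ∀ u v, G.Adj u v ↔ Γ.adj u v) (t : V → ℤ) (Y : Finset V) (i : ℕ)
    (h : VanS ℝ ν Γ (fun v => (t v : ℝ)) Y i) :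
    HV ν G (fun v => opM (eK Γ w a t v)) ⊤ Y i := by
  classical
  obtain ⟨T, hT⟩ : ∃ T : V → ℝ, T = fun v => (t v : ℝ) := ⟨_, rfl⟩
  rw [← hT] at h
  have hcl : ∀ σ, Pool.Agent.H85.Fold.Cl G σ ↔ Γ.Cl σ := by
    intro σ
    constructor
    · intro h u hu v hv huv
      exact (hG u v).1 (h u hu v hv huv)
    · intro h u hu v hv huv
      exact (hG u v).2 (h u hu v hv huv)
  intro c hc hbd
  -- the coordinates
  let z : D → Finset V → (C → Bool) → ℝ := fun d σ b => c σ (ecSet Γ σ b, d)
  have hker : ∀ σ, ∀ v ∈ σ, ∀ d, KerC Γ T v (fun b => c σ (b, d)) := by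
    intro σ v hv d
    rw [hT]
    exact (eK_ker_iff hw Γ t v (c σ)).1 (hc.ker σ v hv) d
  have hcz : ∀ σ b d, c σ (b, d) = Wt Γ T σ b * z d σ b := by
    intro σ b d
    by_cases h0 : c σ = 0
    · show c σ (b, d) = Wt Γ T σ b * c σ (ecSet Γ σ b, d)
      rw [h0]
      simp
    · obtain ⟨-, h1, -⟩ := hc.supp σ h0
      exact kerC_prod ((hcl σ).1 h1) (fun v hv => hker σ v hv d) b
  have hz : ∀ d, IsChain Γ Y i (z d) := by
    intro d
    refine ⟨fun σ b hne => ?_, fun σ b v e hv => ?_⟩
    · have h0 : c σ ≠ 0 := by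
        intro h0
        apply hne
        show c σ (ecSet Γ σ b, d) = 0
        rw [h0]
        rfl
      obtain ⟨h1, h2, h3⟩ := hc.supp σ h0
      exact ⟨h1, (hcl σ).1 h2, h3⟩
    · show c σ (ecSet Γ σ (Function.update b (Γ.col v) e), d) = c σ (ecSet Γ σ b, d)
      rw [ecSet_update Γ hv]
  -- boundaries in coordinates
  have hbdW : ∀ (d : D) (y : Finset V → (C → Bool) → ℝ) (τ : Finset V) (b : C → Bool),
      ∑ v ∈ τᶜ, sgn ν v τ * (Wt Γ T (insert v τ) b * y (insert v τ) b) =
        Wt Γ T τ b * bdS ν Γ T y τ b := by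
    intro d y τ b
    unfold bdS
    rw [mul_sum]
    refine sum_congr rfl fun v hv => ?_
    rw [mem_compl] at hv
    unfold Wt
    rw [prod_insert hv, sgn_eq_sg]
    ring
  have hbdz : ∀ d, bdS ν Γ T (z d) = 0 := by
    intro d
    funext τ b
    rw [← bdS_ecSet (hz d) τ b]
    have h1 := congrFun (congrFun hbd τ) (ecSet Γ τ b, d)
    have h2 : bd ν c τ (ecSet Γ τ b, d) =
        ∑ v ∈ τᶜ, sgn ν v τ * (Wt Γ T (insert v τ) (ecSet Γ τ b) *
          z d (insert v τ) (ecSet Γ τ b)) := by
      show (∑ v ∈ τᶜ, sgn ν v τ • c (insert v τ)) (ecSet Γ τ b, d) = _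
      rw [Finset.sum_apply]
      refine sum_congr rfl fun v _ => ?_
      rw [Pi.smul_apply, smul_eq_mul, hcz]
    rw [h2, hbdW d, Wt_ecSet, one_mul] at h1
    exact h1
  choose y hy1 hy2 using fun d => h (z d) (hz d) (hbdz d)
  refine ⟨fun σ p => Wt Γ T σ p.1 * y p.2 σ p.1, ⟨fun σ => Submodule.mem_top, ?_, ?_⟩, ?_⟩
  · intro σ v hv
    rw [eK_ker_iff hw]
    intro d
    rw [← hT]
    by_cases hσ : Γ.Cl σ
    · exact kerC_of_prod hσ hv fun b e => (hy1 d).indep σ b v e hv
    · have h0 : ∀ b, y d σ b = 0 := by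
        intro b
        by_contra hne
        exact hσ ((hy1 d).supp σ b hne).2.1
      intro b
      show Wt Γ T σ b * y d σ b = wt T v (b (Γ.col v)) *
        (Wt Γ T σ (Function.update b (Γ.col v) false) * y d σ (Function.update b (Γ.col v) false))
      rw [h0, h0]
      ring
  · intro σ hne
    obtain ⟨p, hp⟩ : ∃ p, (fun p : (C → Bool) × D => Wt Γ T σ p.1 * y p.2 σ p.1) p ≠ 0 := by
      by_contra hcon
      push Not at hcon
      exact hne (funext hcon)
    have h0 : y p.2 σ p.1 ≠ 0 := right_ne_zero_of_mul hp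
    obtain ⟨h1, h2, h3⟩ := (hy1 p.2).supp σ p.1 h0
    exact ⟨h1, (hcl σ).2 h2, h3⟩
  · funext τ p
    obtain ⟨b, d⟩ := p
    show (∑ v ∈ τᶜ, sgn ν v τ • (fun p : (C → Bool) × D =>
      Wt Γ T (insert v τ) p.1 * y p.2 (insert v τ) p.1)) (b, d) = c τ (b, d)
    rw [Finset.sum_apply, hcz, ← congrFun (congrFun (hy2 d) τ) b, ← hbdW d]
    rfl

end Pool.Agent.H4.HY
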