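import Pool.Agent.H4.HY.IntPt
import Pool.Agent.H4.Singer.ExactChain
import Pool.Agent.H4.Singer.ActBasic

/-!
# Project HB: signed complexes of coloured graphs
-/

set_option autoImplicit false
set_option linter.unusedSectionVars false

open Finset

namespace Pool.Agent.H4.HY

open Pool.Agent.H4.Singer

open scoped Matrix

variable {V C : Type} [DecidableEq V] [Fintype V] [DecidableEq C]

/-- the boundary with local coefficients and signs -/
def bdS {R : Type} [CommRing R] (ν : V → ℕ) (Γ : ColGraph V C) (t : V → R)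
    (z : Finset V → (C → Bool) → R) (τ : Finset V) (a : C → Bool) : R :=
  ∑ v ∈ τᶜ, (sg ν v τ : R) * (wt t v (a (Γ.col v)) * z (insert v τ) a)

/-- exactness in degree `i` of the signed complex of the induced subgraph on `U` -/
def VanS (K : Type) [Field K] (ν : V → ℕ) (Γ : ColGraph V C) (t : V → K) (U : Finset V)
    (i : ℕ) : Prop :=
  ∀ z : Finset V → (C → Bool) → K, IsChain Γ U i z → bdS ν Γ t z = 0 →
    ∃ y : Finset V → (C → Bool) → K, IsChain Γ U (i + 1) y ∧ bdS ν Γ t y = z

theorem sg_char_two {K : Type} [Field K] [CharP K 2] (ν : V → ℕ) (v : V) (τ : Finset V) :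
    (sg ν v τ : K) = 1 := by
  unfold sg
  have h : ((-1 : ℤ) : K) = 1 := by
    push_cast
    exact CharTwo.neg_eq 1
  rw [Int.cast_pow, h, one_pow]

theorem bdS_char_two {K : Type} [Field K] [CharP K 2] (ν : V → ℕ) (Γ : ColGraph V C) (t : V → K)
    (z : Finset V → (C → Bool) → K) : bdS ν Γ t z = bd Γ t z := by
  funext τ a
  unfold bdS bd
  refine Finset.sum_congr rfl fun v _ => ?_
  rw [sg_char_two, one_mul, smul_eq_mul]

theorem vanS_of_van {K : Type} [Field K] [CharP K 2] (ν : V → ℕ) (Γ : ColGraph V C) (t : V → K)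
    (U : Finset V) (i : ℕ) (h : Van Γ t U i) : VanS K ν Γ t U i := by
  intro z hz hbd
  rw [bdS_char_two] at hbd
  obtain ⟨y, hy, hyz⟩ := h z hz hbd
  exact ⟨y, hy, by rw [bdS_char_two, hyz]⟩

/-- the boundary of a chain is a chain -/
theorem isChain_bdS {R : Type} [CommRing R] (ν : V → ℕ) (Γ : ColGraph V C) (t : V → R)
    {U : Finset V} {i : ℕ} {z : Finset V → (C → Bool) → R} (hz : IsChain Γ U (i + 1) z) :
    IsChain Γ U i (bdS ν Γ t z) := by
  refine ⟨fun τ a h => ?_, fun τ a v b hv => ?_⟩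
  · unfold bdS at h
    obtain ⟨v, hv, hne⟩ := Finset.exists_ne_zero_of_sum_ne_zero h
    have hz0 : z (insert v τ) a ≠ 0 := fun h0 => hne (by rw [h0, mul_zero, mul_zero])
    obtain ⟨h1, h2, h3⟩ := hz.supp _ _ hz0
    rw [Finset.mem_compl] at hv
    refine ⟨(Finset.subset_insert v τ).trans h1, h2.mono (Finset.subset_insert v τ), ?_⟩
    rw [Finset.card_insert_of_notMem hv] at h3
    omega
  · unfold bdS
    refine Finset.sum_congr rfl fun u hu => ?_
    rw [Finset.mem_compl] at hu
    rw [hz.indep (insert u τ) a v b (Finset.mem_insert_of_mem hv)]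
    by_cases hz0 : z (insert u τ) a = 0
    · simp only [hz0, mul_zero]
    · have hcl := (hz.supp _ _ hz0).2.1
      have hadj : Γ.adj u v := hcl u (Finset.mem_insert_self _ _) v
        (Finset.mem_insert_of_mem hv) (fun h => hu (h ▸ hv))
      rw [Function.update_of_ne (Γ.ne u v hadj)]

theorem bdS_bdS {R : Type} [CommRing R] (ν : V → ℕ) (hν : Function.Injective ν)
    (Γ : ColGraph V C) (t : V → R) (z : Finset V → (C → Bool) → R) :
    bdS ν Γ t (bdS ν Γ t z) = 0 := by
  funext τ a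
  unfold bdS
  simp only [Finset.mul_sum, Pi.zero_apply]
  rw [Finset.sum_sigma']
  refine Finset.sum_involution (fun p _ => ⟨p.2, p.1⟩) ?_ ?_ ?_ ?_
  · rintro ⟨v, u⟩ h
    simp only [Finset.mem_sigma, Finset.mem_compl, Finset.mem_insert, not_or] at h
    simp only
    rw [Finset.insert_comm v u τ]
    have h1 := congrArg (Int.cast : ℤ → R) (sg_swap ν hν u v h.2.1 τ h.2.2 h.1)
    push_cast at h1
    linear_combination (wt t v (a (Γ.col v)) * wt t u (a (Γ.col u)) *
      z (insert u (insert v τ)) a) * h1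
  · rintro ⟨v, u⟩ h _ heq
    simp only [Finset.mem_sigma, Finset.mem_compl, Finset.mem_insert, not_or] at h
    simp only [Sigma.mk.injEq, heq_eq_eq] at heq
    exact h.2.1 heq.1
  · rintro ⟨v, u⟩ h
    simp only [Finset.mem_sigma, Finset.mem_compl, Finset.mem_insert, not_or] at h ⊢
    exact ⟨h.2.2, fun h1 => h.2.1 h1.symm, h.1⟩
  · rintro ⟨v, u⟩ _
    rfl

/-! ### Matrices -/

open Classical in
/-- the projection onto the chains of degree `i` on `U` -/
noncomputable def prjY (Γ : ColGraph V C) (U : Finset V) (i : ℕ) :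
    Matrix (Finset V × (C → Bool)) (Finset V × (C → Bool)) ℤ :=
  fun p p' => if p' = (p.1, ecSet Γ p.1 p.2) then
    (if p.1 ⊆ U ∧ Γ.Cl p.1 ∧ p.1.card = i then 1 else 0) else 0

variable [Fintype C]

open Classical in
theorem prjY_sum {R : Type} [CommRing R] (Γ : ColGraph V C) (U : Finset V) (i : ℕ)
    (z : Finset V × (C → Bool) → R) (p : Finset V × (C → Bool)) :
    ((prjY Γ U i).map (Int.cast : ℤ → R) *ᵥ z) p =
      if p.1 ⊆ U ∧ Γ.Cl p.1 ∧ p.1.card = i then z (p.1, ecSet Γ p.1 p.2) else 0 := by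
  show ∑ j, (prjY Γ U i).map (Int.cast : ℤ → R) p j * z j = _
  rw [Finset.sum_eq_single (p.1, ecSet Γ p.1 p.2)]
  · rw [Matrix.map_apply]
    unfold prjY
    rw [if_pos rfl]
    split_ifs
    · rw [Int.cast_one, one_mul]
    · rw [Int.cast_zero, zero_mul]
  · intro b _ hb
    rw [Matrix.map_apply]
    unfold prjY
    rw [if_neg hb, Int.cast_zero, zero_mul]
  · intro h
    exact absurd (mem_univ _) h

theorem prjY_fix {R : Type} [CommRing R] (Γ : ColGraph V C) (U : Finset V) (i : ℕ)
    (z : Finset V × (C → Bool) → R) :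
    (prjY Γ U i).map (Int.cast : ℤ → R) *ᵥ z = z ↔ IsChain Γ U i (fun σ a => z (σ, a)) := by
  classical
  constructor
  · intro h
    have h1 : ∀ σ a, (if σ ⊆ U ∧ Γ.Cl σ ∧ σ.card = i then z (σ, ecSet Γ σ a) else 0) = z (σ, a) := by
      intro σ a
      have h2 := congrFun h (σ, a)
      rw [prjY_sum] at h2
      exact h2
    refine ⟨fun σ a hne => ?_, fun σ a v b hv => ?_⟩
    · have h2 := h1 σ a
      by_cases h3 : σ ⊆ U ∧ Γ.Cl σ ∧ σ.card = i
      · exact h3
      · rw [if_neg h3] at h2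
        exact absurd h2.symm hne
    · rw [← h1 σ a, ← h1 σ (Function.update a (Γ.col v) b), ecSet_update Γ hv]
  · intro h
    funext p
    rw [prjY_sum]
    have h1 := h.ecSet_eq p.1 p.2
    beta_reduce at h1
    rw [h1]
    split_ifs with h2
    · rfl
    · by_contra hne
      exact h2 (h.supp p.1 p.2 (fun h0 => hne h0.symm))

theorem prjY_idem (Γ : ColGraph V C) (U : Finset V) (i : ℕ) :
    prjY Γ U i * prjY Γ U i = prjY Γ U i := by
  classical
  have h0 : ∀ z : Finset V × (C → Bool) → ℤ,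
      prjY Γ U i *ᵥ (prjY Γ U i *ᵥ z) = prjY Γ U i *ᵥ z := by
    intro z
    have e : (prjY Γ U i).map (Int.cast : ℤ → ℤ) = prjY Γ U i := by
      ext p q
      simp
    funext p
    have h1 := prjY_sum (R := ℤ) Γ U i (prjY Γ U i *ᵥ z) p
    have h2 := prjY_sum (R := ℤ) Γ U i z
    rw [e] at h1 h2
    rw [h1, h2, h2]
    by_cases h : p.1 ⊆ U ∧ Γ.Cl p.1 ∧ p.1.card = i
    · rw [if_pos h, if_pos h, if_pos h, ecSet_idem]
    · rw [if_neg h, if_neg h]
  ext p q
  have h1 := congrFun (h0 (Pi.single q 1)) p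
  rw [Matrix.mulVec_mulVec] at h1
  simpa using h1

/-- the matrix of the boundary -/
noncomputable def dmS (ν : V → ℕ) (Γ : ColGraph V C) :
    Matrix (Finset V × (C → Bool)) (Finset V × (C → Bool)) (MvPolynomial V ℤ) :=
  fun p p' => ∑ v ∈ (p.1)ᶜ,
    if insert v p.1 = p'.1 ∧ p'.2 = p.2 then
      MvPolynomial.C (sg ν v p.1) * wt MvPolynomial.X v (p.2 (Γ.col v)) else 0

theorem dmS_mul {R : Type} [CommRing R] (ν : V → ℕ) (Γ : ColGraph V C) (t : V → R)
    (z : Finset V × (C → Bool) → R) (p : Finset V × (C → Bool)) :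
    ((dmS ν Γ).map (ev t) *ᵥ z) p = bdS ν Γ t (fun σ a => z (σ, a)) p.1 p.2 := by
  have h1 : ∀ j, (dmS ν Γ).map (ev t) p j * z j = ∑ v ∈ (p.1)ᶜ,
      if j = (insert v p.1, p.2) then
        (sg ν v p.1 : R) * (wt t v (p.2 (Γ.col v)) * z j) else 0 := by
    intro j
    rw [Matrix.map_apply]
    unfold dmS
    rw [map_sum, Finset.sum_mul]
    refine Finset.sum_congr rfl fun v _ => ?_
    have h2 : (insert v p.1 = j.1 ∧ j.2 = p.2) ↔ j = (insert v p.1, p.2) := by
      constructor
      · rintro ⟨h, h'⟩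
        exact Prod.ext h.symm h'
      · rintro rfl
        exact ⟨rfl, rfl⟩
    by_cases h3 : j = (insert v p.1, p.2)
    · rw [if_pos h3, if_pos (h2.mpr h3), map_mul, ev_C, mul_assoc]
      congr 2
      unfold wt
      split_ifs
      · exact ev_X t v
      · exact map_one _
    · rw [if_neg h3, if_neg (fun h => h3 (h2.mp h)), map_zero, zero_mul]
  show ∑ j, (dmS ν Γ).map (ev t) p j * z j = _
  simp only [h1]
  rw [Finset.sum_comm]
  unfold bdS
  refine Finset.sum_congr rfl fun v _ => ?_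
  rw [Finset.sum_ite_eq' univ, if_pos (mem_univ _)]

theorem exAt_iff {K : Type} [Field K] (ν : V → ℕ) (Γ : ColGraph V C) (t : V → K) (U : Finset V)
    (i : ℕ) : ExAt K (prjY Γ U i) (prjY Γ U (i + 1)) (dmS ν Γ) t ↔ VanS K ν Γ t U i := by
  constructor
  · intro h z hz hbd
    obtain ⟨y, hy, hyz⟩ := h (fun p => z p.1 p.2) ((prjY_fix Γ U i _).2 hz) (by
      funext p
      rw [dmS_mul]
      exact congrFun (congrFun hbd p.1) p.2)
    refine ⟨fun σ a => y (σ, a), (prjY_fix Γ U (i + 1) y).1 hy, ?_⟩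
    funext τ a
    have h1 := congrFun hyz (τ, a)
    rw [dmS_mul] at h1
    exact h1
  · intro h z hz hbd
    obtain ⟨y, hy, hyz⟩ := h (fun σ a => z (σ, a)) ((prjY_fix Γ U i z).1 hz) (by
      funext τ a
      have h1 := congrFun hbd (τ, a)
      rw [dmS_mul] at h1
      exact h1)
    refine ⟨fun p => y p.1 p.2, (prjY_fix Γ U (i + 1) _).2 hy, ?_⟩
    funext p
    rw [dmS_mul]
    exact congrFun (congrFun hyz p.1) p.2

/-- **Integer parameters.** If for each `x` the complex on `U x` is exact in degree `i` for some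
parameters in some field, then there are integer parameters for which all these complexes are exact
over the reals. -/
theorem exists_int_vanS {X : Type} [Fintype X] (ν : V → ℕ) (hν : Function.Injective ν)
    (Γ : ColGraph V C) (U : X → Finset V) (i : ℕ)
    (h : ∀ x, ∃ (K : Type) (_ : Field K) (t : V → K), VanS K ν Γ t (U x) i) :
    ∃ t : V → ℤ, ∀ x, VanS ℝ ν Γ (fun v => (t v : ℝ)) (U x) i := by
  obtain ⟨t, ht⟩ := exists_int_point (fun x => prjY Γ (U x) i) (fun x => prjY Γ (U x) (i + 1))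
    (dmS ν Γ) (fun x => prjY_idem Γ (U x) i) (fun x => prjY_idem Γ (U x) (i + 1))
    (fun x => by
      obtain ⟨K, hK, t, ht⟩ := h x
      exact ⟨K, hK, t, (exAt_iff ν Γ t (U x) i).2 ht⟩)
    (fun x t y hy => by
      have hy' := (prjY_fix Γ (U x) (i + 1) y).1 hy
      have e : ∀ w : Finset V × (C → Bool) → ℝ, (dmS ν Γ).map (ev fun v => (t v : ℝ)) *ᵥ w =
          fun p => bdS ν Γ (fun v => (t v : ℝ)) (fun σ a => w (σ, a)) p.1 p.2 := by
        intro w
        funext p
        exact dmS_mul ν Γ _ w p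
      constructor
      · rw [prjY_fix, e]
        exact isChain_bdS ν Γ _ hy'
      · rw [e, e]
        funext p
        exact congrFun (congrFun (bdS_bdS ν hν Γ (fun v => (t v : ℝ)) fun σ a => y (σ, a)) p.1)
          p.2)
  exact ⟨t, fun x => (exAt_iff ν Γ _ (U x) i).1 (ht x)⟩

end Pool.Agent.H4.HY
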