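import Pool.Agent.H19.Cub.BMat
import Pool.Agent.H4.HY.ColS

/-!
# Project HB: the integer representation for coloured graphs

`eC v` is a nilpotent matrix of rank one on the colour factor of `v` with the kernel spanned by
`(1, t v)`; the matrices `eC v ⊗ γ (col v)` anticommute if `u`, `v` are adjacent.
-/

set_option autoImplicit false
set_option linter.unusedSectionVars false

open Finset

namespace Pool.Agent.H4.HY

open Pool.Agent.H4.Singer Pool.Agent.H85.Fold Pool.Agent.H85.Fold2 Pool.Agent.H19.Cub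

open scoped Matrix Kronecker

/-! ### fermions -/

section fermi

variable {I D : Type} [Fintype D] [DecidableEq D] {w a : I → Matrix D D ℤ}

theorem gp_sq (hw : IsFermi w a) (i : I) : (w i + a i) * (w i + a i) = 1 := by
  rw [add_mul, mul_add, mul_add, hw.w_sq, hw.a_sq, zero_add, add_zero]
  exact hw.one i

theorem gm_sq (hw : IsFermi w a) (i : I) : (w i - a i) * (w i - a i) = -1 := by
  rw [sub_mul, mul_sub, mul_sub, hw.w_sq, hw.a_sq, zero_sub, sub_zero, ← hw.one i]
  abel

theorem gp_gp (hw : IsFermi w a) {i j : I} (h : i ≠ j) :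
    (w i + a i) * (w j + a j) = -((w j + a j) * (w i + a i)) := by
  have h1 := hw.wa j i h.symm
  rw [add_mul, mul_add, mul_add, add_mul, mul_add, mul_add, hw.ww i j, hw.aa i j, hw.wa i j h, h1]
  abel

theorem gp_gm (hw : IsFermi w a) {i j : I} (h : i ≠ j) :
    (w i + a i) * (w j - a j) = -((w j - a j) * (w i + a i)) := by
  have h1 := hw.wa j i h.symm
  rw [add_mul, mul_sub, mul_sub, sub_mul, mul_add, mul_add, hw.ww i j, hw.aa i j, hw.wa i j h, h1]
  abel

theorem gm_gm (hw : IsFermi w a) {i j : I} (h : i ≠ j) :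
    (w i - a i) * (w j - a j) = -((w j - a j) * (w i - a i)) := by
  have h1 := hw.wa j i h.symm
  rw [sub_mul, mul_sub, mul_sub, sub_mul, mul_sub, mul_sub, hw.ww i j, hw.aa i j, hw.wa i j h, h1]
  abel

end fermi

/-! ### the colour factors -/

section colour

variable {V C : Type} [DecidableEq V] [Fintype V] [DecidableEq C] [Fintype C]

/-- the nilpotent matrix of `v` -/
def eC (Γ : ColGraph V C) (t : V → ℤ) (v : V) : Matrix (C → Bool) (C → Bool) ℤ := fun a b =>
  (if b = Function.update a (Γ.col v) false then wt t v (a (Γ.col v)) * t v else 0) -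
    (if b = Function.update a (Γ.col v) true then wt t v (a (Γ.col v)) else 0)

/-- the homotopy -/
def hC (Γ : ColGraph V C) (v : V) : Matrix (C → Bool) (C → Bool) ℤ := fun a b =>
  if b = Function.update a (Γ.col v) false then (if a (Γ.col v) then -1 else 0) else 0

theorem eC_mulVec {R : Type} [CommRing R] (Γ : ColGraph V C) (t : V → ℤ) (v : V)
    (φ : (C → Bool) → R) (a : C → Bool) :
    ((eC Γ t v).map (Int.cast : ℤ → R) *ᵥ φ) a =
      wt (fun v => (t v : R)) v (a (Γ.col v)) * ((t v : R) *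
        φ (Function.update a (Γ.col v) false) - φ (Function.update a (Γ.col v) true)) := by
  show ∑ b, (eC Γ t v).map (Int.cast : ℤ → R) a b * φ b = _
  have hwt : ((wt t v (a (Γ.col v)) : ℤ) : R) = wt (fun v => (t v : R)) v (a (Γ.col v)) := by
    unfold wt
    split_ifs <;> simp
  have h1 : ∀ b, (eC Γ t v).map (Int.cast : ℤ → R) a b * φ b =
      (if b = Function.update a (Γ.col v) false then
        wt (fun v => (t v : R)) v (a (Γ.col v)) * (t v : R) * φ b else 0) -
      (if b = Function.update a (Γ.col v) true then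
        wt (fun v => (t v : R)) v (a (Γ.col v)) * φ b else 0) := by
    intro b
    rw [Matrix.map_apply]
    unfold eC
    push_cast
    rw [hwt, sub_mul]
    congr 1
    · split_ifs <;> simp
    · split_ifs <;> simp
  simp only [h1]
  rw [Finset.sum_sub_distrib, Finset.sum_ite_eq' univ, Finset.sum_ite_eq' univ,
    if_pos (mem_univ _), if_pos (mem_univ _)]
  ring

theorem hC_mulVec {R : Type} [CommRing R] (Γ : ColGraph V C) (v : V)
    (φ : (C → Bool) → R) (a : C → Bool) :
    ((hC Γ v).map (Int.cast : ℤ → R) *ᵥ φ) a =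
      if a (Γ.col v) then - φ (Function.update a (Γ.col v) false) else 0 := by
  show ∑ b, (hC Γ v).map (Int.cast : ℤ → R) a b * φ b = _
  have h1 : ∀ b, (hC Γ v).map (Int.cast : ℤ → R) a b * φ b =
      (if b = Function.update a (Γ.col v) false then
        (if a (Γ.col v) then - φ b else 0) else 0) := by
    intro b
    rw [Matrix.map_apply]
    unfold hC
    split_ifs <;> simp
  simp only [h1]
  rw [Finset.sum_ite_eq' univ, if_pos (mem_univ _)]

private theorem mat_ext {J : Type} [Fintype J] [DecidableEq J] {M N : Matrix J J ℤ}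
    (h : ∀ φ : J → ℤ, M *ᵥ φ = N *ᵥ φ) : M = N := by
  ext p q
  have h1 := congrFun (h (Pi.single q 1)) p
  simpa using h1

private theorem map_id_int {J : Type} (M : Matrix J J ℤ) : M.map (Int.cast : ℤ → ℤ) = M := by
  ext p q
  simp

private theorem eC_mv (Γ : ColGraph V C) (t : V → ℤ) (v : V) (φ : (C → Bool) → ℤ)
    (a : C → Bool) : (eC Γ t v *ᵥ φ) a = wt t v (a (Γ.col v)) * (t v *
        φ (Function.update a (Γ.col v) false) - φ (Function.update a (Γ.col v) true)) := by
  have h := eC_mulVec (R := ℤ) Γ t v φ a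
  rw [map_id_int] at h
  exact h

private theorem hC_mv (Γ : ColGraph V C) (v : V) (φ : (C → Bool) → ℤ)
    (a : C → Bool) : (hC Γ v *ᵥ φ) a =
      if a (Γ.col v) then - φ (Function.update a (Γ.col v) false) else 0 := by
  have h := hC_mulVec (R := ℤ) Γ v φ a
  rw [map_id_int] at h
  exact h

theorem eC_sq (Γ : ColGraph V C) (t : V → ℤ) (v : V) : eC Γ t v * eC Γ t v = 0 := by
  apply mat_ext
  intro φ
  rw [← Matrix.mulVec_mulVec, Matrix.zero_mulVec]
  funext a
  rw [eC_mv, eC_mv, eC_mv, Function.update_self, Function.update_self,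
    Function.update_idem, Function.update_idem, Function.update_idem, Function.update_idem]
  simp only [wt, if_true, Bool.false_eq_true, if_false, Pi.zero_apply]
  ring

theorem eC_hC (Γ : ColGraph V C) (t : V → ℤ) (v : V) :
    eC Γ t v * hC Γ v + hC Γ v * eC Γ t v = 1 := by
  apply mat_ext
  intro φ
  rw [Matrix.add_mulVec, ← Matrix.mulVec_mulVec, ← Matrix.mulVec_mulVec, Matrix.one_mulVec]
  funext a
  rw [Pi.add_apply, eC_mv, hC_mv, hC_mv, hC_mv, eC_mv]
  simp only [Function.update_self, Function.update_idem, wt, if_true, Bool.false_eq_true,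
    if_false]
  by_cases h : a (Γ.col v) = true
  · rw [if_pos h, if_pos h]
    have h1 : Function.update a (Γ.col v) true = a := by
      rw [← h, Function.update_eq_self]
    rw [h1]
    ring
  · have h' : a (Γ.col v) = false := by simpa using h
    rw [if_neg h, if_neg h]
    have h1 : Function.update a (Γ.col v) false = a := by
      rw [← h', Function.update_eq_self]
    rw [h1]
    ring

theorem eC_comm (Γ : ColGraph V C) (t : V → ℤ) {u v : V} (h : Γ.col u ≠ Γ.col v) :
    eC Γ t u * eC Γ t v = eC Γ t v * eC Γ t u := by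
  apply mat_ext
  intro φ
  rw [← Matrix.mulVec_mulVec, ← Matrix.mulVec_mulVec]
  funext a
  have uc : ∀ x y : Bool, Function.update (Function.update a (Γ.col u) x) (Γ.col v) y =
      Function.update (Function.update a (Γ.col v) y) (Γ.col u) x := fun x y =>
    Function.update_comm h x y a
  simp only [eC_mv, Function.update_of_ne h, Function.update_of_ne h.symm, uc]
  ring

theorem eC_hC_comm (Γ : ColGraph V C) (t : V → ℤ) {u v : V} (h : Γ.col u ≠ Γ.col v) :
    eC Γ t u * hC Γ v = hC Γ v * eC Γ t u := by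
  apply mat_ext
  intro φ
  rw [← Matrix.mulVec_mulVec, ← Matrix.mulVec_mulVec]
  funext a
  have uc : ∀ x y : Bool, Function.update (Function.update a (Γ.col u) x) (Γ.col v) y =
      Function.update (Function.update a (Γ.col v) y) (Γ.col u) x := fun x y =>
    Function.update_comm h x y a
  simp only [eC_mv, hC_mv, Function.update_of_ne h, Function.update_of_ne h.symm, uc]
  by_cases h1 : a (Γ.col v) = true
  · rw [if_pos h1, if_pos h1, if_pos h1]
    ring
  · rw [if_neg h1, if_neg h1, if_neg h1]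
    ring

end colour

/-! ### the tensor products -/

section tensor

variable {V C D : Type} [DecidableEq V] [Fintype V] [DecidableEq C] [Fintype C] [Fintype D]
  [DecidableEq D] {w a : C ⊕ V ⊕ V → Matrix D D ℤ}

/-- the Clifford matrix of a colour -/
def gamC (w a : C ⊕ V ⊕ V → Matrix D D ℤ) (c : C) : Matrix D D ℤ := w (Sum.inl c) + a (Sum.inl c)

/-- the nilpotent operators -/
def eK (Γ : ColGraph V C) (w a : C ⊕ V ⊕ V → Matrix D D ℤ) (t : V → ℤ) (v : V) :
    Matrix ((C → Bool) × D) ((C → Bool) × D) ℤ := eC Γ t v ⊗ₖ gamC w a (Γ.col v)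

/-- the homotopies -/
def hK (Γ : ColGraph V C) (w a : C ⊕ V ⊕ V → Matrix D D ℤ) (v : V) :
    Matrix ((C → Bool) × D) ((C → Bool) × D) ℤ := hC Γ v ⊗ₖ gamC w a (Γ.col v)

/-- operators of square `1` -/
def gK (w a : C ⊕ V ⊕ V → Matrix D D ℤ) (v : V) :
    Matrix ((C → Bool) × D) ((C → Bool) × D) ℤ :=
  (1 : Matrix (C → Bool) (C → Bool) ℤ) ⊗ₖ (w (Sum.inr (Sum.inl v)) + a (Sum.inr (Sum.inl v)))

/-- operators of square `-1` -/
def cK (w a : C ⊕ V ⊕ V → Matrix D D ℤ) (v : V) :
    Matrix ((C → Bool) × D) ((C → Bool) × D) ℤ :=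
  (1 : Matrix (C → Bool) (C → Bool) ℤ) ⊗ₖ (w (Sum.inr (Sum.inr v)) - a (Sum.inr (Sum.inr v)))

/-- the involutions -/
def bK (Γ : ColGraph V C) (w a : C ⊕ V ⊕ V → Matrix D D ℤ) (t : V → ℤ) (N : ℤ) (v : V) :
    Matrix ((C → Bool) × D) ((C → Bool) × D) ℤ :=
  (N • eK Γ w a t v + gK w a v) * cK w a v

private theorem kron_mul (A B : Matrix (C → Bool) (C → Bool) ℤ) (A' B' : Matrix D D ℤ) :
    (A ⊗ₖ A') * (B ⊗ₖ B') = (A * B) ⊗ₖ (A' * B') :=
  (Matrix.mul_kronecker_mul A B A' B').symm

private theorem kron_neg (A : Matrix (C → Bool) (C → Bool) ℤ) (B : Matrix D D ℤ) :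
    A ⊗ₖ (-B) = -(A ⊗ₖ B) := by
  ext p q
  simp [Matrix.kroneckerMap_apply]

private theorem zero_kron (B : Matrix D D ℤ) :
    (0 : Matrix (C → Bool) (C → Bool) ℤ) ⊗ₖ B = 0 := by
  ext p q
  simp [Matrix.kroneckerMap_apply]

private theorem one_kron :
    (1 : Matrix (C → Bool) (C → Bool) ℤ) ⊗ₖ (1 : Matrix D D ℤ) = 1 :=
  Matrix.one_kronecker_one

theorem eK_sq (Γ : ColGraph V C) (t : V → ℤ) (v : V) :
    eK Γ w a t v * eK Γ w a t v = 0 := by
  unfold eK
  rw [kron_mul, eC_sq, zero_kron]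

theorem eK_anti (hw : IsFermi w a) (Γ : ColGraph V C) (t : V → ℤ) {u v : V}
    (h : Γ.col u ≠ Γ.col v) : eK Γ w a t u * eK Γ w a t v = -(eK Γ w a t v * eK Γ w a t u) := by
  unfold eK gamC
  rw [kron_mul, kron_mul, eC_comm Γ t h,
    gp_gp hw (i := Sum.inl (Γ.col u)) (j := Sum.inl (Γ.col v)) (fun h' => h (Sum.inl.inj h')),
    kron_neg]

theorem eK_hK (hw : IsFermi w a) (Γ : ColGraph V C) (t : V → ℤ) (v : V) :
    eK Γ w a t v * hK Γ w a v + hK Γ w a v * eK Γ w a t v = 1 := by
  unfold eK hK gamC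
  rw [kron_mul, kron_mul, gp_sq hw, ← Matrix.add_kronecker, eC_hC, one_kron]

theorem eK_hK_anti (hw : IsFermi w a) (Γ : ColGraph V C) (t : V → ℤ) {u v : V}
    (h : Γ.col u ≠ Γ.col v) : eK Γ w a t u * hK Γ w a v = -(hK Γ w a v * eK Γ w a t u) := by
  unfold eK hK gamC
  rw [kron_mul, kron_mul, eC_hC_comm Γ t h,
    gp_gp hw (i := Sum.inl (Γ.col u)) (j := Sum.inl (Γ.col v)) (fun h' => h (Sum.inl.inj h')),
    kron_neg]

theorem gK_sq (hw : IsFermi w a) (v : V) :
    (gK w a v : Matrix ((C → Bool) × D) ((C → Bool) × D) ℤ) * gK w a v = 1 := by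
  unfold gK
  rw [kron_mul, gp_sq hw, one_mul, one_kron]

theorem cK_sq (hw : IsFermi w a) (v : V) :
    (cK w a v : Matrix ((C → Bool) × D) ((C → Bool) × D) ℤ) * cK w a v = -1 := by
  unfold cK
  rw [kron_mul, gm_sq hw, one_mul, kron_neg, one_kron]

theorem gK_anti (hw : IsFermi w a) {u v : V} (h : u ≠ v) :
    (gK w a u : Matrix ((C → Bool) × D) ((C → Bool) × D) ℤ) * gK w a v =
      -(gK w a v * gK w a u) := by
  unfold gK
  rw [kron_mul, kron_mul, gp_gp hw (fun h' => h (Sum.inl.inj (Sum.inr.inj h'))), kron_neg]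

theorem cK_anti (hw : IsFermi w a) {u v : V} (h : u ≠ v) :
    (cK w a u : Matrix ((C → Bool) × D) ((C → Bool) × D) ℤ) * cK w a v =
      -(cK w a v * cK w a u) := by
  unfold cK
  rw [kron_mul, kron_mul, gm_gm hw (fun h' => h (Sum.inr.inj (Sum.inr.inj h'))), kron_neg]

theorem eK_gK (hw : IsFermi w a) (Γ : ColGraph V C) (t : V → ℤ) (u v : V) :
    eK Γ w a t u * gK w a v = -(gK w a v * eK Γ w a t u) := by
  unfold eK gK gamC
  rw [kron_mul, kron_mul, gp_gp hw (fun h' => Sum.inl_ne_inr h'), kron_neg, one_mul, mul_one]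

theorem eK_cK (hw : IsFermi w a) (Γ : ColGraph V C) (t : V → ℤ) (u v : V) :
    eK Γ w a t u * cK w a v = -(cK w a v * eK Γ w a t u) := by
  unfold eK cK gamC
  rw [kron_mul, kron_mul, gp_gm hw (fun h' => Sum.inl_ne_inr h'), kron_neg, one_mul, mul_one]

theorem gK_cK (hw : IsFermi w a) (u v : V) :
    (gK w a u : Matrix ((C → Bool) × D) ((C → Bool) × D) ℤ) * cK w a v =
      -(cK w a v * gK w a u) := by
  unfold gK cK
  rw [kron_mul, kron_mul, gp_gm hw (fun h' => Sum.inl_ne_inr (Sum.inr.inj h')), kron_neg]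

/-! ### the involutions -/

private theorem bk_x_c (hw : IsFermi w a) (Γ : ColGraph V C) (t : V → ℤ) (N : ℤ) (u v : V) :
    (N • eK Γ w a t u + gK w a u) * cK w a v = -(cK w a v * (N • eK Γ w a t u + gK w a u)) := by
  rw [add_mul, mul_add, smul_mul_assoc, mul_smul_comm, eK_cK hw, gK_cK hw, smul_neg, neg_add]

private theorem bk_x_sq (hw : IsFermi w a) (Γ : ColGraph V C) (t : V → ℤ) (N : ℤ) (v : V) :
    (N • eK Γ w a t v + gK w a v) * (N • eK Γ w a t v + gK w a v) = 1 := by
  rw [add_mul, mul_add, mul_add, smul_mul_smul_comm, eK_sq, smul_zero, gK_sq hw, smul_mul_assoc,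
    mul_smul_comm, eK_gK hw, smul_neg]
  abel

private theorem bk_x_anti (hw : IsFermi w a) (Γ : ColGraph V C) (t : V → ℤ) (N : ℤ) {u v : V}
    (h : Γ.col u ≠ Γ.col v) :
    (N • eK Γ w a t u + gK w a u) * (N • eK Γ w a t v + gK w a v) =
      -((N • eK Γ w a t v + gK w a v) * (N • eK Γ w a t u + gK w a u)) := by
  have huv : u ≠ v := fun h' => h (congrArg Γ.col h')
  have h1 := eK_gK hw Γ t v u
  rw [add_mul, mul_add, mul_add, add_mul, mul_add, mul_add, smul_mul_smul_comm,
    smul_mul_smul_comm, eK_anti hw Γ t h, gK_anti hw huv, smul_mul_assoc, smul_mul_assoc,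
    mul_smul_comm, mul_smul_comm, eK_gK hw Γ t u v, h1, smul_neg, smul_neg, smul_neg]
  abel

theorem bK_sq (hw : IsFermi w a) (Γ : ColGraph V C) (t : V → ℤ) (N : ℤ) (v : V) :
    bK Γ w a t N v * bK Γ w a t N v = 1 := by
  unfold bK
  obtain ⟨x, hx⟩ : ∃ x, x = N • eK Γ w a t v + gK w a v := ⟨_, rfl⟩
  have h1 := bk_x_c hw Γ t N v v
  have h2 := bk_x_sq hw Γ t N v
  have h3 := cK_sq (C := C) hw v
  rw [← hx] at h1 h2 ⊢
  calc x * cK w a v * (x * cK w a v) = x * (cK w a v * x) * cK w a v := by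
        simp only [mul_assoc]
    _ = x * (-(x * cK w a v)) * cK w a v := by rw [h1, neg_neg]
    _ = -(x * x * (cK w a v * cK w a v)) := by
        simp only [mul_neg, neg_mul, mul_assoc]
    _ = 1 := by rw [h2, h3, one_mul, neg_neg]

theorem bK_comm (hw : IsFermi w a) (Γ : ColGraph V C) (t : V → ℤ) (N : ℤ) (u v : V)
    (h : Γ.col u ≠ Γ.col v) :
    bK Γ w a t N u * bK Γ w a t N v = bK Γ w a t N v * bK Γ w a t N u := by
  have huv : u ≠ v := fun h' => h (congrArg Γ.col h')
  unfold bK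
  obtain ⟨x, hx⟩ : ∃ x, x = N • eK Γ w a t u + gK w a u := ⟨_, rfl⟩
  obtain ⟨y, hy⟩ : ∃ y, y = N • eK Γ w a t v + gK w a v := ⟨_, rfl⟩
  obtain ⟨c, hc⟩ : ∃ c : Matrix ((C → Bool) × D) ((C → Bool) × D) ℤ, c = cK w a u := ⟨_, rfl⟩
  obtain ⟨d, hd⟩ : ∃ d : Matrix ((C → Bool) × D) ((C → Bool) × D) ℤ, d = cK w a v := ⟨_, rfl⟩
  have h1 : y * c = -(c * y) := by rw [hy, hc]; exact bk_x_c hw Γ t N v u
  have h2 : x * d = -(d * x) := by rw [hx, hd]; exact bk_x_c hw Γ t N u v
  have h3 : x * y = -(y * x) := by rw [hx, hy]; exact bk_x_anti hw Γ t N h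
  have h4 : c * d = -(d * c) := by rw [hc, hd]; exact cK_anti hw huv
  rw [← hx, ← hy, ← hc, ← hd]
  calc x * c * (y * d) = x * (c * y) * d := by simp only [mul_assoc]
    _ = x * (-(y * c)) * d := by rw [h1, neg_neg]
    _ = -(x * y * (c * d)) := by simp only [mul_neg, neg_mul, mul_assoc]
    _ = -(y * x * (d * c)) := by rw [h3, h4]; simp
    _ = y * (-(x * d)) * c := by simp only [mul_neg, neg_mul, mul_assoc]
    _ = y * (d * x) * c := by rw [h2, neg_neg]
    _ = y * d * (x * c) := by simp only [mul_assoc]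

/-! ### real operators -/

theorem opM_mul' {J : Type} [Fintype J] [DecidableEq J] (M N : Matrix J J ℤ) (x : J → ℝ) :
    opM (M * N) x = opM M (opM N x) := by
  unfold opM
  rw [Matrix.toLin'_apply, Matrix.toLin'_apply, Matrix.toLin'_apply, Matrix.mulVec_mulVec]
  congr 1
  exact map_mul (Int.castRingHom ℝ).mapMatrix M N

theorem opM_add' {J : Type} [Fintype J] [DecidableEq J] (M N : Matrix J J ℤ) (x : J → ℝ) :
    opM (M + N) x = opM M x + opM N x := by
  unfold opM
  rw [Matrix.toLin'_apply, Matrix.toLin'_apply, Matrix.toLin'_apply, ← Matrix.add_mulVec]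
  congr 1
  exact map_add (Int.castRingHom ℝ).mapMatrix M N

theorem opM_neg' {J : Type} [Fintype J] [DecidableEq J] (M : Matrix J J ℤ) (x : J → ℝ) :
    opM (-M) x = -opM M x := by
  unfold opM
  rw [Matrix.toLin'_apply, Matrix.toLin'_apply, ← Matrix.neg_mulVec]
  congr 1
  exact map_neg (Int.castRingHom ℝ).mapMatrix M

theorem opM_smul' {J : Type} [Fintype J] [DecidableEq J] (N : ℤ) (M : Matrix J J ℤ) (x : J → ℝ) :
    opM (N • M) x = (N : ℝ) • opM M x := by
  unfold opM
  rw [Matrix.toLin'_apply, Matrix.toLin'_apply, ← Matrix.smul_mulVec]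
  congr 1
  ext p q
  rw [Matrix.smul_apply, Matrix.map_apply, Matrix.map_apply, Matrix.smul_apply]
  simp

theorem opM_one' {J : Type} [Fintype J] [DecidableEq J] (x : J → ℝ) :
    opM (1 : Matrix J J ℤ) x = x := by
  unfold opM
  rw [Matrix.toLin'_apply]
  have : (1 : Matrix J J ℤ).map (Int.cast : ℤ → ℝ) = 1 := map_one (Int.castRingHom ℝ).mapMatrix
  rw [this, Matrix.one_mulVec]

theorem opM_zero' {J : Type} [Fintype J] [DecidableEq J] (x : J → ℝ) :
    opM (0 : Matrix J J ℤ) x = 0 := by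
  unfold opM
  rw [Matrix.toLin'_apply]
  have : (0 : Matrix J J ℤ).map (Int.cast : ℤ → ℝ) = 0 := map_zero (Int.castRingHom ℝ).mapMatrix
  rw [this, Matrix.zero_mulVec]

private theorem opM_anti' {J : Type} [Fintype J] [DecidableEq J] {M N : Matrix J J ℤ}
    (h : M * N = -(N * M)) (x : J → ℝ) : opM M (opM N x) = -opM N (opM M x) := by
  rw [← opM_mul', h, opM_neg', opM_mul']

/-- the operators satisfy the relations of a perturbation -/
theorem isPert_K (hw : IsFermi w a) (Γ : ColGraph V C) (G : SimpleGraph V)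
    (hG : ∀ u v, G.Adj u v → Γ.col u ≠ Γ.col v) (t : V → ℤ) :
    IsPert G (fun v => opM (eK Γ w a t v)) (fun v => opM (gK w a v))
      (fun v => opM (cK w a v)) where
  e_sq v x := by rw [← opM_mul', eK_sq, opM_zero']
  ee u v huv x := opM_anti' (eK_anti hw Γ t (hG u v huv)) x
  g_sq v x := by rw [← opM_mul', gK_sq hw, opM_one']
  c_sq v x := by rw [← opM_mul', cK_sq hw, opM_neg', opM_one']
  gg u v huv x := opM_anti' (gK_anti hw huv) x
  cc u v huv x := opM_anti' (cK_anti hw huv) x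
  eg u v x := opM_anti' (eK_gK hw Γ t u v) x
  ec u v x := opM_anti' (eK_cK hw Γ t u v) x
  gc u v x := opM_anti' (gK_cK hw u v) x
  lift := by
    intro σ v hvσ hcl x hx
    refine ⟨opM (hK Γ w a v) x, fun u hu => ?_, ?_⟩
    · have huv : u ≠ v := fun h => hvσ (h ▸ hu)
      have hadj : G.Adj u v := hcl u (mem_insert_of_mem hu) v (mem_insert_self _ _) huv
      have h1 := opM_anti' (eK_hK_anti hw Γ t (hG u v hadj)) x
      rw [h1, hx u (mem_insert_of_mem hu), map_zero, neg_zero]
    · have h1 := congrArg (fun M => opM M x) (eK_hK hw Γ t v)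
      simp only [opM_add', opM_mul', opM_one'] at h1
      rw [hx v (mem_insert_self v σ), map_zero, add_zero] at h1
      exact h1

theorem at_bK (Γ : ColGraph V C) (w a : C ⊕ V ⊕ V → Matrix D D ℤ) (t : V → ℤ) (N : ℤ) (v : V)
    (x : (C → Bool) × D → ℝ) :
    At (fun v => opM (eK Γ w a t v)) (fun v => opM (gK w a v)) (fun v => opM (cK w a v)) (N : ℝ)
      v x = (mc ℝ (bK Γ w a t N) v).mulVec x := by
  have h1 : (mc ℝ (bK Γ w a t N) v).mulVec x = opM (bK Γ w a t N v) x := by
    unfold opM mc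
    rw [Matrix.toLin'_apply]
  rw [h1]
  unfold bK At
  rw [opM_mul', opM_add', opM_smul']
  rfl

end tensor

end Pool.Agent.H4.HY
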