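import Pool.Agent.H4.HY.ColHV
import Pool.Agent.H19.Cub.Transf

/-!
# Project HB: the transfer theorem

`C` is a finite special cube complex (cube complex with labelled edges) whose labels are coloured such
that adjacent labels have different colours. If at every vertex `x` the complex of the labels at `x` is
exact in degree `i` for some parameters in some field of characteristic two, then the reduced
`ℓ²`-homology of the universal cover vanishes in degree `i`.
-/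

set_option autoImplicit false
set_option linter.unusedSectionVars false

open Finset Filter

namespace Pool.Agent.H4.HY

open Pool.Agent.H4.Singer Pool.Agent.H85.Fold Pool.Agent.H85.Fold2 Pool.Agent.H19.Cub

variable {V C : Type} [DecidableEq V] [Fintype V] [DecidableEq C] [Fintype C]

/-- **Integer representations with exact twisted complexes.** -/
theorem exists_imod_hv (G : SimpleGraph V) (Γ : ColGraph V C)
    (hcol : ∀ u v, G.Adj u v → Γ.col u ≠ Γ.col v) (ν : V → ℕ) (hν : Function.Injective ν) (i : ℕ)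
    {X : Type} (U : X → Finset V) (t : V → ℤ)
    (h : ∀ (D : Type) [Fintype D] [DecidableEq D] (w a : C ⊕ V ⊕ V → Matrix D D ℤ),
      IsFermi w a → ∀ x, HV ν G (fun v => opM (eK Γ w a t v)) ⊤ (U x) i) :
    ∃ ρ : IMod G, Nonempty ρ.D ∧ ∀ (Ω : Type) [Fintype Ω] (Y : Ω → Finset V) (s : V → Ω → Ω),
      IsSpec G Y s → (∀ ω, ∃ x, Y ω = U x) →
        SZ ℝ G Y (mc ℝ ρ.A) s ν i ≤ SB ℝ G Y (mc ℝ ρ.A) s ν i := by
  classical
  obtain ⟨D, hD1, hD2, hD3, w, a, hw⟩ := exists_fermi (C ⊕ V ⊕ V)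
  have hpert := isPert_K hw Γ G hcol t
  obtain ⟨t₀, ht₀⟩ := tw_exactS ν hν hpert i
  obtain ⟨N, hN⟩ := exists_nat_ge t₀
  refine ⟨⟨(C → Bool) × D, inferInstance, inferInstance, bK Γ w a t N, bK_sq hw Γ t N,
    fun u v huv => bK_comm hw Γ t N u v (hcol u v huv)⟩, inferInstance, ?_⟩
  intro Ω _ Y s hs hgood f hfZ
  obtain ⟨hf1, hf2⟩ := Submodule.mem_inf.1 hfZ
  have hHV : ∀ x, HV ν G (fun v => opM (eK Γ w a t v)) ⊤ (Y x) i := by
    intro ω
    obtain ⟨x, hx⟩ := hgood ω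
    rw [hx]
    exact h D w a hw x
  have hbd : ∀ f' : Finset V → Ω → (C → Bool) × D → ℝ, bd ν f' = tdl ℝ ν f' := by
    intro f'
    funext τ ω
    simp only [Pool.Agent.H85.Fold.bd, tdl, LinearMap.coe_mk, AddHom.coe_mk, Finset.sum_apply,
      Pi.smul_apply]
    refine Finset.sum_congr rfl fun v _ => ?_
    simp [sgn, Pool.Agent.H4.Singer.sg]
  have htw : IsTwS G Y (At (fun v => opM (eK Γ w a t v)) (fun v => opM (gK w a v))
      (fun v => opM (cK w a v)) (N : ℝ)) s i f := by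
    refine ⟨hf1.1, fun σ v hv ω => ?_⟩
    rw [hf1.2 σ v hv ω]
    congr 1
    exact (at_bK Γ w a t N v (f σ ω)).symm
  obtain ⟨y, hy1, hy2⟩ := ht₀ N hN Ω Y s hs hHV f htw
    (by rw [hbd]; exact LinearMap.mem_ker.1 hf2)
  refine ⟨y, ⟨hy1.supp, fun σ v hv ω => ?_⟩, ?_⟩
  · rw [hy1.tw σ v hv ω]
    congr 1
    exact at_bK Γ w a t N v (y σ ω)
  · rw [← hbd]
    exact hy2

/-- harmonic chains on `Ω × W` vanish -/
theorem harm_hv {Ω : Type} [Fintype Ω] (G : SimpleGraph V) (Γ : ColGraph V C)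
    (hcol : ∀ u v, G.Adj u v → Γ.col u ≠ Γ.col v) (Y : Ω → Finset V) (s : V → Ω → Ω)
    (hs : IsSpec G Y s) (i : ℕ) (ν : V → ℕ) (hν : Function.Injective ν) (t : V → ℤ)
    (h : ∀ (D : Type) [Fintype D] [DecidableEq D] (w a : C ⊕ V ⊕ V → Matrix D D ℤ),
      IsFermi w a → ∀ x, HV ν G (fun v => opM (eK Γ w a t v)) ⊤ (Y x) i) :
    ∀ f : Finset V → Ω × RGrp G → ℂ,
      IsHarmS G (prY Y (RGrp G)) (prS s (gen G)) ν i f → f = 0 := by
  classical
  obtain ⟨ρ, hne, hρ⟩ := exists_imod_hv G Γ hcol ν hν i Y t h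
  have hex : ∀ (P : Type) [Group P] [Fintype P] (g : V → P), (∀ v, g v * g v = 1) →
      (∀ u v, G.Adj u v → g u * g v = g v * g u) →
      SZ ℝ G (prY Y P) (mc ℝ ρ.A) (prS s g) ν i ≤ SB ℝ G (prY Y P) (mc ℝ ρ.A) (prS s g) ν i :=
    fun P _ _ g hg hgc => hρ (Ω × P) (prY Y P) (prS s g) (isSpec_pr hs g hg hgc)
      fun x => ⟨x.1, rfl⟩
  obtain ⟨q, P, grp, fin, π, XP, hq, hsep, -, hr⟩ := exists_levels_fin G (fun _ : Fin 1 => ρ)
  refine harm_infS G Y s hs ν i (l2ker_trivial π hsep (HSA G Y s ν i) ?_)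
  intro η hη
  obtain ⟨p₀, hp₀⟩ := growS ρ ν i Y s hex η hη
  filter_upwards [eventually_ge_atTop p₀] with j hj
  have : Fact (q j).Prime := ⟨(hq j).1⟩
  refine (harm_finS G Y s hs ν hν i (P j) (π j)).trans ?_
  exact hp₀ (q j) (hj.trans (hq j).2) (P j) (fun v => π j (gen G v))
    (fun v => by rw [← map_mul, gen_mul_gen, map_one])
    (fun u v huv => by rw [← map_mul, ← map_mul, gen_comm G u v huv]) (hr j 0)

/-- vanishing from the exactness of the local complexes with integer parameters -/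
theorem general_of_hv {X : Type} [Fintype X] (C' : CubeComplex V X) (Γ : ColGraph V C)
    (hcol : ∀ u v, C'.graph.Adj u v → Γ.col u ≠ Γ.col v) (i : ℕ)
    (h : ∀ ν : V → ℕ, Function.Injective ν → ∃ t : V → ℤ,
      ∀ (D : Type) [Fintype D] [DecidableEq D] (w a : C ⊕ V ⊕ V → Matrix D D ℤ),
        IsFermi w a → ∀ x, HV ν C'.graph (fun v => opM (eK Γ w a t v)) ⊤ (C'.lab x) i)
    (x : X) : L2HomologyZero (C'.cover x) i := by
  intro ν hν z hz hdz ε hε
  have h1 : ∀ f : Finset V → C'.Cover x → ℂ,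
      IsHarmS C'.graph (C'.cover x).lab (C'.cover x).cs ν i f → f = 0 := fun f hf => by
    obtain ⟨t, ht⟩ := h ν hν
    exact C'.harm_ext x ν i (harm_hv C'.graph Γ hcol C'.lab C'.cs C'.isSpec i ν hν t ht) f hf
  obtain ⟨y, hy, hye⟩ := hodgeS C'.graph (C'.cover x).lab (C'.cover x).cs (C'.cover x).isSpec ν hν i
    h1 z (((C'.cover x).isL2_iff i z).1 hz) hdz ε hε
  exact ⟨y, ((C'.cover x).isL2_iff (i + 1) y).2 hy, hye⟩

/-- **The transfer theorem.** -/
theorem general_of_van {X : Type} [Fintype X] (C' : CubeComplex V X) (Γ : ColGraph V C)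
    (hG : ∀ u v, C'.graph.Adj u v ↔ Γ.adj u v) (i : ℕ)
    (h : ∀ x, ∃ (K : Type) (_ : Field K) (_ : CharP K 2) (t : V → K), Van Γ t (C'.lab x) i)
    (x : X) : L2HomologyZero (C'.cover x) i := by
  refine general_of_hv C' Γ (fun u v huv => Γ.ne u v ((hG u v).1 huv)) i (fun ν hν => ?_) x
  obtain ⟨t, ht⟩ := exists_int_vanS ν hν Γ C'.lab i (fun y => by
    obtain ⟨K, hK, hK2, t, ht⟩ := h y
    exact ⟨K, hK, t, vanS_of_van ν Γ t (C'.lab y) i ht⟩)
  exact ⟨t, fun D _ _ w a hw y => hv_of_vanS hw ν Γ C'.graph hG t (C'.lab y) i (ht y)⟩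

end Pool.Agent.H4.HY
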