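import Pool.Agent.H4.Singer.Homotopy

/-!
# Project HB: from exactness over some field to exactness over the reals for integer parameters

`D` is a matrix of integer polynomials in the parameters, `P`, `P'` are integer projections. If for
every `x` of a finite set the complex is exact for some values of the parameters in some field, then
there are integer values of the parameters for which all these complexes are exact over the reals.
-/

set_option autoImplicit false
set_option linter.unusedSectionVars false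

open Finset

namespace Pool.Agent.H4.HY

open Pool.Agent.H4.Singer

open scoped Matrix

variable {J V : Type} [Fintype J] [DecidableEq J]

/-- evaluation of integer polynomials in a commutative ring -/
noncomputable def ev {W R : Type} [CommRing R] (s : W → R) : MvPolynomial W ℤ →+* R :=
  MvPolynomial.eval₂Hom (Int.castRingHom R) s

theorem ev_X {W R : Type} [CommRing R] (s : W → R) (w : W) : ev s (MvPolynomial.X w) = s w := by
  unfold ev
  rw [MvPolynomial.eval₂Hom_X']

theorem ev_C {W R : Type} [CommRing R] (s : W → R) (n : ℤ) :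
    ev s (MvPolynomial.C n) = (n : R) := by
  unfold ev
  rw [MvPolynomial.eval₂Hom_C]
  rfl

theorem ev_rename {W W' R : Type} [CommRing R] (s : W' → R) (k : W → W')
    (p : MvPolynomial W ℤ) : ev s (MvPolynomial.rename k p) = ev (s ∘ k) p := by
  unfold ev
  rw [MvPolynomial.coe_eval₂Hom, MvPolynomial.coe_eval₂Hom, MvPolynomial.eval₂_rename]

theorem ev_cast {W R : Type} [CommRing R] (s : W → ℤ) (p : MvPolynomial W ℤ) :
    ev (fun w => (s w : R)) p = ((ev s p : ℤ) : R) := by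
  have h : ev (fun w => (s w : R)) = (Int.castRingHom R).comp (ev s) := by
    apply MvPolynomial.ringHom_ext
    · intro n
      rw [ev_C, RingHom.comp_apply, ev_C]
      simp
    · intro w
      rw [ev_X, RingHom.comp_apply, ev_X]
      rfl
  rw [h]
  rfl

/-- the parameters and the entries of two unknown matrices -/
abbrev Vars (J V : Type) : Type := V ⊕ (J × J × Bool)

/-- the unknown matrices -/
noncomputable def hMat (J V : Type) (b : Bool) : Matrix J J (MvPolynomial (Vars J V) ℤ) :=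
  fun i j => MvPolynomial.X (Sum.inr (i, j, b))

/-- the matrix `(D P' H + H' D) P + (1 - P)` -/
noncomputable def phi (P P' : Matrix J J ℤ) (D : Matrix J J (MvPolynomial V ℤ)) :
    Matrix J J (MvPolynomial (Vars J V) ℤ) :=
  (D.map (MvPolynomial.rename (Sum.inl : V → Vars J V)) *
      (P'.map (MvPolynomial.C : ℤ →+* MvPolynomial (Vars J V) ℤ) * hMat J V true) +
    hMat J V false * D.map (MvPolynomial.rename (Sum.inl : V → Vars J V))) *
      P.map (MvPolynomial.C : ℤ →+* MvPolynomial (Vars J V) ℤ) +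
    (1 - P.map (MvPolynomial.C : ℤ →+* MvPolynomial (Vars J V) ℤ))

/-- the values of the unknown matrices -/
def gMat {R : Type} (s : Vars J V → R) (b : Bool) : Matrix J J R := fun i j => s (Sum.inr (i, j, b))

theorem phi_map {R : Type} [CommRing R] (P P' : Matrix J J ℤ) (D : Matrix J J (MvPolynomial V ℤ))
    (s : Vars J V → R) :
    (phi P P' D).map (ev s) =
      (D.map (ev (s ∘ Sum.inl)) *
            (P'.map (Int.cast : ℤ → R) * gMat s true) + gMat s false * D.map (ev (s ∘ Sum.inl))) *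
          P.map (Int.cast : ℤ → R) + (1 - P.map (Int.cast : ℤ → R)) := by
  have e1 : ∀ Q : Matrix J J ℤ,
      (ev s).mapMatrix (Q.map (MvPolynomial.C : ℤ →+* MvPolynomial (Vars J V) ℤ)) =
        Q.map (Int.cast : ℤ → R) := by
    intro Q
    ext i j
    exact ev_C s (Q i j)
  have e2 : (ev s).mapMatrix (D.map (MvPolynomial.rename (Sum.inl : V → Vars J V))) =
      D.map (ev (s ∘ Sum.inl)) := by
    ext i j
    exact ev_rename s Sum.inl (D i j)
  have e3 : ∀ b, (ev s).mapMatrix (hMat J V b) = gMat s b := by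
    intro b
    ext i j
    exact ev_X s _
  show (ev s).mapMatrix (phi P P' D) = _
  unfold phi
  rw [map_add, map_mul, map_add, map_mul, map_mul, map_mul, map_sub, map_one, e1, e1, e2, e3, e3]

/-- exactness of `D` with the projections `P`, `P'` for the values `t` of the parameters -/
def ExAt (K : Type) [Field K] (P P' : Matrix J J ℤ) (D : Matrix J J (MvPolynomial V ℤ))
    (t : V → K) : Prop :=
  ∀ z : J → K, P.map (Int.cast : ℤ → K) *ᵥ z = z → D.map (ev t) *ᵥ z = 0 →
    ∃ y : J → K, P'.map (Int.cast : ℤ → K) *ᵥ y = y ∧ D.map (ev t) *ᵥ y = z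

theorem phi_ne_zero {K : Type} [Field K] (P P' : Matrix J J ℤ)
    (D : Matrix J J (MvPolynomial V ℤ)) (hP : P * P = P) (t : V → K) (h : ExAt K P P' D t) :
    (phi P P' D).det ≠ 0 := by
  have hP2 : P.map (Int.cast : ℤ → K) * P.map (Int.cast : ℤ → K) = P.map (Int.cast : ℤ → K) := by
    have h1 := congrArg (Int.castRingHom K).mapMatrix hP
    rw [map_mul] at h1
    exact h1
  obtain ⟨H, H', h1, h2⟩ := exists_homotopy (P.map (Int.cast : ℤ → K)) (P'.map (Int.cast : ℤ → K))
    (D.map (ev t)) hP2 h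
  obtain ⟨s, hs⟩ : ∃ s : Vars J V → K, s = Sum.elim t
    (fun q => if q.2.2 then H q.1 q.2.1 else H' q.1 q.2.1) := ⟨_, rfl⟩
  have h3 := phi_map P P' D s
  have e1 : s ∘ Sum.inl = t := by
    rw [hs]
    rfl
  have e2 : gMat s true = H := by
    rw [hs]
    rfl
  have e3 : gMat s false = H' := by
    rw [hs]
    rfl
  rw [e1, e2, e3, h1, h2] at h3
  have h4 : (phi P P' D).map (ev s) = 1 := by
    rw [h3]
    abel
  intro h0
  have h5 : ev s (phi P P' D).det = ((phi P P' D).map (ev s)).det := RingHom.map_det (ev s) _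
  rw [h0, map_zero, h4, Matrix.det_one] at h5
  exact zero_ne_one h5

theorem exAt_of_phi (P P' : Matrix J J ℤ) (D : Matrix J J (MvPolynomial V ℤ))
    (hP' : P' * P' = P') (s : Vars J V → ℤ)
    (hB : ∀ y : J → ℝ, P'.map (Int.cast : ℤ → ℝ) *ᵥ y = y →
      P.map (Int.cast : ℤ → ℝ) *ᵥ (D.map (ev fun v => (s (Sum.inl v) : ℝ)) *ᵥ y) =
          D.map (ev fun v => (s (Sum.inl v) : ℝ)) *ᵥ y ∧
        D.map (ev fun v => (s (Sum.inl v) : ℝ)) *ᵥ
          (D.map (ev fun v => (s (Sum.inl v) : ℝ)) *ᵥ y) = 0)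
    (hs : ev s (phi P P' D).det ≠ 0) :
    ExAt ℝ P P' D (fun v => (s (Sum.inl v) : ℝ)) := by
  obtain ⟨r, hr⟩ : ∃ r : Vars J V → ℝ, r = fun w => (s w : ℝ) := ⟨_, rfl⟩
  have hrl : r ∘ Sum.inl = fun v => (s (Sum.inl v) : ℝ) := by
    rw [hr]
    rfl
  obtain ⟨Dr, hDr⟩ : ∃ Dr : Matrix J J ℝ, Dr = D.map (ev fun v => (s (Sum.inl v) : ℝ)) :=
    ⟨_, rfl⟩
  obtain ⟨Pr, hPr⟩ : ∃ Pr : Matrix J J ℝ, Pr = P.map (Int.cast : ℤ → ℝ) := ⟨_, rfl⟩
  obtain ⟨Pr', hPr'⟩ : ∃ Pr' : Matrix J J ℝ, Pr' = P'.map (Int.cast : ℤ → ℝ) := ⟨_, rfl⟩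
  obtain ⟨H, hH⟩ : ∃ H : Matrix J J ℝ, H = gMat r true := ⟨_, rfl⟩
  obtain ⟨H', hH'⟩ : ∃ H' : Matrix J J ℝ, H' = gMat r false := ⟨_, rfl⟩
  have hphi := phi_map P P' D r
  rw [hrl, ← hDr, ← hPr, ← hPr', ← hH, ← hH'] at hphi
  rw [← hDr, ← hPr, ← hPr'] at hB
  obtain ⟨Φ, hΦ⟩ : ∃ Φ : Matrix J J ℝ, Φ = (phi P P' D).map (ev r) := ⟨_, rfl⟩
  rw [← hΦ] at hphi
  have hdet : Φ.det ≠ 0 := by
    have h1 : ev r (phi P P' D).det = Φ.det := by
      rw [hΦ]
      exact RingHom.map_det (ev r) _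
    rw [← h1, hr, ev_cast]
    exact_mod_cast hs
  have hP2 : Pr' * Pr' = Pr' := by
    have h1 := congrArg (Int.castRingHom ℝ).mapMatrix hP'
    rw [map_mul] at h1
    rw [hPr']
    exact h1
  unfold ExAt
  rw [← hDr, ← hPr, ← hPr']
  let Z : Submodule ℝ (J → ℝ) :=
    { carrier := {z | Pr *ᵥ z = z ∧ Dr *ᵥ z = 0}
      zero_mem' := ⟨Matrix.mulVec_zero _, Matrix.mulVec_zero _⟩
      add_mem' := by
        rintro a b ⟨h1, h2⟩ ⟨h3, h4⟩
        exact ⟨by rw [Matrix.mulVec_add, h1, h3], by rw [Matrix.mulVec_add, h2, h4, add_zero]⟩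
      smul_mem' := by
        rintro c a ⟨h1, h2⟩
        exact ⟨by rw [Matrix.mulVec_smul, h1], by rw [Matrix.mulVec_smul, h2, smul_zero]⟩ }
  let B : Submodule ℝ (J → ℝ) :=
    { carrier := {z | ∃ y, Pr' *ᵥ y = y ∧ Dr *ᵥ y = z}
      zero_mem' := ⟨0, Matrix.mulVec_zero _, Matrix.mulVec_zero _⟩
      add_mem' := by
        rintro a b ⟨y, h1, h2⟩ ⟨y', h3, h4⟩
        exact ⟨y + y', by rw [Matrix.mulVec_add, h1, h3], by rw [Matrix.mulVec_add, h2, h4]⟩
      smul_mem' := by
        rintro c a ⟨y, h1, h2⟩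
        exact ⟨c • y, by rw [Matrix.mulVec_smul, h1], by rw [Matrix.mulVec_smul, h2]⟩ }
  have hBZ : B ≤ Z := by
    rintro z ⟨y, h1, rfl⟩
    exact hB y h1
  have hmap : ∀ z ∈ Z, Φ.mulVecLin z ∈ B := by
    rintro z ⟨h1, h2⟩
    show ∃ y, Pr' *ᵥ y = y ∧ Dr *ᵥ y = Φ *ᵥ z
    have e1 : Φ *ᵥ z = Dr *ᵥ (Pr' *ᵥ (H *ᵥ z)) := by
      rw [hphi, Matrix.add_mulVec, ← Matrix.mulVec_mulVec, h1, Matrix.add_mulVec,
        ← Matrix.mulVec_mulVec, ← Matrix.mulVec_mulVec, ← Matrix.mulVec_mulVec, h2,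
        Matrix.mulVec_zero, Matrix.sub_mulVec, h1, Matrix.one_mulVec, sub_self, add_zero,
        add_zero]
    refine ⟨Pr' *ᵥ (H *ᵥ z), ?_, e1.symm⟩
    rw [Matrix.mulVec_mulVec, hP2]
  have hinj : Function.Injective (Φ.mulVecLin.restrict hmap) := by
    intro a b hab
    have h1 : Φ *ᵥ (a : J → ℝ) = Φ *ᵥ (b : J → ℝ) := congrArg Subtype.val hab
    have h2 := congrArg (fun v => Φ.adjugate *ᵥ v) h1
    simp only [Matrix.mulVec_mulVec, Matrix.adjugate_mul, Matrix.smul_mulVec,
      Matrix.one_mulVec] at h2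
    apply Subtype.ext
    exact smul_right_injective _ hdet h2
  have hle := LinearMap.finrank_le_finrank_of_injective hinj
  have hEq : B = Z := Submodule.eq_of_le_of_finrank_le hBZ hle
  intro z h1 h2
  have h3 : z ∈ Z := ⟨h1, h2⟩
  rw [← hEq] at h3
  exact h3

/-- simultaneous integer values of the parameters -/
theorem exists_int_point {X : Type} [Fintype X] [Fintype V] (P P' : X → Matrix J J ℤ)
    (D : Matrix J J (MvPolynomial V ℤ)) (hP : ∀ x, P x * P x = P x)
    (hP' : ∀ x, P' x * P' x = P' x)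
    (hex : ∀ x, ∃ (K : Type) (_ : Field K) (t : V → K), ExAt K (P x) (P' x) D t)
    (hB : ∀ x (t : V → ℤ) (y : J → ℝ), (P' x).map (Int.cast : ℤ → ℝ) *ᵥ y = y →
      (P x).map (Int.cast : ℤ → ℝ) *ᵥ (D.map (ev fun v => (t v : ℝ)) *ᵥ y) =
          D.map (ev fun v => (t v : ℝ)) *ᵥ y ∧
        D.map (ev fun v => (t v : ℝ)) *ᵥ (D.map (ev fun v => (t v : ℝ)) *ᵥ y) = 0) :
    ∃ t : V → ℤ, ∀ x, ExAt ℝ (P x) (P' x) D (fun v => (t v : ℝ)) := by
  classical
  let k : X → Vars J V → V ⊕ (X × (J × J × Bool)) := fun x => Sum.map id fun q => (x, q)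
  have hk : ∀ x, Function.Injective (k x) := by
    intro x
    apply Function.Injective.sumMap Function.injective_id
    intro a b hab
    exact (Prod.ext_iff.1 hab).2
  let p : MvPolynomial (V ⊕ (X × (J × J × Bool))) ℤ :=
    ∏ x, MvPolynomial.rename (k x) (phi (P x) (P' x) D).det
  have hp : p ≠ 0 := by
    rw [Finset.prod_ne_zero_iff]
    intro x _ h0
    obtain ⟨K, _, t, ht⟩ := hex x
    apply phi_ne_zero (P x) (P' x) D (hP x) t ht
    apply MvPolynomial.rename_injective (k x) (hk x)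
    rw [h0, map_zero]
  obtain ⟨s, hs⟩ : ∃ s : V ⊕ (X × (J × J × Bool)) → ℤ, MvPolynomial.eval s p ≠ 0 := by
    by_contra hcon
    push Not at hcon
    apply hp
    apply MvPolynomial.funext
    intro s
    rw [hcon s, map_zero]
  refine ⟨fun v => s (Sum.inl v), fun x => ?_⟩
  refine exAt_of_phi (P x) (P' x) D (hP' x) (s ∘ k x) (hB x fun v => s (Sum.inl v)) ?_
  intro h0
  apply hs
  have h1 : MvPolynomial.eval s p = ∏ x, MvPolynomial.eval s
      (MvPolynomial.rename (k x) (phi (P x) (P' x) D).det) := map_prod _ _ _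
  rw [h1]
  apply Finset.prod_eq_zero (mem_univ x)
  have h2 : ∀ q : MvPolynomial (V ⊕ (X × (J × J × Bool))) ℤ, MvPolynomial.eval s q = ev s q := by
    intro q
    have : MvPolynomial.eval s = ev s := by
      apply MvPolynomial.ringHom_ext
      · intro n
        rw [ev_C, MvPolynomial.eval_C]
        simp
      · intro w
        rw [ev_X, MvPolynomial.eval_X]
    rw [this]
  rw [h2, ev_rename]
  exact h0

end Pool.Agent.H4.HY
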