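import Pool.Agent.H4.Singer2.PInterval

/-!
# Project HB: order complexes of spherical posets, coefficients in the field of two elements

`B` is a finite poset with least element in which all closed intervals are exact. For a chain `ρ` of
elements below `b` which contains the least element the complex of the chains `σ ⊇ ρ` below `b` (with
the boundary operator which omits elements outside `ρ`) is exact below the degree `rk b`, and the cycles
of degree `rk b` are the constant functions.
-/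

set_option autoImplicit false
set_option linter.unusedSectionVars false

open Finset

namespace Pool.Agent.H4.HY

open Pool.Agent.H4.Singer2

variable {B : Type} [PartialOrder B] [Fintype B] [DecidableEq B] {rk : B → ℕ}

/-- chains of elements -/
def IsCh (σ : Finset B) : Prop := ∀ x ∈ σ, ∀ y ∈ σ, x ≤ y ∨ y ≤ x

theorem IsCh.mono {σ τ : Finset B} (h : IsCh σ) (hτ : τ ⊆ σ) : IsCh τ :=
  fun x hx y hy => h x (hτ hx) y (hτ hy)

theorem IsCh.insert_top {σ : Finset B} (h : IsCh σ) {y : B} (hy : ∀ x ∈ σ, x < y) :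
    IsCh (insert y σ) := by
  intro u hu v hv
  rcases mem_insert.1 hu with h1 | h1
  · rcases mem_insert.1 hv with h2 | h2
    · exact Or.inl (by rw [h1, h2])
    · exact Or.inr (by rw [h1]; exact (hy v h2).le)
  · rcases mem_insert.1 hv with h2 | h2
    · exact Or.inl (by rw [h2]; exact (hy u h1).le)
    · exact h u h1 v h2

theorem IsCh.exists_top {σ : Finset B} (h : IsCh σ) (hne : σ.Nonempty) :
    ∃ y ∈ σ, ∀ x ∈ σ, x ≤ y := by
  obtain ⟨m, hm⟩ := σ.exists_maximal hne
  refine ⟨m, hm.prop, fun x hx => ?_⟩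
  rcases h x hx m hm.prop with h1 | h1
  · exact h1
  · exact hm.le_of_ge hx h1

theorem IsCh.card_le (h : IsSpherical rk) {σ : Finset B} (hσ : IsCh σ) {b : B}
    (hb : ∀ x ∈ σ, x < b) : σ.card ≤ rk b := by
  rw [← Finset.card_range (rk b)]
  refine Finset.card_le_card_of_injOn rk (fun x hx => ?_) ?_
  · have := h.lt (hb x hx)
    simpa using this
  · intro x hx y hy hxy
    by_contra hne
    rcases hσ x hx y hy with h1 | h1
    · exact absurd hxy (h.lt (lt_of_le_of_ne h1 hne)).ne
    · exact absurd hxy (h.lt (lt_of_le_of_ne h1 (Ne.symm hne))).ne'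

/-- chains of degree `m`, over `ρ` and below `b` -/
def InK (ρ : Finset B) (b : B) (m : ℕ) (z : Finset B → ZMod 2) : Prop :=
  ∀ σ, z σ ≠ 0 → ρ ⊆ σ ∧ IsCh σ ∧ (∀ x ∈ σ, x < b) ∧ σ.card = m

theorem InK.zero {ρ : Finset B} {b : B} {m : ℕ} : InK ρ b m 0 := fun _ h => absurd rfl h

theorem InK.add {ρ : Finset B} {b : B} {m : ℕ} {z z' : Finset B → ZMod 2} (h : InK ρ b m z)
    (h' : InK ρ b m z') : InK ρ b m (z + z') := by
  intro σ hσ
  by_cases h1 : z σ = 0
  · refine h' σ fun h2 => hσ ?_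
    rw [Pi.add_apply, h1, h2, add_zero]
  · exact h σ h1

theorem InK.smul {ρ : Finset B} {b : B} {m : ℕ} {z : Finset B → ZMod 2} (h : InK ρ b m z)
    (c : ZMod 2) : InK ρ b m (c • z) := by
  intro σ hσ
  refine h σ fun h1 => hσ ?_
  rw [Pi.smul_apply, h1, smul_zero]

theorem InK.sum {ι : Type} {s : Finset ι} {ρ : Finset B} {b : B} {m : ℕ}
    {z : ι → Finset B → ZMod 2} (h : ∀ i ∈ s, InK ρ b m (z i)) : InK ρ b m (∑ i ∈ s, z i) := by
  classical
  induction s using Finset.induction_on with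
  | empty => rw [sum_empty]; exact InK.zero
  | insert i s hi ih =>
    rw [sum_insert hi]
    exact (h i (mem_insert_self _ _)).add (ih fun j hj => h j (mem_insert_of_mem hj))

open Classical in
/-- the boundary, relative to `ρ` -/
noncomputable def ub (ρ : Finset B) : (Finset B → ZMod 2) →ₗ[ZMod 2] (Finset B → ZMod 2) where
  toFun z τ := if ρ ⊆ τ then ∑ v ∈ τᶜ, z (insert v τ) else 0
  map_add' z z' := by
    funext τ
    by_cases h : ρ ⊆ τ
    · simp [h, sum_add_distrib]
    · simp [h]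
  map_smul' r z := by
    funext τ
    by_cases h : ρ ⊆ τ
    · simp [h, mul_sum]
    · simp [h]

theorem ub_pos {ρ τ : Finset B} (h : ρ ⊆ τ) (z : Finset B → ZMod 2) :
    ub ρ z τ = ∑ v ∈ τᶜ, z (insert v τ) := if_pos h

theorem ub_neg {ρ τ : Finset B} (h : ¬ ρ ⊆ τ) (z : Finset B → ZMod 2) : ub ρ z τ = 0 := if_neg h

open Classical in
/-- the join with `y` -/
noncomputable def cone (y : B) : (Finset B → ZMod 2) →ₗ[ZMod 2] (Finset B → ZMod 2) where
  toFun w σ := if y ∈ σ ∧ ∀ x ∈ σ.erase y, x < y then w (σ.erase y) else 0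
  map_add' z z' := by
    funext τ
    by_cases h : y ∈ τ ∧ ∀ x ∈ τ.erase y, x < y
    · simp only [if_pos h, Pi.add_apply]
    · simp only [if_neg h, Pi.add_apply, add_zero]
  map_smul' r z := by
    funext τ
    by_cases h : y ∈ τ ∧ ∀ x ∈ τ.erase y, x < y
    · simp only [if_pos h, Pi.smul_apply, RingHom.id_apply]
    · simp only [if_neg h, Pi.smul_apply, smul_zero]

theorem cone_pos {y : B} {σ : Finset B} (h : y ∈ σ ∧ ∀ x ∈ σ.erase y, x < y)
    (w : Finset B → ZMod 2) : cone y w σ = w (σ.erase y) := if_pos h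

theorem cone_neg {y : B} {σ : Finset B} (h : ¬ (y ∈ σ ∧ ∀ x ∈ σ.erase y, x < y))
    (w : Finset B → ZMod 2) : cone y w σ = 0 := if_neg h

open Classical in
/-- the slice at `y` -/
noncomputable def sl (y : B) : (Finset B → ZMod 2) →ₗ[ZMod 2] (Finset B → ZMod 2) where
  toFun z σ := if ∀ x ∈ σ, x < y then z (insert y σ) else 0
  map_add' z z' := by
    funext τ
    by_cases h : ∀ x ∈ τ, x < y
    · simp only [if_pos h, Pi.add_apply]
    · simp only [if_neg h, Pi.add_apply, add_zero]
  map_smul' r z := by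
    funext τ
    by_cases h : ∀ x ∈ τ, x < y
    · simp only [if_pos h, Pi.smul_apply, RingHom.id_apply]
    · simp only [if_neg h, Pi.smul_apply, smul_zero]

theorem sl_pos {y : B} {σ : Finset B} (h : ∀ x ∈ σ, x < y) (z : Finset B → ZMod 2) :
    sl y z σ = z (insert y σ) := if_pos h

theorem sl_neg {y : B} {σ : Finset B} (h : ¬ ∀ x ∈ σ, x < y) (z : Finset B → ZMod 2) :
    sl y z σ = 0 := if_neg h

open Classical in
/-- the elements of `ρ` below `y` -/
noncomputable def lo (ρ : Finset B) (y : B) : Finset B := ρ.filter fun x => x < y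

theorem mem_lo {ρ : Finset B} {y x : B} : x ∈ lo ρ y ↔ x ∈ ρ ∧ x < y := by
  classical
  unfold lo
  rw [mem_filter]

open Classical in
/-- the sum of all saturated chains over `ρ` and below `b` -/
noncomputable def one (rk : B → ℕ) (ρ : Finset B) (b : B) : Finset B → ZMod 2 := fun σ =>
  if ρ ⊆ σ ∧ IsCh σ ∧ (∀ x ∈ σ, x < b) ∧ σ.card = rk b then 1 else 0

theorem inK_one (ρ : Finset B) (b : B) : InK ρ b (rk b) (one rk ρ b) := by
  classical
  intro σ hσ
  by_contra h
  exact hσ (if_neg h)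

/-- the properties of the complex over `ρ` and below `b` -/
structure Ok (rk : B → ℕ) (ρ : Finset B) (b : B) : Prop where
  low : ∀ m, m < rk b → ∀ z, InK ρ b m z → ub ρ z = 0 → ∃ y, InK ρ b (m + 1) y ∧ ub ρ y = z
  top : ∀ z, InK ρ b (rk b) z → ub ρ z = 0 → ∃ c : ZMod 2, z = c • one rk ρ b
  cyc : ub ρ (one rk ρ b) = 0
  ne : one rk ρ b ≠ 0

/-- a chain `ρ` with largest element `a` below `b` -/
structure Flg (ρ : Finset B) (a b : B) : Prop where
  ch : IsCh ρ
  mem : a ∈ ρ
  le : ∀ x ∈ ρ, x ≤ a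
  lt : a < b

variable {ρ : Finset B} {a b : B}

theorem Flg.lo_eq (hA : Flg ρ a b) {y : B} (hy : a < y) : lo ρ y = ρ := by
  ext x
  rw [mem_lo]
  exact ⟨fun h => h.1, fun h => ⟨h, lt_of_le_of_lt (hA.le x h) hy⟩⟩

theorem Flg.sub_iff (hA : Flg ρ a b) {y : B} (hy : a ≤ y) {τ : Finset B} (hτ : y ∈ τ) :
    lo ρ y ⊆ τ.erase y ↔ ρ ⊆ τ := by
  constructor
  · intro h x hx
    rcases ((hA.le x hx).trans hy).eq_or_lt with rfl | h1
    · exact hτ
    · exact mem_of_mem_erase (h (mem_lo.2 ⟨hx, h1⟩))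
  · intro h x hx
    obtain ⟨h1, h2⟩ := mem_lo.1 hx
    exact mem_erase.2 ⟨h2.ne, h h1⟩

theorem Flg.lt_of (hA : Flg ρ a b) {y : B} (hy : a ≤ y) (h : y ∉ ρ) : a < y := by
  refine lt_of_le_of_ne hy ?_
  rintro rfl
  exact h hA.mem

theorem Flg.sub_iff' (hA : Flg ρ a b) {y : B} (hy : a ≤ y) {τ : Finset B} (hτ : y ∉ τ) :
    lo ρ y ⊆ τ ↔ ρ ⊆ insert y τ := by
  rw [← hA.sub_iff hy (mem_insert_self y τ), erase_insert hτ]

theorem Flg.inK_sl (hA : Flg ρ a b) {y : B} (hy : a ≤ y) {m : ℕ} {z : Finset B → ZMod 2}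
    (hz : InK ρ b (m + 1) z) : InK (lo ρ y) y m (sl y z) := by
  intro σ hσ
  by_cases h : ∀ x ∈ σ, x < y
  · rw [sl_pos h] at hσ
    obtain ⟨h1, h2, h3, h4⟩ := hz _ hσ
    have hy' : y ∉ σ := fun h' => lt_irrefl y (h y h')
    rw [card_insert_of_notMem hy'] at h4
    exact ⟨(hA.sub_iff' hy hy').2 h1, h2.mono (subset_insert _ _), h, by omega⟩
  · exact absurd (sl_neg h z) hσ

theorem Flg.inK_cone (hA : Flg ρ a b) {y : B} (hy : a ≤ y) (hyb : y < b) {m : ℕ}
    {w : Finset B → ZMod 2} (hw : InK (lo ρ y) y m w) : InK ρ b (m + 1) (cone y w) := by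
  intro σ hσ
  by_cases h : y ∈ σ ∧ ∀ x ∈ σ.erase y, x < y
  · rw [cone_pos h] at hσ
    obtain ⟨h1, h2, h3, h4⟩ := hw _ hσ
    refine ⟨(hA.sub_iff hy h.1).1 h1, ?_, fun x hx => ?_, ?_⟩
    · rw [← insert_erase h.1]
      exact h2.insert_top h3
    · by_cases hxy : x = y
      · rw [hxy]; exact hyb
      · exact (h3 x (mem_erase.2 ⟨hxy, hx⟩)).trans hyb
    · have := card_erase_add_one h.1
      omega
  · exact absurd (cone_neg h w) hσ

/-- the boundary of a join -/
theorem Flg.ub_cone (hA : Flg ρ a b) {y : B} (hy : a ≤ y) {m : ℕ} {w : Finset B → ZMod 2}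
    (hw : InK (lo ρ y) y m w) :
    ub ρ (cone y w) = cone y (ub (lo ρ y) w) + (if y ∈ ρ then 0 else w) := by
  classical
  have hwy : ∀ τ, y ∈ τ → w τ = 0 := by
    intro τ hτ
    by_contra hne
    exact lt_irrefl y ((hw τ hne).2.2.1 y hτ)
  funext τ
  rw [Pi.add_apply]
  by_cases hρ : ρ ⊆ τ
  · rw [ub_pos hρ]
    by_cases hyτ : y ∈ τ
    · have h2 : (if y ∈ ρ then (0 : Finset B → ZMod 2) else w) τ = 0 := by
        split_ifs
        · rfl
        · exact hwy τ hyτ
      rw [h2, add_zero]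
      have her : ∀ v ∈ τᶜ, (insert v τ).erase y = insert v (τ.erase y) := by
        intro v hv
        rw [mem_compl] at hv
        exact erase_insert_of_ne (fun h => hv (h ▸ hyτ))
      by_cases hb : ∀ x ∈ τ.erase y, x < y
      · rw [cone_pos ⟨hyτ, hb⟩, ub_pos ((hA.sub_iff hy hyτ).2 hρ)]
        have h3 : (τ.erase y)ᶜ = insert y τᶜ := by
          ext x
          simp only [mem_compl, mem_erase, mem_insert, not_and, ne_eq]
          constructor
          · intro h
            by_cases hx : x = y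
            · exact Or.inl hx
            · exact Or.inr (h hx)
          · rintro (h | h) h'
            · exact absurd h h'
            · exact h
        rw [h3, sum_insert (by rw [mem_compl]; exact fun h => h hyτ), hwy _ (mem_insert_self _ _),
          zero_add]
        refine sum_congr rfl fun v hv => ?_
        by_cases hv' : ∀ x ∈ (insert v τ).erase y, x < y
        · rw [cone_pos ⟨mem_insert_of_mem hyτ, hv'⟩, her v hv]
        · rw [cone_neg (fun h => hv' h.2)]
          by_contra hne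
          rw [eq_comm] at hne
          have h4 := (hw _ hne).2.2.1
          rw [← her v hv] at h4
          exact hv' h4
      · rw [cone_neg (fun h => hb h.2)]
        refine sum_eq_zero fun v hv => ?_
        rw [cone_neg]
        intro h
        apply hb
        intro x hx
        refine h.2 x ?_
        rw [her v hv]
        exact mem_insert_of_mem hx
    · have hyρ : y ∉ ρ := fun h => hyτ (hρ h)
      rw [if_neg hyρ, cone_neg (fun h => hyτ h.1), zero_add,
        sum_eq_single_of_mem y (mem_compl.2 hyτ)]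
      · by_cases hb : ∀ x ∈ τ, x < y
        · rw [cone_pos ⟨mem_insert_self _ _, by rw [erase_insert hyτ]; exact hb⟩,
            erase_insert hyτ]
        · rw [cone_neg (fun h => hb (by rw [erase_insert hyτ] at h; exact h.2))]
          by_contra hne
          rw [eq_comm] at hne
          exact hb (hw _ hne).2.2.1
      · intro v _ hvy
        rw [cone_neg]
        intro h
        rcases mem_insert.1 h.1 with h1 | h1
        · exact hvy h1.symm
        · exact hyτ h1
  · rw [ub_neg hρ]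
    have h1 : cone y (ub (lo ρ y) w) τ = 0 := by
      by_cases hc : y ∈ τ ∧ ∀ x ∈ τ.erase y, x < y
      · rw [cone_pos hc, ub_neg]
        intro h
        exact hρ ((hA.sub_iff hy hc.1).1 h)
      · exact cone_neg hc _
    have h2 : (if y ∈ ρ then (0 : Finset B → ZMod 2) else w) τ = 0 := by
      split_ifs with hyρ
      · rfl
      · by_contra hne
        have h3 := (hw τ hne).1
        rw [hA.lo_eq (hA.lt_of hy hyρ)] at h3
        exact hρ h3
    rw [h1, h2, add_zero]

/-- the slices of a cycle -/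
theorem Flg.ub_sl (hA : Flg ρ a b) {y : B} (hy : a ≤ y) {m : ℕ} {z : Finset B → ZMod 2}
    (hz : InK ρ b (m + 1) z) (hc : ub ρ z = 0) (hv : ∀ v, y < v → sl v z = 0) :
    ub (lo ρ y) (sl y z) = 0 := by
  classical
  funext τ
  rw [Pi.zero_apply]
  by_cases hρ : lo ρ y ⊆ τ
  · rw [ub_pos hρ]
    by_cases hb : ∀ x ∈ τ, x < y
    · have hyτ : y ∉ τ := fun h => lt_irrefl y (hb y h)
      have h1 := congrFun hc (insert y τ)
      rw [ub_pos ((hA.sub_iff' hy hyτ).1 hρ), Pi.zero_apply] at h1
      have h2 : τᶜ = insert y (insert y τ)ᶜ := by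
        ext x
        simp only [mem_compl, mem_insert, not_or]
        constructor
        · intro h
          by_cases hx : x = y
          · exact Or.inl hx
          · exact Or.inr ⟨hx, h⟩
        · rintro (h | h)
          · rw [h]; exact hyτ
          · exact h.2
      rw [h2, sum_insert (by simp), sl_neg (fun h => lt_irrefl y (h y (mem_insert_self _ _))),
        zero_add, ← h1]
      refine sum_congr rfl fun v hvm => ?_
      rw [mem_compl, mem_insert, not_or] at hvm
      by_cases hvy : v < y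
      · rw [sl_pos, Finset.insert_comm]
        intro x hx
        rcases mem_insert.1 hx with rfl | hx
        · exact hvy
        · exact hb x hx
      · rw [sl_neg (fun h => hvy (h v (mem_insert_self _ _)))]
        by_contra hne
        rw [eq_comm] at hne
        have h3 := (hz _ hne).2.1 v (mem_insert_self _ _) y (mem_insert_of_mem (mem_insert_self _ _))
        have h4 : y < v := by
          rcases h3 with h3 | h3
          · exact absurd (lt_of_le_of_ne h3 hvm.1) hvy
          · exact lt_of_le_of_ne h3 (Ne.symm hvm.1)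
        have h5 := congrFun (hv v h4) (insert y τ)
        rw [sl_pos, Pi.zero_apply] at h5
        · exact hne h5
        · intro x hx
          rcases mem_insert.1 hx with rfl | hx
          · exact h4
          · exact (hb x hx).trans h4
    · refine sum_eq_zero fun v _ => ?_
      exact sl_neg (fun h => hb fun x hx => h x (mem_insert_of_mem hx)) z
  · exact ub_neg hρ _

theorem cone_sl_apply (y : B) (z : Finset B → ZMod 2) (σ : Finset B)
    (h : y ∈ σ ∧ ∀ x ∈ σ.erase y, x < y) : cone y (sl y z) σ = z σ := by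
  rw [cone_pos h, sl_pos h.2, insert_erase h.1]

open Classical in
/-- the elements between `a` and `b` -/
noncomputable def Yb (a b : B) : Finset B := univ.filter fun y => a ≤ y ∧ y < b

theorem mem_Yb {a b y : B} : y ∈ Yb a b ↔ a ≤ y ∧ y < b := by
  classical
  unfold Yb
  rw [mem_filter]
  exact ⟨fun h => h.2, fun h => ⟨mem_univ _, h⟩⟩

/-- a chain is the sum of the joins of its slices -/
theorem Flg.decomp (hA : Flg ρ a b) {m : ℕ} {z : Finset B → ZMod 2} (hz : InK ρ b m z) :
    z = ∑ y ∈ Yb a b, cone y (sl y z) := by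
  classical
  funext σ
  rw [Finset.sum_apply]
  by_cases h0 : z σ = 0
  · rw [h0]
    symm
    refine sum_eq_zero fun y _ => ?_
    by_cases hc : y ∈ σ ∧ ∀ x ∈ σ.erase y, x < y
    · rw [cone_sl_apply y z σ hc, h0]
    · exact cone_neg hc _
  · obtain ⟨h1, h2, h3, h4⟩ := hz σ h0
    obtain ⟨y, hy, hy'⟩ := h2.exists_top ⟨a, h1 hA.mem⟩
    have hmem : y ∈ Yb a b := mem_Yb.2 ⟨hy' a (h1 hA.mem), h3 y hy⟩
    have hlt : ∀ x ∈ σ.erase y, x < y := fun x hx =>
      lt_of_le_of_ne (hy' x (mem_of_mem_erase hx)) (ne_of_mem_erase hx)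
    rw [sum_eq_single_of_mem y hmem, cone_sl_apply y z σ ⟨hy, hlt⟩]
    intro x _ hxy
    rw [cone_neg]
    rintro ⟨h5, h6⟩
    have h7 := h6 y (mem_erase.2 ⟨Ne.symm hxy, hy⟩)
    exact absurd (hy' x h5) (not_le_of_gt h7)

theorem sl_cone {y : B} {x : Finset B → ZMod 2} (hx : ∀ σ, x σ ≠ 0 → ∀ u ∈ σ, u < y) (v : B) :
    sl v (cone y x) = if v = y then x else 0 := by
  classical
  funext σ
  by_cases hvy : v = y
  · subst hvy
    rw [if_pos rfl]
    by_cases hb : ∀ u ∈ σ, u < v
    · have hv : v ∉ σ := fun h => lt_irrefl v (hb v h)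
      rw [sl_pos hb, cone_pos ⟨mem_insert_self _ _, by rw [erase_insert hv]; exact hb⟩,
        erase_insert hv]
    · rw [sl_neg hb]
      by_contra hne
      rw [eq_comm] at hne
      exact hb (hx σ hne)
  · rw [if_neg hvy, Pi.zero_apply]
    by_cases hb : ∀ u ∈ σ, u < v
    · rw [sl_pos hb, cone_neg]
      rintro ⟨h1, h2⟩
      rcases mem_insert.1 h1 with h3 | h3
      · exact hvy h3.symm
      · exact lt_asymm (hb y h3) (h2 v (mem_erase.2 ⟨hvy, mem_insert_self _ _⟩))
    · exact sl_neg hb _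

theorem sl_zero {ρ' : Finset B} {y : B} {m : ℕ} {w : Finset B → ZMod 2} (hw : InK ρ' y m w)
    {v : B} (hv : ¬ v < y) : sl v w = 0 := by
  funext σ
  by_cases hb : ∀ u ∈ σ, u < v
  · rw [sl_pos hb, Pi.zero_apply]
    by_contra hne
    exact hv ((hw _ hne).2.2.1 v (mem_insert_self _ _))
  · exact sl_neg hb _

theorem ub_ub (ρ : Finset B) (z : Finset B → ZMod 2) : ub ρ (ub ρ z) = 0 := by
  classical
  funext τ
  rw [Pi.zero_apply]
  by_cases hρ : ρ ⊆ τ
  · rw [ub_pos hρ]
    have h1 : ∀ v ∈ τᶜ, ub ρ z (insert v τ) = ∑ u ∈ (insert v τ)ᶜ, z (insert u (insert v τ)) :=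
      fun v _ => ub_pos (hρ.trans (subset_insert _ _)) z
    rw [sum_congr rfl h1, sum_sigma']
    refine sum_involution (fun p _ => ⟨p.2, p.1⟩) ?_ ?_ ?_ ?_
    · rintro ⟨v, u⟩ _
      simp only
      rw [Finset.insert_comm v u τ]
      exact CharTwo.add_self_eq_zero _
    · rintro ⟨v, u⟩ h _ heq
      simp only [mem_sigma, mem_compl, mem_insert, not_or] at h
      simp only [Sigma.mk.injEq, heq_eq_eq] at heq
      exact h.2.1 heq.1
    · rintro ⟨v, u⟩ h
      simp only [mem_sigma, mem_compl, mem_insert, not_or] at h ⊢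
      exact ⟨h.2.2, fun h' => h.2.1 h'.symm, h.1⟩
    · rintro ⟨v, u⟩ _
      rfl
  · exact ub_neg hρ _

theorem InK.ub {ρ : Finset B} {b : B} {m : ℕ} {z : Finset B → ZMod 2} (h : InK ρ b (m + 1) z) :
    InK ρ b m (ub ρ z) := by
  intro τ hτ
  by_cases hρ : ρ ⊆ τ
  · rw [ub_pos hρ] at hτ
    obtain ⟨v, hv, hne⟩ := exists_ne_zero_of_sum_ne_zero hτ
    obtain ⟨h1, h2, h3, h4⟩ := h _ hne
    rw [card_insert_of_notMem (mem_compl.1 hv)] at h4
    exact ⟨hρ, h2.mono (subset_insert _ _), fun x hx => h3 x (mem_insert_of_mem hx), by omega⟩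
  · exact absurd (ub_neg hρ z) hτ

theorem add_self' (z : Finset B → ZMod 2) : z + z = 0 := by
  funext σ
  exact CharTwo.add_self_eq_zero _

/-- slices of rank `r` are killed -/
theorem Flg.kill (h : IsSpherical rk) (hA : Flg ρ a b)
    (ih : ∀ y, a ≤ y → y < b → Ok rk (lo ρ y) y) {M r : ℕ} (hr : M < r)
    {z : Finset B → ZMod 2} (hz : InK ρ b (M + 1) z) (hc : ub ρ z = 0)
    (hs : ∀ v, a < v → r < rk v → sl v z = 0) :
    ∃ u, InK ρ b (M + 2) u ∧ ∀ v, a < v → r ≤ rk v → sl v (z + ub ρ u) = 0 := by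
  classical
  have hex : ∀ y, ∃ w, (a < y ∧ y < b ∧ rk y = r) → InK ρ y (M + 1) w ∧ ub ρ w = sl y z := by
    intro y
    by_cases hy : a < y ∧ y < b ∧ rk y = r
    · have hlo := hA.lo_eq hy.1
      have hok := ih y hy.1.le hy.2.1
      have h1 := hA.inK_sl hy.1.le hz
      have h2 := hA.ub_sl hy.1.le hz hc (fun v hv => hs v (hy.1.trans hv) (by
        have := h.lt hv
        omega))
      rw [hlo] at hok h1 h2
      obtain ⟨w, hw, hw'⟩ := hok.low M (by omega) _ h1 h2
      exact ⟨w, fun _ => ⟨hw, hw'⟩⟩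
    · exact ⟨0, fun h => absurd h hy⟩
  choose w hw using hex
  obtain ⟨R, hR⟩ : ∃ R : Finset B, ∀ y, y ∈ R ↔ (a < y ∧ y < b ∧ rk y = r) :=
    ⟨univ.filter fun y => a < y ∧ y < b ∧ rk y = r, fun y => by simp⟩
  refine ⟨∑ y ∈ R, cone y (w y), InK.sum fun y hy => ?_, fun v hv hrv => ?_⟩
  · obtain ⟨h1, h2, h3⟩ := (hR y).1 hy
    refine hA.inK_cone h1.le h2 ?_
    rw [hA.lo_eq h1]
    exact (hw y ((hR y).1 hy)).1
  · rw [map_sum, map_add, map_sum]
    have key : ∀ y ∈ R, sl v (ub ρ (cone y (w y))) = if v = y then sl v z else 0 := by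
      intro y hy
      obtain ⟨h1, h2, h3⟩ := (hR y).1 hy
      obtain ⟨h4, h5⟩ := hw y ((hR y).1 hy)
      have hlo := hA.lo_eq h1
      have hyρ : y ∉ ρ := fun h' => absurd (hA.le y h') (not_le_of_gt h1)
      rw [hA.ub_cone h1.le (m := M + 1) (by rw [hlo]; exact h4), hlo, h5, if_neg hyρ, map_add,
        sl_zero h4 (fun h' => by have := h.lt h'; omega), add_zero, sl_cone]
      · by_cases hvy : v = y
        · rw [if_pos hvy, if_pos hvy, hvy]
        · rw [if_neg hvy, if_neg hvy]
      · intro σ hσ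
        exact (hA.inK_sl h1.le hz σ hσ).2.2.1
    rw [sum_congr rfl key, sum_ite_eq R v]
    by_cases hvR : v ∈ R
    · rw [if_pos hvR, add_self']
    · rw [if_neg hvR, add_zero]
      by_cases hvb : v < b
      · refine hs v hv (lt_of_le_of_ne hrv fun h' => hvR ((hR v).2 ⟨hv, hvb, h'.symm⟩))
      · exact sl_zero hz hvb

/-- all slices of rank larger than `M` are killed -/
theorem Flg.killAll (h : IsSpherical rk) (hA : Flg ρ a b)
    (ih : ∀ y, a ≤ y → y < b → Ok rk (lo ρ y) y) {M : ℕ}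
    {z : Finset B → ZMod 2} (hz : InK ρ b (M + 1) z) (hc : ub ρ z = 0) :
    ∃ u, InK ρ b (M + 2) u ∧ ∀ v, a < v → M < rk v → sl v (z + ub ρ u) = 0 := by
  have key : ∀ (k : ℕ) (z : Finset B → ZMod 2), InK ρ b (M + 1) z → ub ρ z = 0 →
      (∀ v, a < v → M + k < rk v → sl v z = 0) →
      ∃ u, InK ρ b (M + 2) u ∧ ∀ v, a < v → M < rk v → sl v (z + ub ρ u) = 0 := by
    intro k
    induction k with
    | zero =>
      intro z _ _ hs
      refine ⟨0, InK.zero, fun v hv hr => ?_⟩
      rw [map_zero, add_zero]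
      exact hs v hv hr
    | succ k ihk =>
      intro z hz hc hs
      obtain ⟨u, hu, hu'⟩ := hA.kill h ih (M := M) (r := M + (k + 1)) (by omega) hz hc hs
      obtain ⟨u', hu1, hu2⟩ := ihk (z + ub ρ u) (hz.add hu.ub)
        (by rw [map_add, hc, ub_ub, add_zero]) (fun v hv hr => hu' v hv (by omega))
      refine ⟨u + u', hu.add hu1, fun v hv hr => ?_⟩
      rw [(ub ρ).map_add, ← add_assoc]
      exact hu2 v hv hr
  refine key (rk b) z hz hc fun v _ hr => ?_
  refine sl_zero hz fun hvb => ?_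
  have := h.lt hvb
  omega

end Pool.Agent.H4.HY
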