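import Pool.Agent.H4.Singer2.PInterval
import Pool.Agent.H19.Hyp.Defs

/-!
# Project HB: the elements comparable with a given element of a spherical poset

If all intervals of `B` are exact then the same is true for the set of all `x ≠ t` which are comparable
with `t`: the complexes of the intervals `[a, t]` and `[t, b]` are glued at `t`.
-/

set_option autoImplicit false
set_option linter.unusedSectionVars false

open Finset

namespace Pool.Agent.H4.HY

open Pool.Agent.H4.Singer2 Pool.Agent.H19.Hyp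

variable {B : Type} [PartialOrder B] [Fintype B] {rk : B → ℕ}

/-- the elements comparable with `t` -/
abbrev Cmp (t : B) : Type := {x : B // x < t ∨ t < x}

open Classical in
/-- the rank function on the elements comparable with `t` -/
noncomputable def rkC (rk : B → ℕ) (t : B) (x : Cmp t) : ℕ := if t < x.1 then rk x.1 - 1 else rk x.1

noncomputable instance (t : B) : Fintype (Cmp t) := by
  classical
  exact Subtype.fintype _

theorem Cmp.lt_or (t : B) (x : Cmp t) (h : ¬ t < x.1) : x.1 < t := x.2.resolve_right h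

theorem cov_cmp {t : B} {x y : Cmp t} :
    x ⋖ y ↔ (x.1 ⋖ y.1 ∧ (t < x.1 ∨ y.1 < t)) ∨ (x.1 ⋖ t ∧ t ⋖ y.1) := by
  constructor
  · intro h
    have hxy : x.1 < y.1 := h.lt
    by_cases hx : t < x.1
    · refine Or.inl ⟨⟨hxy, fun z h1 h2 => ?_⟩, Or.inl hx⟩
      exact h.2 (c := ⟨z, Or.inr (hx.trans h1)⟩) h1 h2
    · have hx' := x.2.resolve_right hx
      by_cases hy : t < y.1
      · refine Or.inr ⟨⟨hx', fun z h1 h2 => ?_⟩, ⟨hy, fun z h1 h2 => ?_⟩⟩
        · exact h.2 (c := ⟨z, Or.inl h2⟩) h1 (h2.trans hy)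
        · exact h.2 (c := ⟨z, Or.inr h1⟩) (hx'.trans h1) h2
      · have hy' := y.2.resolve_right hy
        refine Or.inl ⟨⟨hxy, fun z h1 h2 => ?_⟩, Or.inr hy'⟩
        exact h.2 (c := ⟨z, Or.inl (h2.trans hy')⟩) h1 h2
  · rintro (⟨h, -⟩ | ⟨h1, h2⟩)
    · exact ⟨h.lt, fun z h1 h2 => h.2 h1 h2⟩
    · refine ⟨h1.lt.trans h2.lt, fun z h3 h4 => ?_⟩
      rcases z.2 with h5 | h5
      · exact h1.2 h3 h5
      · exact h2.2 h5 h4

/-- evaluation of a function on the comparable elements -/
private theorem bdI_sum (b : B) (z : B → ZMod 2) (x : B) (T : Finset B)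
    (hT : ∀ v, v ∈ T ↔ x ⋖ v ∧ v ≤ b) : bdI b z x = ∑ v ∈ T, z v :=
  prank_bdI_eq_sum_of hT

/-- the value of the boundary only depends on the covering elements -/
theorem bdI_congr {b : B} {z z' : B → ZMod 2} {x : B} (h : ∀ v, x ⋖ v → v ≤ b → z v = z' v) :
    bdI b z x = bdI b z' x := by
  classical
  unfold bdI
  refine sum_congr rfl fun v hv => ?_
  rw [mem_filter] at hv
  exact h v hv.2.1 hv.2.2

theorem bdI_self (b : B) (z : B → ZMod 2) : bdI b z b = 0 := by
  classical
  unfold bdI
  refine sum_eq_zero fun v hv => ?_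
  rw [mem_filter] at hv
  exact absurd hv.2.1.lt (not_lt_of_ge hv.2.2)

/-- the boundary above `t` -/
theorem bdI_above {t : B} (b x : Cmp t) (hx : t < x.1) (z : Cmp t → ZMod 2) (Z : B → ZMod 2)
    (hZ : ∀ y : Cmp t, t < y.1 → Z y.1 = z y) : bdI b z x = bdI b.1 Z x.1 := by
  classical
  unfold bdI
  refine sum_bij (fun y _ => y.1) ?_ ?_ ?_ ?_
  · intro y hy
    rw [mem_filter, cov_cmp] at hy
    rw [mem_filter]
    refine ⟨mem_univ _, ?_, hy.2.2⟩
    rcases hy.2.1 with h1 | h1
    · exact h1.1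
    · exact absurd h1.1.lt (lt_asymm hx)
  · intro y _ y' _ h
    exact Subtype.ext h
  · intro y hy
    rw [mem_filter] at hy
    refine ⟨⟨y, Or.inr (hx.trans hy.2.1.lt)⟩, ?_, rfl⟩
    rw [mem_filter, cov_cmp]
    exact ⟨mem_univ _, Or.inl ⟨hy.2.1, Or.inl hx⟩, hy.2.2⟩
  · intro y hy
    rw [mem_filter, cov_cmp] at hy
    refine (hZ y ?_).symm
    rcases hy.2.1 with h1 | h1
    · exact hx.trans h1.1.lt
    · exact absurd h1.1.lt (lt_asymm hx)

/-- the boundary below `t`, for an interval with `t < b` -/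
theorem bdI_below {t : B} (b x : Cmp t) (hb : t < b.1) (hx : x.1 < t) (z : Cmp t → ZMod 2)
    (Z Z' : B → ZMod 2) (hZ : ∀ y : Cmp t, Z y.1 = z y) (hZ' : ∀ y, y < t → Z' y = Z y)
    (ht : Z' t = bdI b.1 Z t) : bdI b z x = bdI t Z' x.1 := by
  classical
  by_cases hxt : x.1 ⋖ t
  · have h1 : bdI t Z' x.1 = Z' t := by
      rw [bdI_sum t Z' x.1 {t}, sum_singleton]
      intro v
      rw [mem_singleton]
      constructor
      · rintro rfl
        exact ⟨hxt, le_rfl⟩
      · rintro ⟨h2, h3⟩
        by_contra h4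
        exact hxt.2 h2.lt (lt_of_le_of_ne h3 h4)
    rw [h1, ht]
    unfold bdI
    refine sum_bij (fun y _ => y.1) ?_ ?_ ?_ ?_
    · intro y hy
      rw [mem_filter, cov_cmp] at hy
      rw [mem_filter]
      refine ⟨mem_univ _, ?_, hy.2.2⟩
      rcases hy.2.1 with ⟨h2, h3 | h3⟩ | h2
      · exact absurd h3 (lt_asymm hx)
      · exact absurd h3 (hxt.2 h2.lt)
      · exact h2.2
    · intro y _ y' _ h
      exact Subtype.ext h
    · intro y hy
      rw [mem_filter] at hy
      refine ⟨⟨y, Or.inr hy.2.1.lt⟩, ?_, rfl⟩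
      rw [mem_filter, cov_cmp]
      exact ⟨mem_univ _, Or.inr ⟨hxt, hy.2.1⟩, hy.2.2⟩
    · intro y _
      exact (hZ y).symm
  · unfold bdI
    refine sum_bij (fun y _ => y.1) ?_ ?_ ?_ ?_
    · intro y hy
      rw [mem_filter, cov_cmp] at hy
      rw [mem_filter]
      rcases hy.2.1 with ⟨h2, h3 | h3⟩ | h2
      · exact absurd h3 (lt_asymm hx)
      · exact ⟨mem_univ _, h2, h3.le⟩
      · exact absurd h2.1 hxt
    · intro y _ y' _ h
      exact Subtype.ext h
    · intro y hy
      rw [mem_filter] at hy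
      have h2 : y < t := by
        refine lt_of_le_of_ne hy.2.2 ?_
        rintro rfl
        exact hxt hy.2.1
      refine ⟨⟨y, Or.inl h2⟩, ?_, rfl⟩
      rw [mem_filter, cov_cmp]
      exact ⟨mem_univ _, Or.inl ⟨hy.2.1, Or.inr h2⟩, (h2.trans hb).le⟩
    · intro y hy
      rw [mem_filter, cov_cmp] at hy
      rcases hy.2.1 with ⟨h2, h3 | h3⟩ | h2
      · exact absurd h3 (lt_asymm hx)
      · rw [hZ' y.1 h3, hZ y]
      · exact absurd h2.1 hxt

/-- the boundary for an interval below `t` -/
theorem bdI_low {t : B} (b x : Cmp t) (hb : b.1 < t) (z : Cmp t → ZMod 2)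
    (Z : B → ZMod 2) (hZ : ∀ y : Cmp t, Z y.1 = z y) (hx : x ≤ b) :
    bdI b z x = bdI b.1 Z x.1 := by
  classical
  have hxt : x.1 < t := lt_of_le_of_lt hx hb
  unfold bdI
  refine sum_bij (fun y _ => y.1) ?_ ?_ ?_ ?_
  · intro y hy
    rw [mem_filter, cov_cmp] at hy
    rw [mem_filter]
    refine ⟨mem_univ _, ?_, hy.2.2⟩
    rcases hy.2.1 with h1 | h1
    · exact h1.1
    · exact absurd (h1.2.lt.trans_le hy.2.2) (lt_asymm hb)
  · intro y _ y' _ h
    exact Subtype.ext h
  · intro y hy
    rw [mem_filter] at hy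
    have h2 : y < t := lt_of_le_of_lt hy.2.2 hb
    refine ⟨⟨y, Or.inl h2⟩, ?_, rfl⟩
    rw [mem_filter, cov_cmp]
    exact ⟨mem_univ _, Or.inl ⟨hy.2.1, Or.inr h2⟩, hy.2.2⟩
  · intro y _
    exact (hZ y).symm

open Classical in
/-- extension by zero -/
noncomputable def extZ {t : B} (z : Cmp t → ZMod 2) (x : B) : ZMod 2 :=
  if h : x < t ∨ t < x then z ⟨x, h⟩ else 0

theorem extZ_apply {t : B} (z : Cmp t → ZMod 2) (y : Cmp t) : extZ z y.1 = z y := dif_pos y.2

theorem exact_cmp (h : IsSpherical rk) (t : B) (a b : Cmp t) (hab : a < b) :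
    ExactInterval a b := by
  classical
  by_cases ha : t < a.1
  · -- above `t`
    have hE := h.exact a.1 b.1 hab
    intro z
    have key : ∀ (z : Cmp t → ZMod 2) (x : Cmp t), a ≤ x → bdI b z x = bdI b.1 (extZ z) x.1 :=
      fun z x hx => bdI_above b x (ha.trans_le hx) z (extZ z) fun y _ => extZ_apply z y
    constructor
    · intro hz
      obtain ⟨Y, hY⟩ := (hE (extZ z)).1 (fun x hx hxb => by
        rw [← key z ⟨x, Or.inr (ha.trans_le hx)⟩ hx]
        exact hz _ hx hxb)
      refine ⟨fun x => Y x.1, fun x hx hxb => ?_⟩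
      rw [bdI_above b x (ha.trans_le hx) (fun x => Y x.1) Y fun y _ => rfl, hY x.1 hx hxb,
        extZ_apply]
    · rintro ⟨y, hy⟩ x hx hxb
      rw [key z x hx]
      refine (hE (extZ z)).2 ⟨extZ y, fun u hu hub => ?_⟩ x.1 hx hxb
      rw [← key y ⟨u, Or.inr (ha.trans_le hu)⟩ hu, hy _ hu hub]
      exact (extZ_apply z ⟨u, Or.inr (ha.trans_le hu)⟩).symm
  · have ha' := a.2.resolve_right ha
    by_cases hb : t < b.1
    · have hE1 := h.exact a.1 t ha'
      have hE2 := h.exact t b.1 hb
      intro z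
      -- the two halves of a function
      have key : ∀ (z : Cmp t → ZMod 2) (x : Cmp t), x.1 < t →
          bdI b z x = bdI t (fun y => if y = t then bdI b.1 (extZ z) t else extZ z y) x.1 := by
        intro z x hx
        refine bdI_below b x hb hx z (extZ z) _ (fun y => extZ_apply z y) (fun y hy => ?_) ?_
        · beta_reduce
          rw [if_neg hy.ne]
        · beta_reduce
          rw [if_pos rfl]
      have key2 : ∀ (z : Cmp t → ZMod 2) (x : Cmp t), t < x.1 →
          bdI b z x = bdI b.1 (extZ z) x.1 :=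
        fun z x hx => bdI_above b x hx z (extZ z) fun y _ => extZ_apply z y
      constructor
      · intro hz
        obtain ⟨Y1, hY1⟩ := (hE1 fun y => if y = t then bdI b.1 (extZ z) t else extZ z y).1
          (fun x hx hxt => by
            rcases hxt.eq_or_lt with h1 | h1
            · rw [h1]
              exact bdI_self _ _
            · rw [← key z ⟨x, Or.inl h1⟩ h1]
              exact hz ⟨x, Or.inl h1⟩ hx (h1.trans hb).le)
        have h0 : bdI b.1 (extZ z) t = 0 := by
          have h1 := hY1 t ha'.le le_rfl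
          rw [bdI_self, if_pos rfl] at h1
          exact h1.symm
        obtain ⟨Y2, hY2⟩ := (hE2 fun y => if y = t then Y1 t else extZ z y).1
          (fun x hx hxb => by
            have h2 : bdI b.1 (fun y => if y = t then Y1 t else extZ z y) x =
                bdI b.1 (extZ z) x :=
              bdI_congr fun v hv _ => if_neg (hx.trans_lt hv.lt).ne'
            rw [h2]
            rcases hx.eq_or_lt with h1 | h1
            · rw [← h1]
              exact h0
            · rw [← key2 z ⟨x, Or.inr h1⟩ h1]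
              exact hz ⟨x, Or.inr h1⟩ (ha'.trans h1).le hxb)
        refine ⟨fun x => if t < x.1 then Y2 x.1 else Y1 x.1, fun x hx hxb => ?_⟩
        by_cases hxt : t < x.1
        · rw [bdI_above b x hxt _ Y2 (fun y hy => (if_pos hy).symm), hY2 x.1 hxt.le hxb,
            if_neg hxt.ne', extZ_apply]
        · have hx' := x.2.resolve_right hxt
          rw [bdI_below b x hb hx' _ (fun y => if t < y then Y2 y else Y1 y) Y1 (fun y => rfl)
            (fun y hy => (if_neg (lt_asymm hy)).symm) ?_, hY1 x.1 hx hx'.le, if_neg hx'.ne,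
            extZ_apply]
          have h3 : bdI b.1 (fun y => if t < y then Y2 y else Y1 y) t = bdI b.1 Y2 t :=
            bdI_congr fun v hv _ => if_pos hv.lt
          rw [h3, hY2 t le_rfl hb.le, if_pos rfl]
      · rintro ⟨y, hy⟩ x hx hxb
        have h2 : ∀ u, t < u → u ≤ b.1 → bdI b.1 (extZ y) u = extZ z u := by
          intro u hu hub
          rw [← key2 y ⟨u, Or.inr hu⟩ hu, hy _ (ha'.trans hu).le hub]
          exact (extZ_apply z ⟨u, Or.inr hu⟩).symm
        have h3 : ∀ u, t ≤ u → u ≤ b.1 → bdI b.1 (extZ z) u = 0 := by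
          intro u hu hub
          have h4 := (hE2 (bdI b.1 (extZ y))).2 ⟨extZ y, fun _ _ _ => rfl⟩ u hu hub
          rw [← h4]
          exact bdI_congr fun v hv hvb => (h2 v (hu.trans_lt hv.lt) hvb).symm
        by_cases hxt : t < x.1
        · rw [key2 z x hxt]
          exact h3 x.1 hxt.le hxb
        · have hx' := x.2.resolve_right hxt
          rw [key z x hx']
          refine (hE1 _).2 ⟨fun v => if v = t then bdI b.1 (extZ y) t else extZ y v,
            fun u hu hut => ?_⟩ x.1 hx hx'.le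
          rcases hut.eq_or_lt with h1 | h1
          · rw [h1, bdI_self, if_pos rfl, h3 t le_rfl hb.le]
          · rw [← key y ⟨u, Or.inl h1⟩ h1, if_neg h1.ne, hy _ hu (h1.trans hb).le]
            exact (extZ_apply z ⟨u, Or.inl h1⟩).symm
    · -- below `t`
      have hb' := b.2.resolve_right hb
      have hE := h.exact a.1 b.1 hab
      intro z
      have key : ∀ (z : Cmp t → ZMod 2) (x : Cmp t), x ≤ b → bdI b z x = bdI b.1 (extZ z) x.1 :=
        fun z x hx => bdI_low b x hb' z (extZ z) (fun y => extZ_apply z y) hx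
      constructor
      · intro hz
        obtain ⟨Y, hY⟩ := (hE (extZ z)).1 (fun x hx hxb => by
          rw [← key z ⟨x, Or.inl (lt_of_le_of_lt hxb hb')⟩ hxb]
          exact hz _ hx hxb)
        refine ⟨fun x => Y x.1, fun x hx hxb => ?_⟩
        rw [bdI_low b x hb' (fun x => Y x.1) Y (fun y => rfl) hxb, hY x.1 hx hxb, extZ_apply]
      · rintro ⟨y, hy⟩ x hx hxb
        rw [key z x hxb]
        refine (hE (extZ z)).2 ⟨extZ y, fun u hu hub => ?_⟩ x.1 hx hxb
        rw [← key y ⟨u, Or.inl (lt_of_le_of_lt hub hb')⟩ hub, hy _ hu hub]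
        exact (extZ_apply z ⟨u, Or.inl (lt_of_le_of_lt hub hb')⟩).symm

/-- **The elements comparable with `t` form a spherical poset.** -/
theorem spherical_cmp (h : IsSpherical rk) (t : B) : IsSpherical (rkC rk t) where
  covBy x y hxy := by
    classical
    rw [cov_cmp] at hxy
    unfold rkC
    rcases hxy with ⟨h1, h2⟩ | ⟨h1, h2⟩
    · rcases h2 with h2 | h2
      · rw [if_pos h2, if_pos (h2.trans h1.lt), h.covBy _ _ h1]
        have := h.lt h2
        omega
      · rw [if_neg (lt_asymm h2), if_neg (lt_asymm (h1.lt.trans h2)), h.covBy _ _ h1]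
    · rw [if_pos h2.lt, if_neg (lt_asymm h1.lt), h.covBy _ _ h2, h.covBy _ _ h1]
      rfl
  exact a b hab := exact_cmp h t a b hab

end Pool.Agent.H4.HY
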